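import Pool.Agent.W_MP_654ec6.Stmt

/-!
# Part A (Ricci calculus in coordinates): definitions
-/

open scoped ContDiff Topology
open Filter

namespace Pool.Agent.W_MP_654ec6

/-- `g` is a smooth Riemannian metric on `V`. -/
structure GoodMet (g : Met) (V : Set E4) : Prop where
  smooth : ∀ i j, ContDiffOn ℝ ∞ (fun x => g x i j) V
  symm : ∀ x ∈ V, ∀ i j, g x i j = g x j i
  pos : ∀ x ∈ V, ∀ v : E4, v ≠ 0 → 0 < qf (g x) v

/-- `Ric ≥ κ g` at the point `x`. -/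
def RicGE (g : Met) (κ : ℝ) (x : E4) : Prop := ∀ v : E4, κ * qf (g x) v ≤ ricq g x v

/-- `θ` is (near `x`) a smooth local isometry from the metric `g` to the metric `g'`. -/
def IsoAt (g g' : Met) (θ : E4 → E4) (x : E4) : Prop :=
  ContDiffAt ℝ ∞ θ x ∧ ∀ᶠ y in 𝓝 x, ∀ v : E4, qf (g' (θ y)) (fderiv ℝ θ y v) = qf (g y) v

/-- Derivative with respect to the first variable. -/
noncomputable def dT (f : ℝ → ℝ → ℝ) : ℝ → ℝ → ℝ := fun t x => deriv (fun s => f s x) t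

/-- Derivative with respect to the second variable. -/
noncomputable def dX (f : ℝ → ℝ → ℝ) : ℝ → ℝ → ℝ := fun t x => deriv (fun s => f t s) x

/-- The warped metric `dt² + A(t,x)² dx² + b(t,x)² (dθ² + sin² θ dφ²)` in the coordinates
`(t, x, θ, φ)`. -/
noncomputable def warpMet (A b : ℝ → ℝ → ℝ) : Met := fun y =>
  !![1, 0, 0, 0; 0, A (y 0) (y 1) ^ 2, 0, 0; 0, 0, b (y 0) (y 1) ^ 2, 0;
    0, 0, 0, b (y 0) (y 1) ^ 2 * Real.sin (y 2) ^ 2]

/-- The Kaluza-Klein metric `E dt² + P² dx² + N² dα² + H² (dβ + a dα)²` in the coordinates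
`(t, x, α, β)`; `E, P` depend on `t`, `a` on `x`, `N, H` on `(t, x)`. -/
noncomputable def kkMet (E P : ℝ → ℝ) (N H : ℝ → ℝ → ℝ) (a : ℝ → ℝ) : Met := fun y =>
  !![E (y 0), 0, 0, 0; 0, P (y 0) ^ 2, 0, 0;
    0, 0, N (y 0) (y 1) ^ 2 + H (y 0) (y 1) ^ 2 * a (y 1) ^ 2, H (y 0) (y 1) ^ 2 * a (y 1);
    0, 0, H (y 0) (y 1) ^ 2 * a (y 1), H (y 0) (y 1) ^ 2]

end Pool.Agent.W_MP_654ec6
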