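import Pool.Agent.W_MP_654ec6.A.Defs

/-!
# Task A7: local isometries are local diffeomorphisms; composition

If `IsoAt g g' θ x` then `fderiv ℝ θ x` is injective (`fderiv ℝ θ x v = 0` implies
`qf (g x) v = 0`, so `v = 0`), hence a linear equivalence (dimension 4), so the inverse function
theorem (`ContDiffAt.toOpenPartialHomeomorph`, `ContDiffAt.to_localInverse`) gives `θ'`; it is an
isometry near `θ x` because `fderiv θ' (θ y) = (fderiv θ y)⁻¹` for `y` near `x`.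
`isoAt_comp`: chain rule.
-/

open scoped ContDiff Topology
open Filter

namespace Pool.Agent.W_MP_654ec6

theorem inverse_diff {θ : E4 → E4} {x : E4} (h : ContDiffAt ℝ ∞ θ x) :
    ∀ᶠ y in 𝓝 x, DifferentiableAt ℝ θ y := by
  have h1 : ContDiffAt ℝ 1 θ x := h.of_le (by norm_cast)
  exact (h1.eventually (by simp)).mono fun y hy => hy.differentiableAt (by simp)

theorem isoAt_id (g : Met) (x : E4) : IsoAt g g id x :=
  ⟨contDiffAt_id, Eventually.of_forall fun y v => by simp⟩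

theorem isoAt_comp {g g' g'' : Met} {θ θ' : E4 → E4} {x : E4} (h : IsoAt g g' θ x)
    (h' : IsoAt g' g'' θ' (θ x)) : IsoAt g g'' (θ' ∘ θ) x := by
  refine ⟨h'.1.comp x h.1, ?_⟩
  have hc : Tendsto θ (𝓝 x) (𝓝 (θ x)) := h.1.continuousAt
  filter_upwards [h.2, inverse_diff h.1, hc.eventually h'.2, hc.eventually (inverse_diff h'.1)]
    with y h1 h2 h3 h4 v
  rw [fderiv_comp y h4 h2, ContinuousLinearMap.comp_apply, Function.comp_apply, h3, h1]

theorem isoAt_congr {g g₁ g' g₁' : Met} {θ θ₁ : E4 → E4} {x : E4} (h : IsoAt g g' θ x)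
    (hg : g =ᶠ[𝓝 x] g₁) (hθ : θ =ᶠ[𝓝 x] θ₁) (hg' : g' =ᶠ[𝓝 (θ x)] g₁') : IsoAt g₁ g₁' θ₁ x := by
  refine ⟨h.1.congr_of_eventuallyEq hθ.symm, ?_⟩
  have hc : Tendsto θ (𝓝 x) (𝓝 (θ x)) := h.1.continuousAt
  filter_upwards [h.2, hg, hθ.eventuallyEq_nhds, hc.eventually hg'] with y h1 h2 h3 h4 v
  rw [← h2, ← h3.fderiv_eq, ← h3.self_of_nhds, ← h4, h1]

/-- The hypothesis on `θ` near `x` cannot be dropped: `ContDiffAt ℝ ∞ θ x` alone does not give
`ContDiffAt ℝ ∞ θ y` for `y` near `x`. -/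
theorem isoAt_eventually {g g' : Met} {θ : E4 → E4} {x : E4} (h : IsoAt g g' θ x)
    (hθ : ∀ᶠ y in 𝓝 x, ContDiffAt ℝ ∞ θ y) :
    ∀ᶠ y in 𝓝 x, IsoAt g g' θ y := by
  filter_upwards [hθ, h.2.eventually_nhds] with y h1 h2
  exact ⟨h1, h2⟩

theorem inverse_injective {g g' : Met} {V : Set E4} (hg : GoodMet g V) {θ : E4 → E4} {x : E4}
    (hx : x ∈ V) (h : IsoAt g g' θ x) : Function.Injective (fderiv ℝ θ x) := by
  rw [injective_iff_map_eq_zero]
  intro v hv
  by_contra hne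
  have h1 := h.2.self_of_nhds v
  rw [hv] at h1
  have h2 := hg.pos x hx v hne
  rw [← h1] at h2
  simp [qf] at h2

theorem isoAt_inverse {g g' : Met} {V V' : Set E4} (hV : IsOpen V) (hg : GoodMet g V)
    (hV' : IsOpen V') (hg' : GoodMet g' V') {θ : E4 → E4} {x : E4} (hx : x ∈ V)
    (hx' : θ x ∈ V') (h : IsoAt g g' θ x) :
    ∃ θ' : E4 → E4, θ' (θ x) = x ∧ IsoAt g' g θ' (θ x) ∧ (∀ᶠ y in 𝓝 x, θ' (θ y) = y) ∧
      ∀ᶠ z in 𝓝 (θ x), θ (θ' z) = z := by
  have hinj := inverse_injective hg hx h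
  let e : E4 ≃L[ℝ] E4 :=
    (LinearEquiv.ofInjectiveEndo (fderiv ℝ θ x : E4 →ₗ[ℝ] E4) hinj).toContinuousLinearEquiv
  have he : (e : E4 →L[ℝ] E4) = fderiv ℝ θ x := by
    ext v : 1
    rfl
  have hd : HasFDerivAt θ (e : E4 →L[ℝ] E4) x := by
    rw [he]
    exact (h.1.differentiableAt (by simp)).hasFDerivAt
  have hn : (∞ : WithTop ℕ∞) ≠ 0 := by simp
  have hstr := h.1.hasStrictFDerivAt' hd hn
  have hx0 : h.1.localInverse hd hn (θ x) = x := h.1.localInverse_apply_image hd hn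
  have hsm : ContDiffAt ℝ ∞ (h.1.localInverse hd hn) (θ x) := h.1.to_localInverse hd hn
  have hl : ∀ᶠ y in 𝓝 x, h.1.localInverse hd hn (θ y) = y := hstr.eventually_left_inverse
  have hr : ∀ᶠ z in 𝓝 (θ x), θ (h.1.localInverse hd hn z) = z := hstr.eventually_right_inverse
  refine ⟨h.1.localInverse hd hn, hx0, ⟨hsm, ?_⟩, hl, hr⟩
  have hc : Tendsto (h.1.localInverse hd hn) (𝓝 (θ x)) (𝓝 x) := by
    have := hsm.continuousAt
    rw [ContinuousAt, hx0] at this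
    exact this
  filter_upwards [hc.eventually h.2, hc.eventually (inverse_diff h.1), inverse_diff hsm,
    hr.eventually_nhds] with z h1 h2 h3 h4 v
  have h5 : fderiv ℝ (θ ∘ h.1.localInverse hd hn) z v = v := by
    have : (θ ∘ h.1.localInverse hd hn) =ᶠ[𝓝 z] id := h4
    rw [this.fderiv_eq]
    simp
  rw [fderiv_comp z h2 h3, ContinuousLinearMap.comp_apply] at h5
  rw [← h1, h5, h4.self_of_nhds]

end Pool.Agent.W_MP_654ec6
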