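import Pool.Agent.W_MP_654ec6.A.Inverse

/-!
# Local isometries: cancellation and density
-/

open scoped ContDiff Topology
open Filter

namespace Pool.Agent.W_MP_654ec6

/-- If `σ` and `θ ∘ σ` are local isometries at `y` then so is `θ` at `σ y`. -/
theorem isoAt_of_comp {g0 g1 g2 : Met} {V0 V1 : Set E4} (hV0 : IsOpen V0) (hg0 : GoodMet g0 V0)
    (hV1 : IsOpen V1) (hg1 : GoodMet g1 V1) {σ θ : E4 → E4} {y : E4} (hy : y ∈ V0)
    (hy' : σ y ∈ V1) (h : IsoAt g0 g1 σ y) (h' : IsoAt g0 g2 (θ ∘ σ) y) :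
    IsoAt g1 g2 θ (σ y) := by
  obtain ⟨σ', h1, h2, _, h4⟩ := isoAt_inverse hV0 hg0 hV1 hg1 hy hy' h
  have h5 : IsoAt g1 g2 ((θ ∘ σ) ∘ σ') (σ y) := isoAt_comp h2 (by rw [h1]; exact h')
  refine isoAt_congr h5 EventuallyEq.rfl ?_ EventuallyEq.rfl
  filter_upwards [h4] with z hz
  simp only [Function.comp_apply, hz]

/-- A smooth map which preserves the metrics on a dense set is a local isometry. -/
theorem isoAt_of_dense {g g' : Met} {V V' D : Set E4} (hV : IsOpen V) (hg : GoodMet g V)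
    (hg' : GoodMet g' V') {θ : E4 → E4} (hθ : ContDiffOn ℝ ∞ θ V) (hm : Set.MapsTo θ V V')
    (hDV : D ⊆ V) (hD : V ⊆ closure D)
    (h : ∀ x ∈ D, ∀ v : E4, qf (g' (θ x)) (fderiv ℝ θ x v) = qf (g x) v) :
    ∀ x ∈ V, IsoAt g g' θ x := by
  have hfd : ContinuousOn (fderiv ℝ θ) V := hθ.continuousOn_fderiv_of_isOpen hV (by norm_cast)
  have key : ∀ v : E4, Set.EqOn (fun x => qf (g' (θ x)) (fderiv ℝ θ x v)) (fun x => qf (g x) v) V := by
    intro v
    refine Set.EqOn.of_subset_closure (s := D) (fun x hx => h x hx v) ?_ ?_ hDV hD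
    · unfold qf
      refine continuousOn_finsetSum _ fun i _ => continuousOn_finsetSum _ fun j _ => ?_
      have hv : ∀ i : Fin 4, ContinuousOn (fun x => fderiv ℝ θ x v i) V := fun i =>
        ((EuclideanSpace.proj i : E4 →L[ℝ] ℝ).continuous.comp_continuousOn
          (hfd.clm_apply continuousOn_const))
      exact (((hg'.smooth i j).continuousOn.comp hθ.continuousOn hm).mul (hv i)).mul (hv j)
    · unfold qf
      refine continuousOn_finsetSum _ fun i _ => continuousOn_finsetSum _ fun j _ => ?_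
      exact ((hg.smooth i j).continuousOn.mul continuousOn_const).mul continuousOn_const
  intro x hx
  refine ⟨hθ.contDiffAt (hV.mem_nhds hx), ?_⟩
  filter_upwards [hV.mem_nhds hx] with y hy v
  exact key v hy

end Pool.Agent.W_MP_654ec6
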