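import Pool.Agent.W_MP_654ec6.A.Defs

/-!
# Second order jets and the Ricci tensor

`HasJet f y c d h`: `f` is twice continuously differentiable at `y`, with value `c`, gradient `d`
and Hessian `h`. The Ricci tensor of a metric at `y` is an explicit rational function of the jets
of its coefficients (`ric_of_jets`).
-/

open scoped ContDiff Topology
open Filter

namespace Pool.Agent.W_MP_654ec6

theorem jet_pd_congr {f g : E4 → ℝ} {x : E4} (h : f =ᶠ[𝓝 x] g) (i : Fin 4) :
    pd i f =ᶠ[𝓝 x] pd i g := by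
  filter_upwards [h.fderiv (𝕜 := ℝ)] with z hz
  unfold pd
  rw [hz]

theorem jet_pd_congr_at {f g : E4 → ℝ} {x : E4} (h : f =ᶠ[𝓝 x] g) (i : Fin 4) :
    pd i f x = pd i g x := (jet_pd_congr h i).self_of_nhds

theorem jet_pd_const (c : ℝ) (i : Fin 4) (x : E4) : pd i (fun _ => c) x = 0 := by
  unfold pd
  simp

theorem jet_pd_add {f g : E4 → ℝ} {x : E4} (hf : DifferentiableAt ℝ f x)
    (hg : DifferentiableAt ℝ g x) (i : Fin 4) :
    pd i (fun y => f y + g y) x = pd i f x + pd i g x := by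
  unfold pd
  rw [fderiv_fun_add hf hg]
  rfl

theorem jet_pd_sub {f g : E4 → ℝ} {x : E4} (hf : DifferentiableAt ℝ f x)
    (hg : DifferentiableAt ℝ g x) (i : Fin 4) :
    pd i (fun y => f y - g y) x = pd i f x - pd i g x := by
  unfold pd
  rw [fderiv_fun_sub hf hg]
  rfl

theorem jet_pd_mul {f g : E4 → ℝ} {x : E4} (hf : DifferentiableAt ℝ f x)
    (hg : DifferentiableAt ℝ g x) (i : Fin 4) :
    pd i (fun y => f y * g y) x = pd i f x * g x + f x * pd i g x := by
  unfold pd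
  rw [fderiv_fun_mul hf hg]
  simp only [add_apply, smul_apply, smul_eq_mul]
  ring

theorem jet_pd_const_mul {f : E4 → ℝ} {x : E4} (c : ℝ) (hf : DifferentiableAt ℝ f x) (i : Fin 4) :
    pd i (fun y => c * f y) x = c * pd i f x := by
  rw [jet_pd_mul (differentiableAt_const c) hf, jet_pd_const]
  ring

theorem jet_pd_sum {ι : Type*} (s : Finset ι) {f : ι → E4 → ℝ} {x : E4}
    (hf : ∀ a ∈ s, DifferentiableAt ℝ (f a) x) (i : Fin 4) :
    pd i (fun y => ∑ a ∈ s, f a y) x = ∑ a ∈ s, pd i (f a) x := by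
  unfold pd
  rw [fderiv_fun_sum hf]
  simp

theorem jet_contDiffAt_pd {n m : WithTop ℕ∞} {f : E4 → ℝ} {x : E4} (hf : ContDiffAt ℝ n f x)
    (h : m + 1 ≤ n) (i : Fin 4) : ContDiffAt ℝ m (pd i f) x :=
  (hf.fderiv_right h).clm_apply contDiffAt_const

/-- Second order jets. -/
structure HasJet (f : E4 → ℝ) (y : E4) (c : ℝ) (d : Fin 4 → ℝ) (h : Fin 4 → Fin 4 → ℝ) :
    Prop where
  smooth : ContDiffAt ℝ 2 f y
  val : f y = c
  grad : ∀ i, pd i f y = d i
  hess : ∀ i j, pd i (pd j f) y = h i j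

theorem HasJet.diff {f : E4 → ℝ} {y : E4} {c : ℝ} {d : Fin 4 → ℝ} {h : Fin 4 → Fin 4 → ℝ}
    (H : HasJet f y c d h) : DifferentiableAt ℝ f y :=
  H.smooth.differentiableAt (by norm_num)

theorem HasJet.eventually_diff {f : E4 → ℝ} {y : E4} {c : ℝ} {d : Fin 4 → ℝ}
    {h : Fin 4 → Fin 4 → ℝ} (H : HasJet f y c d h) : ∀ᶠ z in 𝓝 y, DifferentiableAt ℝ f z := by
  filter_upwards [H.smooth.eventually (by norm_num)] with z hz
  exact hz.differentiableAt (by norm_num)

theorem HasJet.diff_pd {f : E4 → ℝ} {y : E4} {c : ℝ} {d : Fin 4 → ℝ} {h : Fin 4 → Fin 4 → ℝ}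
    (H : HasJet f y c d h) (i : Fin 4) : DifferentiableAt ℝ (pd i f) y :=
  (jet_contDiffAt_pd (m := 1) H.smooth (by norm_num) i).differentiableAt (by norm_num)

theorem HasJet.congr {f g : E4 → ℝ} {y : E4} {c : ℝ} {d : Fin 4 → ℝ} {h : Fin 4 → Fin 4 → ℝ}
    (H : HasJet f y c d h) (hfg : g =ᶠ[𝓝 y] f) : HasJet g y c d h where
  smooth := H.smooth.congr_of_eventuallyEq hfg
  val := by rw [hfg.self_of_nhds, H.val]
  grad i := by rw [jet_pd_congr_at hfg, H.grad]
  hess i j := by rw [jet_pd_congr_at (jet_pd_congr hfg j), H.hess]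

theorem HasJet.of_eq {f : E4 → ℝ} {y : E4} {c c' : ℝ} {d d' : Fin 4 → ℝ}
    {h h' : Fin 4 → Fin 4 → ℝ} (H : HasJet f y c d h) (hc : c = c') (hd : ∀ i, d i = d' i)
    (hh : ∀ i j, h i j = h' i j) : HasJet f y c' d' h' where
  smooth := H.smooth
  val := by rw [H.val, hc]
  grad i := by rw [H.grad, hd]
  hess i j := by rw [H.hess, hh]

theorem hasJet_const (c : ℝ) (y : E4) : HasJet (fun _ => c) y c (fun _ => 0) (fun _ _ => 0) where
  smooth := contDiffAt_const
  val := rfl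
  grad i := jet_pd_const c i y
  hess i j := by
    have : pd j (fun _ : E4 => c) = fun _ => 0 := funext fun x => jet_pd_const c j x
    rw [this, jet_pd_const]

theorem HasJet.add {f g : E4 → ℝ} {y : E4} {c c' : ℝ} {d d' : Fin 4 → ℝ}
    {h h' : Fin 4 → Fin 4 → ℝ} (H : HasJet f y c d h) (H' : HasJet g y c' d' h') :
    HasJet (fun x => f x + g x) y (c + c') (fun i => d i + d' i) (fun i j => h i j + h' i j) where
  smooth := H.smooth.add H'.smooth
  val := by rw [H.val, H'.val]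
  grad i := by rw [jet_pd_add H.diff H'.diff, H.grad, H'.grad]
  hess i j := by
    have h1 : pd j (fun x => f x + g x) =ᶠ[𝓝 y] fun x => pd j f x + pd j g x := by
      filter_upwards [H.eventually_diff, H'.eventually_diff] with z hz hz'
      exact jet_pd_add hz hz' j
    rw [jet_pd_congr_at h1, jet_pd_add (H.diff_pd j) (H'.diff_pd j), H.hess, H'.hess]

theorem HasJet.mul {f g : E4 → ℝ} {y : E4} {c c' : ℝ} {d d' : Fin 4 → ℝ}
    {h h' : Fin 4 → Fin 4 → ℝ} (H : HasJet f y c d h) (H' : HasJet g y c' d' h') :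
    HasJet (fun x => f x * g x) y (c * c') (fun i => d i * c' + c * d' i)
      (fun i j => h i j * c' + d j * d' i + d i * d' j + c * h' i j) where
  smooth := H.smooth.mul H'.smooth
  val := by rw [H.val, H'.val]
  grad i := by rw [jet_pd_mul H.diff H'.diff, H.grad, H'.grad, H.val, H'.val]
  hess i j := by
    have h1 : pd j (fun x => f x * g x) =ᶠ[𝓝 y] fun x => pd j f x * g x + f x * pd j g x := by
      filter_upwards [H.eventually_diff, H'.eventually_diff] with z hz hz'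
      exact jet_pd_mul hz hz' j
    rw [jet_pd_congr_at h1, jet_pd_add ((H.diff_pd j).fun_mul H'.diff) (H.diff.fun_mul (H'.diff_pd j)),
      jet_pd_mul (H.diff_pd j) H'.diff, jet_pd_mul H.diff (H'.diff_pd j), H.hess, H'.hess,
      H.grad, H.grad, H'.grad, H'.grad, H.val, H'.val]
    ring

theorem HasJet.pow_two {f : E4 → ℝ} {y : E4} {c : ℝ} {d : Fin 4 → ℝ}
    {h : Fin 4 → Fin 4 → ℝ} (H : HasJet f y c d h) :
    HasJet (fun x => f x ^ 2) y (c ^ 2) (fun i => 2 * c * d i)
      (fun i j => 2 * d i * d j + 2 * c * h i j) := by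
  have h1 := H.mul H
  have h2 : (fun x => f x ^ 2) = fun x => f x * f x := funext fun x => by ring
  rw [h2]
  exact h1.of_eq (by ring) (fun i => by ring) (fun i j => by ring)

/-! ### Functions of some of the coordinates -/

/-- The projection to two coordinates. -/
noncomputable def jetProj (p q : Fin 4) : E4 →L[ℝ] ℝ × ℝ :=
  (EuclideanSpace.proj p : E4 →L[ℝ] ℝ).prod (EuclideanSpace.proj q : E4 →L[ℝ] ℝ)

theorem jetProj_apply (p q : Fin 4) (x : E4) : jetProj p q x = (x p, x q) := rfl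

theorem jet_bv_apply (i p : Fin 4) : bv i p = if i = p then (1 : ℝ) else 0 := by
  unfold bv
  rw [EuclideanSpace.single, PiLp.single_apply]
  simp only [eq_comm]

theorem jet_fderiv_fst {Φ : ℝ × ℝ → ℝ} {z : ℝ × ℝ} (h : DifferentiableAt ℝ Φ z) :
    fderiv ℝ Φ z (1, 0) = dT (fun a b => Φ (a, b)) z.1 z.2 := by
  unfold dT
  have h1 : HasDerivAt (fun s : ℝ => ((s, z.2) : ℝ × ℝ)) (1, 0) z.1 :=
    (hasDerivAt_id z.1).prodMk (hasDerivAt_const z.1 z.2)
  exact ((h.hasFDerivAt.comp_hasDerivAt_of_eq z.1 h1 rfl).deriv).symm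

theorem jet_fderiv_snd {Φ : ℝ × ℝ → ℝ} {z : ℝ × ℝ} (h : DifferentiableAt ℝ Φ z) :
    fderiv ℝ Φ z (0, 1) = dX (fun a b => Φ (a, b)) z.1 z.2 := by
  unfold dX
  have h1 : HasDerivAt (fun s : ℝ => ((z.1, s) : ℝ × ℝ)) (0, 1) z.2 :=
    (hasDerivAt_const z.2 z.1).prodMk (hasDerivAt_id z.2)
  exact ((h.hasFDerivAt.comp_hasDerivAt_of_eq z.2 h1 rfl).deriv).symm

theorem jet_pd_comp {φ : ℝ → ℝ → ℝ} {p q : Fin 4} (hpq : p ≠ q) {x : E4}
    (h : DifferentiableAt ℝ (fun z : ℝ × ℝ => φ z.1 z.2) (x p, x q)) (i : Fin 4) :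
    pd i (fun x => φ (x p) (x q)) x =
      if i = p then dT φ (x p) (x q) else if i = q then dX φ (x p) (x q) else 0 := by
  have h1 : (fun x : E4 => φ (x p) (x q)) = (fun z : ℝ × ℝ => φ z.1 z.2) ∘ jetProj p q := rfl
  unfold pd
  rw [h1, fderiv_comp x (by exact h) (jetProj p q).differentiableAt,
    ContinuousLinearMap.fderiv, ContinuousLinearMap.comp_apply, jetProj_apply, jetProj_apply,
    jet_bv_apply, jet_bv_apply]
  by_cases hp : i = p
  · subst hp
    rw [if_pos rfl, if_neg hpq, if_pos rfl]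
    exact jet_fderiv_fst h
  · rw [if_neg hp, if_neg hp]
    by_cases hq : i = q
    · subst hq
      rw [if_pos rfl, if_pos rfl]
      exact jet_fderiv_snd h
    · rw [if_neg hq, if_neg hq]
      exact map_zero _

theorem jet_contDiffAt_dT {m n : WithTop ℕ∞} {φ : ℝ → ℝ → ℝ} {z : ℝ × ℝ}
    (h : ContDiffAt ℝ n (fun z : ℝ × ℝ => φ z.1 z.2) z) (hmn : m + 1 ≤ n) (hn : n ≠ ∞) :
    ContDiffAt ℝ m (fun z : ℝ × ℝ => dT φ z.1 z.2) z ∧
      (fun z : ℝ × ℝ => dT φ z.1 z.2) =ᶠ[𝓝 z]
        fun w => fderiv ℝ (fun z : ℝ × ℝ => φ z.1 z.2) w (1, 0) := by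
  have h1 : (fun z : ℝ × ℝ => dT φ z.1 z.2) =ᶠ[𝓝 z]
      fun w => fderiv ℝ (fun z : ℝ × ℝ => φ z.1 z.2) w (1, 0) := by
    filter_upwards [h.eventually hn] with w hw
    exact (jet_fderiv_fst (hw.differentiableAt (by
      rintro rfl
      simp at hmn))).symm
  exact ⟨((h.fderiv_right hmn).clm_apply contDiffAt_const).congr_of_eventuallyEq h1, h1⟩

theorem jet_contDiffAt_dX {m n : WithTop ℕ∞} {φ : ℝ → ℝ → ℝ} {z : ℝ × ℝ}
    (h : ContDiffAt ℝ n (fun z : ℝ × ℝ => φ z.1 z.2) z) (hmn : m + 1 ≤ n) (hn : n ≠ ∞) :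
    ContDiffAt ℝ m (fun z : ℝ × ℝ => dX φ z.1 z.2) z ∧
      (fun z : ℝ × ℝ => dX φ z.1 z.2) =ᶠ[𝓝 z]
        fun w => fderiv ℝ (fun z : ℝ × ℝ => φ z.1 z.2) w (0, 1) := by
  have h1 : (fun z : ℝ × ℝ => dX φ z.1 z.2) =ᶠ[𝓝 z]
      fun w => fderiv ℝ (fun z : ℝ × ℝ => φ z.1 z.2) w (0, 1) := by
    filter_upwards [h.eventually hn] with w hw
    exact (jet_fderiv_snd (hw.differentiableAt (by
      rintro rfl
      simp at hmn))).symm
  exact ⟨((h.fderiv_right hmn).clm_apply contDiffAt_const).congr_of_eventuallyEq h1, h1⟩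

/-- Symmetry of the mixed derivatives. -/
theorem jet_dX_dT {φ : ℝ → ℝ → ℝ} {t x : ℝ}
    (h : ContDiffAt ℝ 2 (fun z : ℝ × ℝ => φ z.1 z.2) (t, x)) :
    dX (dT φ) t x = dT (dX φ) t x := by
  obtain ⟨c1, e1⟩ := jet_contDiffAt_dT (m := 1) h (by norm_num) (by simp)
  obtain ⟨c2, e2⟩ := jet_contDiffAt_dX (m := 1) h (by norm_num) (by simp)
  have hd : DifferentiableAt ℝ (fderiv ℝ (fun z : ℝ × ℝ => φ z.1 z.2)) (t, x) :=
    (h.fderiv_right (m := 1) (by norm_num)).differentiableAt (by norm_num)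
  have a1 := jet_fderiv_snd (c1.differentiableAt (by norm_num))
  have a2 := jet_fderiv_fst (c2.differentiableAt (by norm_num))
  have b1 : fderiv ℝ (fun z : ℝ × ℝ => dT φ z.1 z.2) (t, x) (0, 1) =
      fderiv ℝ (fderiv ℝ (fun z : ℝ × ℝ => φ z.1 z.2)) (t, x) (0, 1) (1, 0) := by
    rw [e1.fderiv_eq, fderiv_clm_apply hd (differentiableAt_const _)]
    simp
  have b2 : fderiv ℝ (fun z : ℝ × ℝ => dX φ z.1 z.2) (t, x) (1, 0) =
      fderiv ℝ (fderiv ℝ (fun z : ℝ × ℝ => φ z.1 z.2)) (t, x) (1, 0) (0, 1) := by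
    rw [e2.fderiv_eq, fderiv_clm_apply hd (differentiableAt_const _)]
    simp
  have hs : IsSymmSndFDerivAt ℝ (fun z : ℝ × ℝ => φ z.1 z.2) (t, x) :=
    h.isSymmSndFDerivAt (by simp)
  have hs' := hs.eq (0, 1) (1, 0)
  change dX (fun a b => dT φ a b) t x = dT (fun a b => dX φ a b) t x
  rw [← a1, ← a2, b1, b2, hs']

/-- Functions of two coordinates. -/
theorem hasJet_comp {φ : ℝ → ℝ → ℝ} {y : E4} (p q : Fin 4) (hpq : p ≠ q)
    (hφ : ContDiffAt ℝ 2 (fun z : ℝ × ℝ => φ z.1 z.2) (y p, y q)) :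
    HasJet (fun x => φ (x p) (x q)) y (φ (y p) (y q))
      (fun i => if i = p then dT φ (y p) (y q) else if i = q then dX φ (y p) (y q) else 0)
      (fun i j => if j = p then
          (if i = p then dT (dT φ) (y p) (y q) else if i = q then dT (dX φ) (y p) (y q) else 0)
        else if j = q then
          (if i = p then dT (dX φ) (y p) (y q) else if i = q then dX (dX φ) (y p) (y q) else 0)
        else 0) where
  smooth := by
    have h1 : (fun x : E4 => φ (x p) (x q)) = (fun z : ℝ × ℝ => φ z.1 z.2) ∘ jetProj p q := rfl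
    rw [h1]
    exact ContDiffAt.comp y (by exact hφ) (jetProj p q).contDiff.contDiffAt
  val := rfl
  grad i := jet_pd_comp hpq (hφ.differentiableAt (by norm_num)) i
  hess i j := by
    have hcont : Tendsto (fun x : E4 => ((x p, x q) : ℝ × ℝ)) (𝓝 y) (𝓝 (y p, y q)) :=
      (jetProj p q).continuous.continuousAt
    have h1 : pd j (fun x => φ (x p) (x q)) =ᶠ[𝓝 y] fun x =>
        if j = p then dT φ (x p) (x q) else if j = q then dX φ (x p) (x q) else 0 := by
      filter_upwards [hcont.eventually (hφ.eventually (by simp))] with x hx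
      exact jet_pd_comp hpq (hx.differentiableAt (by norm_num)) j
    rw [jet_pd_congr_at h1]
    obtain ⟨c1, -⟩ := jet_contDiffAt_dT (m := 1) hφ (by norm_num) (by simp)
    obtain ⟨c2, -⟩ := jet_contDiffAt_dX (m := 1) hφ (by norm_num) (by simp)
    by_cases hp : j = p
    · simp only [if_pos hp]
      rw [jet_pd_comp hpq (c1.differentiableAt (by norm_num)), jet_dX_dT hφ]
    · simp only [if_neg hp]
      by_cases hq : j = q
      · simp only [if_pos hq]
        rw [jet_pd_comp hpq (c2.differentiableAt (by norm_num))]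
      · simp only [if_neg hq]
        exact jet_pd_const 0 i y

/-- Functions of one coordinate. -/
theorem hasJet_comp1 {φ : ℝ → ℝ} {y : E4} (p : Fin 4) (hφ : ContDiffAt ℝ 2 φ (y p)) :
    HasJet (fun x => φ (x p)) y (φ (y p)) (fun i => if i = p then deriv φ (y p) else 0)
      (fun i j => if j = p then (if i = p then deriv (deriv φ) (y p) else 0) else 0) := by
  have hne : ∀ p : Fin 4, p ≠ p + 1 := by decide
  obtain ⟨q, hq⟩ : ∃ q : Fin 4, p ≠ q := ⟨p + 1, hne p⟩
  have h1 := hasJet_comp (φ := fun s _ => φ s) (y := y) p q hq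
    (ContDiffAt.comp (y p, y q) (by exact hφ) contDiffAt_fst)
  have e1 : dT (fun s _ => φ s) = fun s _ => deriv φ s := rfl
  have e2 : dX (fun s _ => φ s) = fun _ _ => 0 := by
    funext s t
    unfold dX
    simp
  have e3 : dT (fun s _ => deriv φ s) = fun s _ => deriv (deriv φ) s := rfl
  have e4 : dT (fun _ _ => (0 : ℝ)) = fun _ _ => 0 := by
    funext s t
    unfold dT
    simp
  have e5 : dX (fun _ _ => (0 : ℝ)) = fun _ _ => 0 := by
    funext s t
    unfold dX
    simp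
  rw [e1, e2, e3, e4, e5] at h1
  refine h1.of_eq rfl (fun i => ?_) (fun i j => ?_)
  · simp
  · simp

/-! ### The inverse matrix -/

theorem jet_contDiffAt_det {n : WithTop ℕ∞} {M : E4 → Matrix (Fin 4) (Fin 4) ℝ} {y : E4}
    (hM : ∀ i j, ContDiffAt ℝ n (fun x => M x i j) y) : ContDiffAt ℝ n (fun x => (M x).det) y := by
  have : (fun x => (M x).det) = fun x => ∑ σ : Equiv.Perm (Fin 4),
      ((Equiv.Perm.sign σ : ℤ) : ℝ) * ∏ i, M x (σ i) i := by
    funext x
    rw [Matrix.det_apply']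
  rw [this]
  apply ContDiffAt.sum
  intro σ _
  exact contDiffAt_const.mul (contDiffAt_prod fun i _ => hM _ _)

theorem jet_contDiffAt_inv {n : WithTop ℕ∞} {M : E4 → Matrix (Fin 4) (Fin 4) ℝ} {y : E4}
    (hM : ∀ i j, ContDiffAt ℝ n (fun x => M x i j) y) (hdet : (M y).det ≠ 0) (k l : Fin 4) :
    ContDiffAt ℝ n (fun x => (M x)⁻¹ k l) y := by
  have : (fun x => (M x)⁻¹ k l) = fun x => ((M x).det)⁻¹ *
      ((M x).updateRow l (Pi.single k 1)).det := by
    funext x
    rw [Matrix.inv_def, Matrix.smul_apply, Matrix.adjugate_apply, Ring.inverse_eq_inv', smul_eq_mul]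
  rw [this]
  refine ((jet_contDiffAt_det hM).inv hdet).mul (jet_contDiffAt_det fun i j => ?_)
  by_cases h : i = l
  · subst h
    simp only [Matrix.updateRow_self]
    exact contDiffAt_const
  · simp only [Matrix.updateRow_ne h]
    exact hM i j

theorem jet_pd_inv {M : E4 → Matrix (Fin 4) (Fin 4) ℝ} {y : E4}
    (hM : ∀ i j, ContDiffAt ℝ 1 (fun x => M x i j) y) (hdet : (M y).det ≠ 0) (m k l : Fin 4) :
    pd m (fun x => (M x)⁻¹ k l) y =
      -∑ p, ∑ q, (M y)⁻¹ k p * pd m (fun x => M x p q) y * (M y)⁻¹ q l := by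
  have hdM : ∀ i j, DifferentiableAt ℝ (fun x => M x i j) y := fun i j =>
    (hM i j).differentiableAt (by norm_num)
  have hdI : ∀ i j, DifferentiableAt ℝ (fun x => (M x)⁻¹ i j) y := fun i j =>
    (jet_contDiffAt_inv hM hdet i j).differentiableAt (by norm_num)
  have hne : ∀ᶠ x in 𝓝 y, (M x).det ≠ 0 :=
    (jet_contDiffAt_det hM).continuousAt.eventually_ne hdet
  set A' : Matrix (Fin 4) (Fin 4) ℝ := Matrix.of fun k l => pd m (fun x => (M x)⁻¹ k l) y with hA'
  set M' : Matrix (Fin 4) (Fin 4) ℝ := Matrix.of fun k l => pd m (fun x => M x k l) y with hM'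
  have hkey : A' * M y + (M y)⁻¹ * M' = 0 := by
    ext a b
    have e1 : (fun x => ∑ c, (M x)⁻¹ a c * M x c b) =ᶠ[𝓝 y]
        fun _ => (1 : Matrix (Fin 4) (Fin 4) ℝ) a b := by
      filter_upwards [hne] with x hx
      rw [← Matrix.mul_apply, Matrix.nonsing_inv_mul _ (isUnit_iff_ne_zero.mpr hx)]
    have e2 := jet_pd_congr_at e1 m
    rw [jet_pd_const, jet_pd_sum Finset.univ (fun c _ => (hdI a c).fun_mul (hdM c b))] at e2
    simp only [fun c => jet_pd_mul (hdI a c) (hdM c b) m] at e2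
    rw [Finset.sum_add_distrib] at e2
    rw [Matrix.add_apply, Matrix.mul_apply, Matrix.mul_apply, Matrix.zero_apply]
    exact e2
  have hu : IsUnit (M y).det := isUnit_iff_ne_zero.mpr hdet
  have hA : A' = -((M y)⁻¹ * M' * (M y)⁻¹) := by
    have h1 : A' * M y = -((M y)⁻¹ * M') := eq_neg_of_add_eq_zero_left hkey
    calc A' = A' * (M y * (M y)⁻¹) := by rw [Matrix.mul_nonsing_inv _ hu, mul_one]
      _ = (A' * M y) * (M y)⁻¹ := by rw [Matrix.mul_assoc]
      _ = -((M y)⁻¹ * M' * (M y)⁻¹) := by rw [h1, Matrix.neg_mul]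
  have h2 : A' k l = -((M y)⁻¹ * M' * (M y)⁻¹) k l := by rw [hA]; rfl
  have h3 : A' k l = pd m (fun x => (M x)⁻¹ k l) y := rfl
  rw [← h3, h2, Matrix.mul_apply]
  congr 1
  rw [Finset.sum_comm]
  refine Finset.sum_congr rfl fun q _ => ?_
  rw [Matrix.mul_apply, Finset.sum_mul]
  rfl

/-! ### The Ricci tensor from the jets -/

/-- The Koszul expression `(∂_i g_lj + ∂_j g_li - ∂_l g_ij) / 2`. -/
noncomputable def KosF (D : Fin 4 → Fin 4 → Fin 4 → ℝ) (l i j : Fin 4) : ℝ :=
  (1 / 2) * (D i l j + D j l i - D l i j)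

/-- The derivative of `Γ^k_ij` in the direction `m`. -/
noncomputable def dGamF (I : Matrix (Fin 4) (Fin 4) ℝ) (D : Fin 4 → Fin 4 → Fin 4 → ℝ)
    (S : Fin 4 → Fin 4 → Fin 4 → Fin 4 → ℝ) (T : Fin 4 → Fin 4 → Fin 4 → ℝ)
    (m k i j : Fin 4) : ℝ :=
  ∑ p, I k p * ((1 / 2) * (S m i p j + S m j p i - S m p i j) - ∑ q, D m p q * T q i j)

/-- The Ricci tensor. -/
noncomputable def RicF (I : Matrix (Fin 4) (Fin 4) ℝ) (D : Fin 4 → Fin 4 → Fin 4 → ℝ)
    (S : Fin 4 → Fin 4 → Fin 4 → Fin 4 → ℝ) (T : Fin 4 → Fin 4 → Fin 4 → ℝ)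
    (i j : Fin 4) : ℝ :=
  ∑ k, (dGamF I D S T k k i j - dGamF I D S T j k i k) +
    ∑ k, ∑ l, (T k k l * T l i j - T k j l * T l i k)

/-- The Ricci tensor at a point is a function of the jets. `G`, `D`, `S` are the values, the first
and the second derivatives of the coefficients, `I` is the inverse of `G` and `T` the table of the
Christoffel symbols. -/
theorem ric_of_jets {g : Met} {y : E4} {G I : Matrix (Fin 4) (Fin 4) ℝ}
    {D : Fin 4 → Fin 4 → Fin 4 → ℝ} {S : Fin 4 → Fin 4 → Fin 4 → Fin 4 → ℝ}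
    {T : Fin 4 → Fin 4 → Fin 4 → ℝ}
    (hj : ∀ i j, HasJet (fun x => g x i j) y (G i j) (fun m => D m i j) (fun m n => S m n i j))
    (hI : I * G = 1) (hT : ∀ k i j, T k i j = ∑ l, I k l * KosF D l i j) (i j : Fin 4) :
    ric g i j y = RicF I D S T i j := by
  have hgG : g y = G := by
    ext a b
    exact (hj a b).val
  have hdet : (g y).det ≠ 0 := by
    rw [hgG]
    intro h
    have := congrArg Matrix.det hI
    rw [Matrix.det_mul, h, mul_zero, Matrix.det_one] at this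
    exact one_ne_zero this.symm
  have hinv : (g y)⁻¹ = I := by
    rw [hgG]
    exact Matrix.inv_eq_left_inv hI
  have hsm : ∀ a b, ContDiffAt ℝ 1 (fun x => g x a b) y := fun a b =>
    (hj a b).smooth.of_le (by norm_num)
  have hdI : ∀ a b, DifferentiableAt ℝ (fun x => (g x)⁻¹ a b) y := fun a b =>
    (jet_contDiffAt_inv hsm hdet a b).differentiableAt (by norm_num)
  have hK : ∀ l a b, DifferentiableAt ℝ (fun x => pd a (fun y => g y l b) x +
      pd b (fun y => g y l a) x - pd l (fun y => g y a b) x) y := fun l a b =>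
    (((hj l b).diff_pd a).fun_add ((hj l a).diff_pd b)).fun_sub ((hj a b).diff_pd l)
  -- the Christoffel symbols
  have hchr : ∀ k a b, chr g k a b y = T k a b := by
    intro k a b
    rw [hT]
    unfold chr KosF
    rw [hinv, Finset.mul_sum]
    refine Finset.sum_congr rfl fun l _ => ?_
    rw [(hj l b).grad, (hj l a).grad, (hj a b).grad]
    ring
  -- their derivatives
  have hdchr : ∀ m k a b, pd m (chr g k a b) y = dGamF I D S T m k a b := by
    intro m k a b
    have h1 : pd m (chr g k a b) y = (1 / 2) * ∑ l,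
        (pd m (fun x => (g x)⁻¹ k l) y * (D a l b + D b l a - D l a b) +
          I k l * (S m a l b + S m b l a - S m l a b)) := by
      have e0 : chr g k a b = fun x => (1 / 2) * ∑ l, (g x)⁻¹ k l *
          (pd a (fun y => g y l b) x + pd b (fun y => g y l a) x -
            pd l (fun y => g y a b) x) := rfl
      rw [e0, jet_pd_const_mul _ (DifferentiableAt.fun_sum fun l _ => (hdI k l).fun_mul (hK l a b)),
        jet_pd_sum Finset.univ (fun l _ => (hdI k l).fun_mul (hK l a b))]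
      congr 1
      refine Finset.sum_congr rfl fun l _ => ?_
      rw [jet_pd_mul (hdI k l) (hK l a b), jet_pd_sub (((hj l b).diff_pd a).fun_add
        ((hj l a).diff_pd b)) ((hj a b).diff_pd l), jet_pd_add ((hj l b).diff_pd a)
        ((hj l a).diff_pd b), (hj l b).hess, (hj l a).hess, (hj a b).hess, (hj l b).grad,
        (hj l a).grad, (hj a b).grad, hinv]
    rw [h1]
    simp only [fun l => jet_pd_inv hsm hdet m k l, hinv, fun p q => (hj p q).grad m]
    unfold dGamF
    simp only [hT, KosF]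
    have e1 : ∀ l, (-∑ p, ∑ q, I k p * D m p q * I q l) * (D a l b + D b l a - D l a b) =
        -∑ p, ∑ q, I k p * D m p q * I q l * (D a l b + D b l a - D l a b) := by
      intro l
      rw [neg_mul, Finset.sum_mul]
      simp only [Finset.sum_mul]
    simp only [e1]
    rw [Finset.sum_add_distrib, Finset.sum_neg_distrib, mul_add]
    have e2 : (1 / 2 : ℝ) * -∑ l, ∑ p, ∑ q,
        I k p * D m p q * I q l * (D a l b + D b l a - D l a b) =
        -∑ p, I k p * ∑ q, D m p q * ∑ l, I q l * ((1 / 2) * (D a l b + D b l a - D l a b)) := by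
      rw [mul_neg, Finset.sum_comm]
      congr 1
      rw [Finset.mul_sum]
      refine Finset.sum_congr rfl fun p _ => ?_
      rw [Finset.sum_comm, Finset.mul_sum, Finset.mul_sum]
      refine Finset.sum_congr rfl fun q _ => ?_
      rw [Finset.mul_sum, Finset.mul_sum, Finset.mul_sum]
      refine Finset.sum_congr rfl fun l _ => ?_
      ring
    rw [e2, Finset.mul_sum, ← Finset.sum_neg_distrib, ← Finset.sum_add_distrib]
    refine Finset.sum_congr rfl fun p _ => ?_
    ring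
  unfold ric RicF
  simp only [hchr, hdchr]

end Pool.Agent.W_MP_654ec6
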