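import Pool.Agent.W_MP_654ec6.A.Jet

/-!
# The Kaluza-Klein metric is a good metric
-/

open scoped ContDiff Topology
open Filter

namespace Pool.Agent.W_MP_654ec6

theorem goodMet_kk {E P : ℝ → ℝ} {N H : ℝ → ℝ → ℝ} {a : ℝ → ℝ} {U : Set (ℝ × ℝ)}
    (hE : ∀ p ∈ U, ContDiffAt ℝ ∞ E p.1) (hP : ∀ p ∈ U, ContDiffAt ℝ ∞ P p.1)
    (ha : ∀ p ∈ U, ContDiffAt ℝ ∞ a p.2)
    (hN : ContDiffOn ℝ ∞ (fun p : ℝ × ℝ => N p.1 p.2) U)
    (hH : ContDiffOn ℝ ∞ (fun p : ℝ × ℝ => H p.1 p.2) U)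
    (hE0 : ∀ p ∈ U, 0 < E p.1) (hP0 : ∀ p ∈ U, P p.1 ≠ 0)
    (hN0 : ∀ p ∈ U, N p.1 p.2 ≠ 0) (hH0 : ∀ p ∈ U, H p.1 p.2 ≠ 0) :
    GoodMet (kkMet E P N H a) {y : E4 | (y 0, y 1) ∈ U} := by
  have hL : ContDiff ℝ ∞ (fun x : E4 => ((x 0, x 1) : ℝ × ℝ)) := (jetProj 0 1).contDiff
  have h0 : ContDiff ℝ ∞ (fun x : E4 => x 0) := contDiff_fst.comp hL
  have h1 : ContDiff ℝ ∞ (fun x : E4 => x 1) := contDiff_snd.comp hL
  have cE : ContDiffOn ℝ ∞ (fun x : E4 => E (x 0)) {y : E4 | (y 0, y 1) ∈ U} := fun x hx =>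
    ((hE _ hx).comp x h0.contDiffAt).contDiffWithinAt
  have cP : ContDiffOn ℝ ∞ (fun x : E4 => P (x 0)) {y : E4 | (y 0, y 1) ∈ U} := fun x hx =>
    ((hP _ hx).comp x h0.contDiffAt).contDiffWithinAt
  have ca : ContDiffOn ℝ ∞ (fun x : E4 => a (x 1)) {y : E4 | (y 0, y 1) ∈ U} := fun x hx =>
    ((ha _ hx).comp x h1.contDiffAt).contDiffWithinAt
  have cN : ContDiffOn ℝ ∞ (fun x : E4 => N (x 0) (x 1)) {y : E4 | (y 0, y 1) ∈ U} :=
    hN.comp hL.contDiffOn fun x hx => hx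
  have cH : ContDiffOn ℝ ∞ (fun x : E4 => H (x 0) (x 1)) {y : E4 | (y 0, y 1) ∈ U} :=
    hH.comp hL.contDiffOn fun x hx => hx
  have c0 : ContDiffOn ℝ ∞ (fun _ : E4 => (0 : ℝ)) {y : E4 | (y 0, y 1) ∈ U} := contDiffOn_const
  refine ⟨?_, ?_, ?_⟩
  · intro i j
    fin_cases i <;> fin_cases j <;> first
      | exact c0
      | exact cE
      | exact cP.pow 2
      | exact (cN.pow 2).add ((cH.pow 2).mul (ca.pow 2))
      | exact (cH.pow 2).mul ca
      | exact cH.pow 2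
  · intro x _ i j
    fin_cases i <;> fin_cases j <;> rfl
  · intro x hx v hv
    have e : qf (kkMet E P N H a x) v = E (x 0) * v 0 ^ 2 + (P (x 0) * v 1) ^ 2 +
        (N (x 0) (x 1) * v 2) ^ 2 + (H (x 0) (x 1) * (v 3 + a (x 1) * v 2)) ^ 2 := by
      simp [qf, kkMet, Fin.sum_univ_four]
      ring
    rw [e]
    have hE' := hE0 _ hx
    have hP' := hP0 _ hx
    have hN' := hN0 _ hx
    have hH' := hH0 _ hx
    simp only at hE' hP' hN' hH'
    have n0 : 0 ≤ E (x 0) * v 0 ^ 2 := mul_nonneg hE'.le (sq_nonneg _)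
    have n1 := sq_nonneg (P (x 0) * v 1)
    have n2 := sq_nonneg (N (x 0) (x 1) * v 2)
    have n3 := sq_nonneg (H (x 0) (x 1) * (v 3 + a (x 1) * v 2))
    by_contra hcon
    have z0 : E (x 0) * v 0 ^ 2 = 0 := by linarith
    have z1 : (P (x 0) * v 1) ^ 2 = 0 := by linarith
    have z2 : (N (x 0) (x 1) * v 2) ^ 2 = 0 := by linarith
    have z3 : (H (x 0) (x 1) * (v 3 + a (x 1) * v 2)) ^ 2 = 0 := by linarith
    have w0 : v 0 = 0 := by
      rcases mul_eq_zero.mp z0 with h | h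
      · exact absurd h hE'.ne'
      · exact pow_eq_zero_iff (two_ne_zero) |>.mp h
    have w1 : v 1 = 0 := by
      rcases mul_eq_zero.mp (pow_eq_zero_iff (two_ne_zero) |>.mp z1) with h | h
      · exact absurd h hP'
      · exact h
    have w2 : v 2 = 0 := by
      rcases mul_eq_zero.mp (pow_eq_zero_iff (two_ne_zero) |>.mp z2) with h | h
      · exact absurd h hN'
      · exact h
    have w3 : v 3 = 0 := by
      rcases mul_eq_zero.mp (pow_eq_zero_iff (two_ne_zero) |>.mp z3) with h | h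
      · exact absurd h hH'
      · rw [w2] at h
        linarith
    apply hv
    ext i
    fin_cases i
    · exact w0
    · exact w1
    · exact w2
    · exact w3

end Pool.Agent.W_MP_654ec6
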