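import Pool.Agent.W_MP_654ec6.A.KKDef

/-!
# The jets of the entries of the Kaluza-Klein metric
-/

open scoped ContDiff Topology
open Filter

namespace Pool.Agent.W_MP_654ec6

/-- Derivatives of a function of the first coordinate. -/
def kkU (k : Fin 4) (u : ℝ) : Fin 4 → ℝ := fun i => if i = k then u else 0

/-- Second derivatives of a function of one coordinate. -/
def kkV (k : Fin 4) (u : ℝ) : Fin 4 → Fin 4 → ℝ :=
  fun i j => if j = k then (if i = k then u else 0) else 0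

/-- Derivatives of a function of the first two coordinates. -/
def kkU2 (u v : ℝ) : Fin 4 → ℝ := fun i => if i = 0 then u else if i = 1 then v else 0

/-- Second derivatives of a function of the first two coordinates. -/
def kkV2 (u v w : ℝ) : Fin 4 → Fin 4 → ℝ := fun i j =>
  if j = 0 then (if i = 0 then u else if i = 1 then v else 0)
  else if j = 1 then (if i = 0 then v else if i = 1 then w else 0) else 0

/-- Double case distinction. -/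
theorem kk_forall2 {P : Fin 4 → Fin 4 → Prop} (h00 : P 0 0) (h01 : P 0 1) (h02 : P 0 2)
    (h03 : P 0 3) (h10 : P 1 0) (h11 : P 1 1) (h12 : P 1 2) (h13 : P 1 3) (h20 : P 2 0)
    (h21 : P 2 1) (h22 : P 2 2) (h23 : P 2 3) (h30 : P 3 0) (h31 : P 3 1) (h32 : P 3 2)
    (h33 : P 3 3) (i j : Fin 4) : P i j :=
  kk_forall (P := fun i => P i j) (kk_forall h00 h01 h02 h03 j) (kk_forall h10 h11 h12 h13 j)
    (kk_forall h20 h21 h22 h23 j) (kk_forall h30 h31 h32 h33 j) i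

section

variable {y : E4} {fE fP fN fH fa : E4 → ℝ}
  {s e1 e2 p0 p1 p2 n0 nt nx ntt ntx nxx h0 ht hx htt htx hxx a0 a1 a2 : ℝ}

/-- The values of the derivative tensor. -/
theorem kk_jE (jE : HasJet fE y (s ^ 2) (kkU 0 e1) (kkV 0 e2)) :
    HasJet fE y (kkG s p0 n0 h0 a0 0 0) (fun m => kkD e1 p0 p1 n0 nt nx h0 ht hx a0 a1 m 0 0)
      (fun m n => kkS e2 p0 p1 p2 n0 nt nx ntt ntx nxx h0 ht hx htt htx hxx a0 a1 a2 m n 0 0) := by
  refine HasJet.of_eq jE rfl (kk_forall rfl rfl rfl rfl) ?_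
  exact kk_forall2 rfl rfl rfl rfl rfl rfl rfl rfl rfl rfl rfl rfl rfl rfl rfl rfl

theorem kk_z01 (jZ : HasJet fE y 0 (fun _ => 0) (fun _ _ => 0)) :
    HasJet fE y (kkG s p0 n0 h0 a0 0 1) (fun m => kkD e1 p0 p1 n0 nt nx h0 ht hx a0 a1 m 0 1)
      (fun m n => kkS e2 p0 p1 p2 n0 nt nx ntt ntx nxx h0 ht hx htt htx hxx a0 a1 a2 m n 0 1) := by
  refine HasJet.of_eq jZ rfl (kk_forall rfl rfl rfl rfl) ?_
  exact kk_forall2 rfl rfl rfl rfl rfl rfl rfl rfl rfl rfl rfl rfl rfl rfl rfl rfl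

theorem kk_z02 (jZ : HasJet fE y 0 (fun _ => 0) (fun _ _ => 0)) :
    HasJet fE y (kkG s p0 n0 h0 a0 0 2) (fun m => kkD e1 p0 p1 n0 nt nx h0 ht hx a0 a1 m 0 2)
      (fun m n => kkS e2 p0 p1 p2 n0 nt nx ntt ntx nxx h0 ht hx htt htx hxx a0 a1 a2 m n 0 2) := by
  refine HasJet.of_eq jZ rfl (kk_forall rfl rfl rfl rfl) ?_
  exact kk_forall2 rfl rfl rfl rfl rfl rfl rfl rfl rfl rfl rfl rfl rfl rfl rfl rfl

theorem kk_z03 (jZ : HasJet fE y 0 (fun _ => 0) (fun _ _ => 0)) :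
    HasJet fE y (kkG s p0 n0 h0 a0 0 3) (fun m => kkD e1 p0 p1 n0 nt nx h0 ht hx a0 a1 m 0 3)
      (fun m n => kkS e2 p0 p1 p2 n0 nt nx ntt ntx nxx h0 ht hx htt htx hxx a0 a1 a2 m n 0 3) := by
  refine HasJet.of_eq jZ rfl (kk_forall rfl rfl rfl rfl) ?_
  exact kk_forall2 rfl rfl rfl rfl rfl rfl rfl rfl rfl rfl rfl rfl rfl rfl rfl rfl

theorem kk_z10 (jZ : HasJet fE y 0 (fun _ => 0) (fun _ _ => 0)) :
    HasJet fE y (kkG s p0 n0 h0 a0 1 0) (fun m => kkD e1 p0 p1 n0 nt nx h0 ht hx a0 a1 m 1 0)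
      (fun m n => kkS e2 p0 p1 p2 n0 nt nx ntt ntx nxx h0 ht hx htt htx hxx a0 a1 a2 m n 1 0) := by
  refine HasJet.of_eq jZ rfl (kk_forall rfl rfl rfl rfl) ?_
  exact kk_forall2 rfl rfl rfl rfl rfl rfl rfl rfl rfl rfl rfl rfl rfl rfl rfl rfl

theorem kk_z12 (jZ : HasJet fE y 0 (fun _ => 0) (fun _ _ => 0)) :
    HasJet fE y (kkG s p0 n0 h0 a0 1 2) (fun m => kkD e1 p0 p1 n0 nt nx h0 ht hx a0 a1 m 1 2)
      (fun m n => kkS e2 p0 p1 p2 n0 nt nx ntt ntx nxx h0 ht hx htt htx hxx a0 a1 a2 m n 1 2) := by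
  refine HasJet.of_eq jZ rfl (kk_forall rfl rfl rfl rfl) ?_
  exact kk_forall2 rfl rfl rfl rfl rfl rfl rfl rfl rfl rfl rfl rfl rfl rfl rfl rfl

theorem kk_z13 (jZ : HasJet fE y 0 (fun _ => 0) (fun _ _ => 0)) :
    HasJet fE y (kkG s p0 n0 h0 a0 1 3) (fun m => kkD e1 p0 p1 n0 nt nx h0 ht hx a0 a1 m 1 3)
      (fun m n => kkS e2 p0 p1 p2 n0 nt nx ntt ntx nxx h0 ht hx htt htx hxx a0 a1 a2 m n 1 3) := by
  refine HasJet.of_eq jZ rfl (kk_forall rfl rfl rfl rfl) ?_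
  exact kk_forall2 rfl rfl rfl rfl rfl rfl rfl rfl rfl rfl rfl rfl rfl rfl rfl rfl

theorem kk_z20 (jZ : HasJet fE y 0 (fun _ => 0) (fun _ _ => 0)) :
    HasJet fE y (kkG s p0 n0 h0 a0 2 0) (fun m => kkD e1 p0 p1 n0 nt nx h0 ht hx a0 a1 m 2 0)
      (fun m n => kkS e2 p0 p1 p2 n0 nt nx ntt ntx nxx h0 ht hx htt htx hxx a0 a1 a2 m n 2 0) := by
  refine HasJet.of_eq jZ rfl (kk_forall rfl rfl rfl rfl) ?_
  exact kk_forall2 rfl rfl rfl rfl rfl rfl rfl rfl rfl rfl rfl rfl rfl rfl rfl rfl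

theorem kk_z21 (jZ : HasJet fE y 0 (fun _ => 0) (fun _ _ => 0)) :
    HasJet fE y (kkG s p0 n0 h0 a0 2 1) (fun m => kkD e1 p0 p1 n0 nt nx h0 ht hx a0 a1 m 2 1)
      (fun m n => kkS e2 p0 p1 p2 n0 nt nx ntt ntx nxx h0 ht hx htt htx hxx a0 a1 a2 m n 2 1) := by
  refine HasJet.of_eq jZ rfl (kk_forall rfl rfl rfl rfl) ?_
  exact kk_forall2 rfl rfl rfl rfl rfl rfl rfl rfl rfl rfl rfl rfl rfl rfl rfl rfl

theorem kk_z30 (jZ : HasJet fE y 0 (fun _ => 0) (fun _ _ => 0)) :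
    HasJet fE y (kkG s p0 n0 h0 a0 3 0) (fun m => kkD e1 p0 p1 n0 nt nx h0 ht hx a0 a1 m 3 0)
      (fun m n => kkS e2 p0 p1 p2 n0 nt nx ntt ntx nxx h0 ht hx htt htx hxx a0 a1 a2 m n 3 0) := by
  refine HasJet.of_eq jZ rfl (kk_forall rfl rfl rfl rfl) ?_
  exact kk_forall2 rfl rfl rfl rfl rfl rfl rfl rfl rfl rfl rfl rfl rfl rfl rfl rfl

theorem kk_z31 (jZ : HasJet fE y 0 (fun _ => 0) (fun _ _ => 0)) :
    HasJet fE y (kkG s p0 n0 h0 a0 3 1) (fun m => kkD e1 p0 p1 n0 nt nx h0 ht hx a0 a1 m 3 1)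
      (fun m n => kkS e2 p0 p1 p2 n0 nt nx ntt ntx nxx h0 ht hx htt htx hxx a0 a1 a2 m n 3 1) := by
  refine HasJet.of_eq jZ rfl (kk_forall rfl rfl rfl rfl) ?_
  exact kk_forall2 rfl rfl rfl rfl rfl rfl rfl rfl rfl rfl rfl rfl rfl rfl rfl rfl

theorem kk_j11 (jP : HasJet fP y p0 (kkU 0 p1) (kkV 0 p2)) :
    HasJet (fun x => fP x ^ 2) y (kkG s p0 n0 h0 a0 1 1)
      (fun m => kkD e1 p0 p1 n0 nt nx h0 ht hx a0 a1 m 1 1)
      (fun m n => kkS e2 p0 p1 p2 n0 nt nx ntt ntx nxx h0 ht hx htt htx hxx a0 a1 a2 m n 1 1) := by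
  refine HasJet.of_eq jP.pow_two rfl (fun m => ?_) (fun m n => ?_)
  · fin_cases m <;> simp [kkD, kkU]
  · fin_cases m <;> fin_cases n <;> simp [kkS, kkZ, kkU, kkV] <;> ring

theorem kk_j33 (jH : HasJet fH y h0 (kkU2 ht hx) (kkV2 htt htx hxx)) :
    HasJet (fun x => fH x ^ 2) y (kkG s p0 n0 h0 a0 3 3)
      (fun m => kkD e1 p0 p1 n0 nt nx h0 ht hx a0 a1 m 3 3)
      (fun m n => kkS e2 p0 p1 p2 n0 nt nx ntt ntx nxx h0 ht hx htt htx hxx a0 a1 a2 m n 3 3) := by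
  refine HasJet.of_eq jH.pow_two rfl (fun m => ?_) (fun m n => ?_)
  · fin_cases m <;> simp [kkD, kkU2]
  · fin_cases m <;> fin_cases n <;> simp [kkS, kkZ, kkU2, kkV2] <;> ring

theorem kk_j23a (jH : HasJet fH y h0 (kkU2 ht hx) (kkV2 htt htx hxx))
    (ja : HasJet fa y a0 (kkU 1 a1) (kkV 1 a2)) :
    HasJet (fun x => fH x ^ 2 * fa x) y (kkG s p0 n0 h0 a0 2 3)
      (fun m => kkD e1 p0 p1 n0 nt nx h0 ht hx a0 a1 m 2 3)
      (fun m n => kkS e2 p0 p1 p2 n0 nt nx ntt ntx nxx h0 ht hx htt htx hxx a0 a1 a2 m n 2 3) := by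
  refine HasJet.of_eq (jH.pow_two.mul ja) rfl (fun m => ?_) (fun m n => ?_)
  · fin_cases m <;>
      simp [kkD, kkU2, kkU, -mul_eq_mul_right_iff, -mul_eq_mul_left_iff] <;> ring
  · fin_cases m <;> fin_cases n <;>
      simp [kkS, kkZ, kkU2, kkV2, kkU, kkV, -mul_eq_mul_right_iff, -mul_eq_mul_left_iff] <;> ring

theorem kk_j23b (jH : HasJet fH y h0 (kkU2 ht hx) (kkV2 htt htx hxx))
    (ja : HasJet fa y a0 (kkU 1 a1) (kkV 1 a2)) :
    HasJet (fun x => fH x ^ 2 * fa x) y (kkG s p0 n0 h0 a0 3 2)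
      (fun m => kkD e1 p0 p1 n0 nt nx h0 ht hx a0 a1 m 3 2)
      (fun m n => kkS e2 p0 p1 p2 n0 nt nx ntt ntx nxx h0 ht hx htt htx hxx a0 a1 a2 m n 3 2) := by
  refine HasJet.of_eq (kk_j23a (s := s) (e1 := e1) (e2 := e2) (p0 := p0) (p1 := p1) (p2 := p2)
    (n0 := n0) (nt := nt) (nx := nx) (ntt := ntt) (ntx := ntx) (nxx := nxx) jH ja) rfl
    (kk_forall rfl rfl rfl rfl) ?_
  exact kk_forall2 rfl rfl rfl rfl rfl rfl rfl rfl rfl rfl rfl rfl rfl rfl rfl rfl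

theorem kk_j22 (jN : HasJet fN y n0 (kkU2 nt nx) (kkV2 ntt ntx nxx))
    (jH : HasJet fH y h0 (kkU2 ht hx) (kkV2 htt htx hxx))
    (ja : HasJet fa y a0 (kkU 1 a1) (kkV 1 a2)) :
    HasJet (fun x => fN x ^ 2 + fH x ^ 2 * fa x ^ 2) y (kkG s p0 n0 h0 a0 2 2)
      (fun m => kkD e1 p0 p1 n0 nt nx h0 ht hx a0 a1 m 2 2)
      (fun m n => kkS e2 p0 p1 p2 n0 nt nx ntt ntx nxx h0 ht hx htt htx hxx a0 a1 a2 m n 2 2) := by
  refine HasJet.of_eq (jN.pow_two.add (jH.pow_two.mul ja.pow_two)) rfl (fun m => ?_)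
    (fun m n => ?_)
  · fin_cases m <;>
      simp [kkD, kkU2, kkU, -mul_eq_mul_right_iff, -mul_eq_mul_left_iff] <;> ring
  · fin_cases m <;> fin_cases n <;>
      simp [kkS, kkZ, kkU2, kkV2, kkU, kkV, -mul_eq_mul_right_iff, -mul_eq_mul_left_iff] <;> ring

end

end Pool.Agent.W_MP_654ec6
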