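import Pool.Agent.W_MP_654ec6.A.KKAlg
import Pool.Agent.W_MP_654ec6.A.KKGood
import Pool.Agent.W_MP_654ec6.A.KKJet

/-!
# Task A6: the Ricci tensor of `E dt² + P² dx² + N² dα² + H² (dβ + a dα)²`

`E, P` are functions of `t`, `a` of `x`, `N, H` of `(t, x)`; coordinates `(t, x, α, β)`. Let a dot
denote the derivative `E^{-1/2} ∂_t` (so `Ṗ = P'/√E`, `P̈ = P''/E - E' P'/(2 E²)`, and similarly for
`N`, `H`), an index `x` the derivative `∂_x`, and `F = a'/(P N)`. In the orthonormal frame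
`e0 = ∂_t/√E, e1 = ∂_x/P, e2 = (∂_α - a ∂_β)/N, e3 = ∂_β/H`:
`R00 = -P̈/P - N̈/N - Ḧ/H`,
`R01 = -(Ṅ_x - Ṗ N_x/P)/(P N) - (Ḣ_x - Ṗ H_x/P)/(P H)`,
`R11 = -P̈/P - (N_xx/P² + Ṗ Ṅ/P)/N - (H_xx/P² + Ṗ Ḣ/P)/H - H² F²/2`,
`R22 = -(N̈ + N_xx/P² + Ṗ Ṅ/P)/N - (Ṅ Ḣ + N_x H_x/P²)/(N H) - H² F²/2`,
`R33 = -(Ḧ + H_xx/P² + Ṗ Ḣ/P)/H - (Ṅ Ḣ + N_x H_x/P²)/(N H) + H² F²/2`,
`R23 = -(H³ F)_x/(2 H² P)`, the others vanish. (Checked numerically.)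
Here `(H³ F)_x = 3 H² H_x a'/(P N) + H³ (a'' N - a' N_x)/(P N²)`.
The dual coframe values of `v` are `w0 = √E v0, w1 = P v1, w2 = N v2, w3 = H (v3 + a v2)`.
To avoid square roots the theorem is stated with `s > 0`, `s² = E(t)`.
Method: the matrix is block diagonal; the inverse of the lower block is
`[[1/N², -a/N²], [-a/N², 1/H² + a²/N²]]`; compute all Christoffel symbols with `chr_unique`
(they are explicit in a neighbourhood), differentiate once more.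
-/

open scoped ContDiff Topology
open Filter

namespace Pool.Agent.W_MP_654ec6

theorem ricq_kk {E P : ℝ → ℝ} {N H : ℝ → ℝ → ℝ} {a : ℝ → ℝ} {y : E4}
    (hE : ContDiffAt ℝ ∞ E (y 0)) (hP : ContDiffAt ℝ ∞ P (y 0)) (ha : ContDiffAt ℝ ∞ a (y 1))
    (hN : ContDiffAt ℝ ∞ (fun p : ℝ × ℝ => N p.1 p.2) (y 0, y 1))
    (hH : ContDiffAt ℝ ∞ (fun p : ℝ × ℝ => H p.1 p.2) (y 0, y 1))
    {s e1 p0 p1 p2 n0 nt nx ntt ntx nxx h0 ht hx htt htx hxx a0 a1 a2 : ℝ}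
    (hs : 0 < s) (hsE : s ^ 2 = E (y 0)) (he1 : deriv E (y 0) = e1)
    (hp0 : P (y 0) = p0) (hp1 : deriv P (y 0) = p1) (hp2 : deriv (deriv P) (y 0) = p2)
    (hp00 : p0 ≠ 0) (hn00 : n0 ≠ 0) (hh00 : h0 ≠ 0)
    (ha0 : a (y 1) = a0) (ha1 : deriv a (y 1) = a1) (ha2 : deriv (deriv a) (y 1) = a2)
    (hn0 : N (y 0) (y 1) = n0) (hnt : dT N (y 0) (y 1) = nt) (hnx : dX N (y 0) (y 1) = nx)
    (hntt : dT (dT N) (y 0) (y 1) = ntt) (hntx : dT (dX N) (y 0) (y 1) = ntx)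
    (hnxx : dX (dX N) (y 0) (y 1) = nxx)
    (hh0 : H (y 0) (y 1) = h0) (hht : dT H (y 0) (y 1) = ht) (hhx : dX H (y 0) (y 1) = hx)
    (hhtt : dT (dT H) (y 0) (y 1) = htt) (hhtx : dT (dX H) (y 0) (y 1) = htx)
    (hhxx : dX (dX H) (y 0) (y 1) = hxx)
    {P1 P2 N1 N2 H1 H2 F R00 R01 R11 R22 R33 R23 : ℝ}
    (hP1 : P1 = p1 / s) (hP2 : P2 = p2 / s ^ 2 - e1 * p1 / (2 * s ^ 4))
    (hN1 : N1 = nt / s) (hN2 : N2 = ntt / s ^ 2 - e1 * nt / (2 * s ^ 4))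
    (hH1 : H1 = ht / s) (hH2 : H2 = htt / s ^ 2 - e1 * ht / (2 * s ^ 4))
    (hF : F = a1 / (p0 * n0))
    (hR00 : R00 = -P2 / p0 - N2 / n0 - H2 / h0)
    (hR01 : R01 = -(ntx / s - P1 * nx / p0) / (p0 * n0) - (htx / s - P1 * hx / p0) / (p0 * h0))
    (hR11 : R11 = -P2 / p0 - (nxx / p0 ^ 2 + P1 * N1 / p0) / n0 -
      (hxx / p0 ^ 2 + P1 * H1 / p0) / h0 - h0 ^ 2 * F ^ 2 / 2)
    (hR22 : R22 = -(N2 + nxx / p0 ^ 2 + P1 * N1 / p0) / n0 -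
      (N1 * H1 + nx * hx / p0 ^ 2) / (n0 * h0) - h0 ^ 2 * F ^ 2 / 2)
    (hR33 : R33 = -(H2 + hxx / p0 ^ 2 + P1 * H1 / p0) / h0 -
      (N1 * H1 + nx * hx / p0 ^ 2) / (n0 * h0) + h0 ^ 2 * F ^ 2 / 2)
    (hR23 : R23 = -(3 * h0 ^ 2 * hx * a1 / (p0 * n0) +
      h0 ^ 3 * (a2 * n0 - a1 * nx) / (p0 * n0 ^ 2)) / (2 * h0 ^ 2 * p0)) (v : E4) :
    ricq (kkMet E P N H a) y v =
      R00 * (s * v 0) ^ 2 + 2 * R01 * (s * v 0) * (p0 * v 1) + R11 * (p0 * v 1) ^ 2 +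
      R22 * (n0 * v 2) ^ 2 + R33 * (h0 * (v 3 + a0 * v 2)) ^ 2 +
      2 * R23 * (n0 * v 2) * (h0 * (v 3 + a0 * v 2)) := by
  have hle : (2 : WithTop ℕ∞) ≤ ∞ := WithTop.coe_le_coe.mpr le_top
  have jE : HasJet (fun x : E4 => E (x 0)) y _ _ _ := hasJet_comp1 0 (hE.of_le hle)
  have jP : HasJet (fun x : E4 => P (x 0)) y _ _ _ := hasJet_comp1 0 (hP.of_le hle)
  have ja : HasJet (fun x : E4 => a (x 1)) y _ _ _ := hasJet_comp1 1 (ha.of_le hle)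
  have jN : HasJet (fun x : E4 => N (x 0) (x 1)) y _ _ _ :=
    hasJet_comp 0 1 (by decide) (hN.of_le hle)
  have jH : HasJet (fun x : E4 => H (x 0) (x 1)) y _ _ _ :=
    hasJet_comp 0 1 (by decide) (hH.of_le hle)
  obtain ⟨e2, he2⟩ : ∃ e2, deriv (deriv E) (y 0) = e2 := ⟨_, rfl⟩
  rw [← hsE, he1, he2] at jE
  rw [hp0, hp1, hp2] at jP
  rw [ha0, ha1, ha2] at ja
  rw [hn0, hnt, hnx, hntt, hntx, hnxx] at jN
  rw [hh0, hht, hhx, hhtt, hhtx, hhxx] at jH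
  have hj : ∀ i j, HasJet (fun x => kkMet E P N H a x i j) y (kkG s p0 n0 h0 a0 i j)
      (fun m => kkD e1 p0 p1 n0 nt nx h0 ht hx a0 a1 m i j)
      (fun m n => kkS e2 p0 p1 p2 n0 nt nx ntt ntx nxx h0 ht hx htt htx hxx a0 a1 a2 m n i j) := by
    have jZ := hasJet_const 0 y
    exact kk_forall2 (kk_jE jE) (kk_z01 jZ) (kk_z02 jZ) (kk_z03 jZ) (kk_z10 jZ) (kk_j11 jP)
      (kk_z12 jZ) (kk_z13 jZ) (kk_z20 jZ) (kk_z21 jZ) (kk_j22 jN jH ja) (kk_j23a jH ja)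
      (kk_z30 jZ) (kk_z31 jZ) (kk_j23b jH ja) (kk_j33 jH)
  have hric : ∀ i j, ric (kkMet E P N H a) i j y =
      kkR s p0 n0 h0 a0 R00 R01 R11 R22 R33 R23 i j := by
    intro i j
    rw [ric_of_jets hj (kkI_mul s p0 n0 h0 a0 hs.ne' hp00 hn00 hh00)
      (kkT_eq s e1 p0 p1 n0 nt nx h0 ht hx a0 a1 hs.ne' hp00 hn00 hh00) i j]
    exact kkR_eq s e1 e2 p0 p1 p2 n0 nt nx ntt ntx nxx h0 ht hx htt htx hxx a0 a1 a2 hs.ne' hp00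
      hn00 hh00 hP1 hP2 hN1 hN2 hH1 hH2 hF hR00 hR01 hR11 hR22 hR33 hR23 i j
  unfold ricq
  simp only [hric]
  simp [kkR, Fin.sum_univ_four]
  ring

end Pool.Agent.W_MP_654ec6
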