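import Pool.Agent.W_MP_654ec6.A.KKDef

/-!
# The algebra of the Kaluza-Klein Ricci tensor
-/

namespace Pool.Agent.W_MP_654ec6

theorem kkI_mul (s p0 n0 h0 a0 : ℝ) (hs : s ≠ 0) (hp : p0 ≠ 0) (hn : n0 ≠ 0) (hh : h0 ≠ 0) :
    kkI s p0 n0 h0 a0 * kkG s p0 n0 h0 a0 = 1 := by
  unfold kkI kkG
  ext i j
  fin_cases i <;> fin_cases j <;> simp [Matrix.mul_apply, Fin.sum_univ_four] <;> field_simp <;>
    ring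

/-- Sums with the inverse matrix. -/
theorem kkI_sum (s p0 n0 h0 a0 : ℝ) (f : Fin 4 → ℝ) :
    (∑ p, kkI s p0 n0 h0 a0 0 p * f p = 1 / s ^ 2 * f 0) ∧
    (∑ p, kkI s p0 n0 h0 a0 1 p * f p = 1 / p0 ^ 2 * f 1) ∧
    (∑ p, kkI s p0 n0 h0 a0 2 p * f p = 1 / n0 ^ 2 * f 2 + -a0 / n0 ^ 2 * f 3) ∧
    (∑ p, kkI s p0 n0 h0 a0 3 p * f p =
      -a0 / n0 ^ 2 * f 2 + (1 / h0 ^ 2 + a0 ^ 2 / n0 ^ 2) * f 3) := by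
  simp only [Fin.sum_univ_four]
  refine ⟨?_, ?_, ?_, ?_⟩
  · show 1 / s ^ 2 * f 0 + 0 * f 1 + 0 * f 2 + 0 * f 3 = _
    ring
  · show 0 * f 0 + 1 / p0 ^ 2 * f 1 + 0 * f 2 + 0 * f 3 = _
    ring
  · show 0 * f 0 + 0 * f 1 + 1 / n0 ^ 2 * f 2 + -a0 / n0 ^ 2 * f 3 = _
    ring
  · show 0 * f 0 + 0 * f 1 + -a0 / n0 ^ 2 * f 2 + (1 / h0 ^ 2 + a0 ^ 2 / n0 ^ 2) * f 3 = _
    ring

/-- The rows of the table of the Christoffel symbols. -/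
theorem kkT_rows {s e1 p0 p1 n0 nt nx h0 ht hx a0 a1 : ℝ} {T : Fin 4 → Fin 4 → Fin 4 → ℝ}
    (hT : T = kkT s e1 p0 p1 n0 nt nx h0 ht hx a0 a1) :
    T 0 0 = ![e1 / (2 * s ^ 2), 0, 0, 0] ∧
    T 0 1 = ![0, -(p0 * p1) / s ^ 2, 0, 0] ∧
    T 0 2 = ![0, 0, -(n0 * nt + h0 * ht * a0 ^ 2) / s ^ 2, -(h0 * ht * a0) / s ^ 2] ∧
    T 0 3 = ![0, 0, -(h0 * ht * a0) / s ^ 2, -(h0 * ht) / s ^ 2] ∧
    T 1 0 = ![0, p1 / p0, 0, 0] ∧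
    T 1 1 = ![p1 / p0, 0, 0, 0] ∧
    T 1 2 = ![0, 0, -(n0 * nx + h0 * hx * a0 ^ 2 + h0 ^ 2 * a0 * a1) / p0 ^ 2, -(2 * h0 * hx * a0
    + h0 ^ 2 * a1) / (2 * p0 ^ 2)] ∧
    T 1 3 = ![0, 0, -(2 * h0 * hx * a0 + h0 ^ 2 * a1) / (2 * p0 ^ 2), -(h0 * hx) / p0 ^ 2] ∧
    T 2 0 = ![0, 0, nt / n0, 0] ∧
    T 2 1 = ![0, 0, nx / n0 + h0 ^ 2 * a0 * a1 / (2 * n0 ^ 2), h0 ^ 2 * a1 / (2 * n0 ^ 2)] ∧
    T 2 2 = ![nt / n0, nx / n0 + h0 ^ 2 * a0 * a1 / (2 * n0 ^ 2), 0, 0] ∧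
    T 2 3 = ![0, h0 ^ 2 * a1 / (2 * n0 ^ 2), 0, 0] ∧
    T 3 0 = ![0, 0, a0 * (ht / h0 - nt / n0), ht / h0] ∧
    T 3 1 = ![0, 0, a0 * (hx / h0 - nx / n0) + a1 / 2 - a0 ^ 2 * h0 ^ 2 * a1 / (2 * n0 ^ 2), hx /
    h0 - a0 * h0 ^ 2 * a1 / (2 * n0 ^ 2)] ∧
    T 3 2 = ![a0 * (ht / h0 - nt / n0), a0 * (hx / h0 - nx / n0) + a1 / 2 - a0 ^ 2 * h0 ^ 2 * a1
    / (2 * n0 ^ 2), 0, 0] ∧
    T 3 3 = ![ht / h0, hx / h0 - a0 * h0 ^ 2 * a1 / (2 * n0 ^ 2), 0, 0] := by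
  rw [hT]
  exact ⟨rfl, rfl, rfl, rfl, rfl, rfl, rfl, rfl, rfl, rfl, rfl, rfl, rfl, rfl, rfl, rfl⟩

/-- The rows of the table of the first derivatives. -/
theorem kkD_rows {e1 p0 p1 n0 nt nx h0 ht hx a0 a1 : ℝ} {D : Fin 4 → Fin 4 → Fin 4 → ℝ}
    (hD : D = kkD e1 p0 p1 n0 nt nx h0 ht hx a0 a1) :
    D 0 0 = ![e1, 0, 0, 0] ∧
    D 0 1 = ![0, 2 * p0 * p1, 0, 0] ∧
    D 0 2 = ![0, 0, 2 * n0 * nt + 2 * h0 * ht * a0 ^ 2, 2 * h0 * ht * a0] ∧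
    D 0 3 = ![0, 0, 2 * h0 * ht * a0, 2 * h0 * ht] ∧
    D 1 0 = ![0, 0, 0, 0] ∧
    D 1 1 = ![0, 0, 0, 0] ∧
    D 1 2 = ![0, 0, 2 * n0 * nx + 2 * h0 * hx * a0 ^ 2 + 2 * h0 ^ 2 * a0 * a1, 2 * h0 * hx * a0 +
    h0 ^ 2 * a1] ∧
    D 1 3 = ![0, 0, 2 * h0 * hx * a0 + h0 ^ 2 * a1, 2 * h0 * hx] ∧
    (∀ i j, D 2 i j = 0) ∧
    (∀ i j, D 3 i j = 0) := by
  rw [hD]
  exact ⟨rfl, rfl, rfl, rfl, rfl, rfl, rfl, rfl, kk_zero rfl, kk_zero rfl⟩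

/-- The rows of the table of the second derivatives. -/
theorem kkS_rows {e2 p0 p1 p2 n0 nt nx ntt ntx nxx h0 ht hx htt htx hxx a0 a1 a2 : ℝ}
    {S : Fin 4 → Fin 4 → Fin 4 → Fin 4 → ℝ}
    (hS : S = kkS e2 p0 p1 p2 n0 nt nx ntt ntx nxx h0 ht hx htt htx hxx a0 a1 a2) :
    S 0 0 0 = ![e2, 0, 0, 0] ∧
    S 0 0 1 = ![0, 2 * p1 ^ 2 + 2 * p0 * p2, 0, 0] ∧
    S 0 0 2 = ![0, 0, 2 * nt ^ 2 + 2 * n0 * ntt + (2 * ht ^ 2 + 2 * h0 * htt) * a0 ^ 2, (2 * ht ^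
    2 + 2 * h0 * htt) * a0] ∧
    S 0 0 3 = ![0, 0, (2 * ht ^ 2 + 2 * h0 * htt) * a0, 2 * ht ^ 2 + 2 * h0 * htt] ∧
    S 0 1 0 = ![0, 0, 0, 0] ∧
    S 0 1 1 = ![0, 0, 0, 0] ∧
    S 0 1 2 = ![0, 0, 2 * nt * nx + 2 * n0 * ntx + (2 * ht * hx + 2 * h0 * htx) * a0 ^ 2 + 4 * h0
    * ht * a0 * a1, (2 * ht * hx + 2 * h0 * htx) * a0 + 2 * h0 * ht * a1] ∧
    S 0 1 3 = ![0, 0, (2 * ht * hx + 2 * h0 * htx) * a0 + 2 * h0 * ht * a1, 2 * ht * hx + 2 * h0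
    * htx] ∧
    S 1 0 0 = ![0, 0, 0, 0] ∧
    S 1 0 1 = ![0, 0, 0, 0] ∧
    S 1 0 2 = ![0, 0, 2 * nt * nx + 2 * n0 * ntx + (2 * ht * hx + 2 * h0 * htx) * a0 ^ 2 + 4 * h0
    * ht * a0 * a1, (2 * ht * hx + 2 * h0 * htx) * a0 + 2 * h0 * ht * a1] ∧
    S 1 0 3 = ![0, 0, (2 * ht * hx + 2 * h0 * htx) * a0 + 2 * h0 * ht * a1, 2 * ht * hx + 2 * h0
    * htx] ∧
    S 1 1 0 = ![0, 0, 0, 0] ∧
    S 1 1 1 = ![0, 0, 0, 0] ∧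
    S 1 1 2 = ![0, 0, 2 * nx ^ 2 + 2 * n0 * nxx + (2 * hx ^ 2 + 2 * h0 * hxx) * a0 ^ 2 + 8 * h0 *
    hx * a0 * a1 + h0 ^ 2 * (2 * a1 ^ 2 + 2 * a0 * a2), (2 * hx ^ 2 + 2 * h0 * hxx) * a0 + 4 * h0
    * hx * a1 + h0 ^ 2 * a2] ∧
    S 1 1 3 = ![0, 0, (2 * hx ^ 2 + 2 * h0 * hxx) * a0 + 4 * h0 * hx * a1 + h0 ^ 2 * a2, 2 * hx ^
    2 + 2 * h0 * hxx] ∧
    (∀ i j, S 0 2 i j = 0) ∧
    (∀ i j, S 0 3 i j = 0) ∧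
    (∀ i j, S 1 2 i j = 0) ∧
    (∀ i j, S 1 3 i j = 0) ∧
    (∀ q i j, S 2 q i j = 0) ∧
    (∀ q i j, S 3 q i j = 0) := by
  rw [hS]
  exact ⟨rfl, rfl, rfl, rfl, rfl, rfl, rfl, rfl, rfl, rfl, rfl, rfl, rfl, rfl, rfl, rfl,
    kk_zero rfl, kk_zero rfl, kk_zero rfl, kk_zero rfl,
    kk_forall (kk_zero rfl) (kk_zero rfl) (kk_zero rfl) (kk_zero rfl),
    kk_forall (kk_zero rfl) (kk_zero rfl) (kk_zero rfl) (kk_zero rfl)⟩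

/-- Sums with the table of the first derivatives. -/
theorem kkD_sums {e1 p0 p1 n0 nt nx h0 ht hx a0 a1 : ℝ} {D : Fin 4 → Fin 4 → Fin 4 → ℝ}
    (hD : D = kkD e1 p0 p1 n0 nt nx h0 ht hx a0 a1) :
    (∀ f : Fin 4 → ℝ, ∑ q, D 0 0 q * f q = e1 * f 0) ∧
    (∀ f : Fin 4 → ℝ, ∑ q, D 0 1 q * f q = (2 * p0 * p1) * f 1) ∧
    (∀ f : Fin 4 → ℝ, ∑ q, D 0 2 q * f q = (2 * n0 * nt + 2 * h0 * ht * a0 ^ 2) * f 2 + (2 * h0 *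
    ht * a0) * f 3) ∧
    (∀ f : Fin 4 → ℝ, ∑ q, D 0 3 q * f q = (2 * h0 * ht * a0) * f 2 + (2 * h0 * ht) * f 3) ∧
    (∀ f : Fin 4 → ℝ, ∑ q, D 1 0 q * f q = 0) ∧
    (∀ f : Fin 4 → ℝ, ∑ q, D 1 1 q * f q = 0) ∧
    (∀ f : Fin 4 → ℝ, ∑ q, D 1 2 q * f q = (2 * n0 * nx + 2 * h0 * hx * a0 ^ 2 + 2 * h0 ^ 2 * a0
    * a1) * f 2 + (2 * h0 * hx * a0 + h0 ^ 2 * a1) * f 3) ∧
    (∀ f : Fin 4 → ℝ, ∑ q, D 1 3 q * f q = (2 * h0 * hx * a0 + h0 ^ 2 * a1) * f 2 + (2 * h0 * hx)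
    * f 3) ∧
    (∀ (p : Fin 4) (f : Fin 4 → ℝ), ∑ q, D 2 p q * f q = 0) ∧
    (∀ (p : Fin 4) (f : Fin 4 → ℝ), ∑ q, D 3 p q * f q = 0) := by
  obtain ⟨d00, d01, d02, d03, d10, d11, d12, d13, d2, d3⟩ := kkD_rows hD
  refine ⟨?_, ?_, ?_, ?_, ?_, ?_, ?_, ?_, ?_, ?_⟩ <;> intros <;>
    simp only [Fin.sum_univ_four, d00, d01, d02, d03, d10, d11, d12, d13, d2, d3, Matrix.cons_val, zero_mul, add_zero, zero_add]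

theorem kkT_eq (s e1 p0 p1 n0 nt nx h0 ht hx a0 a1 : ℝ) (hs : s ≠ 0) (hp : p0 ≠ 0) (hn : n0 ≠ 0)
    (hh : h0 ≠ 0) (k i j : Fin 4) :
    kkT s e1 p0 p1 n0 nt nx h0 ht hx a0 a1 k i j =
      ∑ l, kkI s p0 n0 h0 a0 k l * KosF (kkD e1 p0 p1 n0 nt nx h0 ht hx a0 a1) l i j := by
  obtain ⟨T, hT⟩ : ∃ T, T = kkT s e1 p0 p1 n0 nt nx h0 ht hx a0 a1 := ⟨_, rfl⟩
  obtain ⟨D, hD⟩ : ∃ D, D = kkD e1 p0 p1 n0 nt nx h0 ht hx a0 a1 := ⟨_, rfl⟩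
  rw [← hT, ← hD]
  obtain ⟨t00, t01, t02, t03, t10, t11, t12, t13, t20, t21, t22, t23, t30, t31, t32, t33⟩ := kkT_rows hT
  obtain ⟨d00, d01, d02, d03, d10, d11, d12, d13, d2, d3⟩ := kkD_rows hD
  have hI := kkI_sum s p0 n0 h0 a0 (fun l => KosF D l i j)
  simp only [KosF] at hI
  unfold KosF
  clear hT hD
  revert k
  refine kk_forall ?_ ?_ ?_ ?_
  · rw [hI.1]
    clear hI
    revert i j
    refine kk_forall ?_ ?_ ?_ ?_ <;> refine kk_forall ?_ ?_ ?_ ?_ <;>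
      simp only [t00, t01, t02, t03, d00, d01, d02, d03, d10, d11, d12, d13, d2, d3, Matrix.cons_val,
        mul_zero, zero_mul, add_zero, zero_add, sub_zero, zero_sub, neg_zero, sub_self] <;>
      field_simp <;> ring
  · rw [hI.2.1]
    clear hI
    revert i j
    refine kk_forall ?_ ?_ ?_ ?_ <;> refine kk_forall ?_ ?_ ?_ ?_ <;>
      simp only [t10, t11, t12, t13, d00, d01, d02, d03, d10, d11, d12, d13, d2, d3, Matrix.cons_val,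
        mul_zero, zero_mul, add_zero, zero_add, sub_zero, zero_sub, neg_zero, sub_self] <;>
      field_simp <;> ring
  · rw [hI.2.2.1]
    clear hI
    revert i j
    refine kk_forall ?_ ?_ ?_ ?_ <;> refine kk_forall ?_ ?_ ?_ ?_ <;>
      simp only [t20, t21, t22, t23, d00, d01, d02, d03, d10, d11, d12, d13, d2, d3, Matrix.cons_val,
        mul_zero, zero_mul, add_zero, zero_add, sub_zero, zero_sub, neg_zero, sub_self] <;>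
      field_simp <;> ring
  · rw [hI.2.2.2]
    clear hI
    revert i j
    refine kk_forall ?_ ?_ ?_ ?_ <;> refine kk_forall ?_ ?_ ?_ ?_ <;>
      simp only [t30, t31, t32, t33, d00, d01, d02, d03, d10, d11, d12, d13, d2, d3, Matrix.cons_val,
        mul_zero, zero_mul, add_zero, zero_add, sub_zero, zero_sub, neg_zero, sub_self] <;>
      field_simp <;> ring

/-- Ricci tensor -/
noncomputable def kkR (s p0 n0 h0 a0 R00 R01 R11 R22 R33 R23 : ℝ) : Fin 4 → Fin 4 → ℝ :=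
  ![![s ^ 2 * R00, s * p0 * R01, 0, 0], ![s * p0 * R01, p0 ^ 2 * R11, 0, 0],
    ![0, 0, n0 ^ 2 * R22 + h0 ^ 2 * a0 ^ 2 * R33 + 2 * n0 * h0 * a0 * R23,
      h0 ^ 2 * a0 * R33 + n0 * h0 * R23],
    ![0, 0, h0 ^ 2 * a0 * R33 + n0 * h0 * R23, h0 ^ 2 * R33]]

/-- Column 0. -/
theorem kkR_col0 (s e1 e2 p0 p1 p2 n0 nt nx ntt ntx nxx h0 ht hx htt htx hxx a0 a1 a2 : ℝ)
    (hs : s ≠ 0) (hp : p0 ≠ 0) (hn : n0 ≠ 0) (hh : h0 ≠ 0)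
    {P1 P2 N1 N2 H1 H2 F R00 R01 R11 R22 R33 R23 : ℝ}
    (hP1 : P1 = p1 / s) (hP2 : P2 = p2 / s ^ 2 - e1 * p1 / (2 * s ^ 4))
    (hN1 : N1 = nt / s) (hN2 : N2 = ntt / s ^ 2 - e1 * nt / (2 * s ^ 4))
    (hH1 : H1 = ht / s) (hH2 : H2 = htt / s ^ 2 - e1 * ht / (2 * s ^ 4))
    (hF : F = a1 / (p0 * n0))
    (hR00 : R00 = -P2 / p0 - N2 / n0 - H2 / h0)
    (hR01 : R01 = -(ntx / s - P1 * nx / p0) / (p0 * n0) - (htx / s - P1 * hx / p0) / (p0 * h0))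
    (hR11 : R11 = -P2 / p0 - (nxx / p0 ^ 2 + P1 * N1 / p0) / n0 -
      (hxx / p0 ^ 2 + P1 * H1 / p0) / h0 - h0 ^ 2 * F ^ 2 / 2)
    (hR22 : R22 = -(N2 + nxx / p0 ^ 2 + P1 * N1 / p0) / n0 -
      (N1 * H1 + nx * hx / p0 ^ 2) / (n0 * h0) - h0 ^ 2 * F ^ 2 / 2)
    (hR33 : R33 = -(H2 + hxx / p0 ^ 2 + P1 * H1 / p0) / h0 -
      (N1 * H1 + nx * hx / p0 ^ 2) / (n0 * h0) + h0 ^ 2 * F ^ 2 / 2)
    (hR23 : R23 = -(3 * h0 ^ 2 * hx * a1 / (p0 * n0) +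
      h0 ^ 3 * (a2 * n0 - a1 * nx) / (p0 * n0 ^ 2)) / (2 * h0 ^ 2 * p0)) (i : Fin 4) :
    RicF (kkI s p0 n0 h0 a0) (kkD e1 p0 p1 n0 nt nx h0 ht hx a0 a1)
      (kkS e2 p0 p1 p2 n0 nt nx ntt ntx nxx h0 ht hx htt htx hxx a0 a1 a2)
      (kkT s e1 p0 p1 n0 nt nx h0 ht hx a0 a1) i 0 =
      kkR s p0 n0 h0 a0 R00 R01 R11 R22 R33 R23 i 0 := by
  obtain ⟨T, hT⟩ : ∃ T, T = kkT s e1 p0 p1 n0 nt nx h0 ht hx a0 a1 := ⟨_, rfl⟩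
  obtain ⟨D, hD⟩ : ∃ D, D = kkD e1 p0 p1 n0 nt nx h0 ht hx a0 a1 := ⟨_, rfl⟩
  obtain ⟨S, hS⟩ : ∃ S, S = kkS e2 p0 p1 p2 n0 nt nx ntt ntx nxx h0 ht hx htt htx hxx a0 a1 a2 :=
    ⟨_, rfl⟩
  rw [← hT, ← hD, ← hS]
  obtain ⟨t00, t01, t02, t03, t10, t11, t12, t13, t20, t21, t22, t23, t30, t31, t32, t33⟩ := kkT_rows hT
  obtain ⟨-, -, -, -, -, -, -, -, d2, d3⟩ := kkD_rows hD
  obtain ⟨q00, q01, q02, q03, q10, q11, q12, q13, q2, q3⟩ := kkD_sums hD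
  obtain ⟨s000, s001, s002, s003, s010, s011, s012, s013, s100, s101, s102, s103, s110, s111,
    s112, s113, s02, s03, s12, s13, s2, s3⟩ := kkS_rows hS
  have i0 := fun f => (kkI_sum s p0 n0 h0 a0 f).1
  have i1 := fun f => (kkI_sum s p0 n0 h0 a0 f).2.1
  have i2 := fun f => (kkI_sum s p0 n0 h0 a0 f).2.2.1
  have i3 := fun f => (kkI_sum s p0 n0 h0 a0 f).2.2.2
  clear hT hD hS
  simp only [RicF, Fin.sum_univ_four]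
  simp only [dGamF, i0, i1, i2, i3, q00, q01, q02, q03, q10, q11, q12, q13, q2, q3]
  revert i
  refine kk_forall ?_ ?_ ?_ ?_ <;> simp only [kkR, t00, t01, t02, t03, t10, t11, t12, t13, t20, t21, t22, t23, t30, t31, t32, t33, s000,
      s001, s002, s003, s010, s011, s012, s013, s100, s101, s102, s103, s110, s111, s112, s113,
      s02, s03, s12, s13, s2, s3, Matrix.cons_val, mul_zero, zero_mul, add_zero, zero_add,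
      sub_zero, zero_sub, neg_zero, sub_self] <;>
    subst hR00 hR01 hR11 hR22 hR33 hR23 hF hP1 hP2 hN1 hN2 hH1 hH2 <;>
    field_simp <;> ring

/-- Column 1. -/
theorem kkR_col1 (s e1 e2 p0 p1 p2 n0 nt nx ntt ntx nxx h0 ht hx htt htx hxx a0 a1 a2 : ℝ)
    (hs : s ≠ 0) (hp : p0 ≠ 0) (hn : n0 ≠ 0) (hh : h0 ≠ 0)
    {P1 P2 N1 N2 H1 H2 F R00 R01 R11 R22 R33 R23 : ℝ}
    (hP1 : P1 = p1 / s) (hP2 : P2 = p2 / s ^ 2 - e1 * p1 / (2 * s ^ 4))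
    (hN1 : N1 = nt / s) (hN2 : N2 = ntt / s ^ 2 - e1 * nt / (2 * s ^ 4))
    (hH1 : H1 = ht / s) (hH2 : H2 = htt / s ^ 2 - e1 * ht / (2 * s ^ 4))
    (hF : F = a1 / (p0 * n0))
    (hR00 : R00 = -P2 / p0 - N2 / n0 - H2 / h0)
    (hR01 : R01 = -(ntx / s - P1 * nx / p0) / (p0 * n0) - (htx / s - P1 * hx / p0) / (p0 * h0))
    (hR11 : R11 = -P2 / p0 - (nxx / p0 ^ 2 + P1 * N1 / p0) / n0 -
      (hxx / p0 ^ 2 + P1 * H1 / p0) / h0 - h0 ^ 2 * F ^ 2 / 2)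
    (hR22 : R22 = -(N2 + nxx / p0 ^ 2 + P1 * N1 / p0) / n0 -
      (N1 * H1 + nx * hx / p0 ^ 2) / (n0 * h0) - h0 ^ 2 * F ^ 2 / 2)
    (hR33 : R33 = -(H2 + hxx / p0 ^ 2 + P1 * H1 / p0) / h0 -
      (N1 * H1 + nx * hx / p0 ^ 2) / (n0 * h0) + h0 ^ 2 * F ^ 2 / 2)
    (hR23 : R23 = -(3 * h0 ^ 2 * hx * a1 / (p0 * n0) +
      h0 ^ 3 * (a2 * n0 - a1 * nx) / (p0 * n0 ^ 2)) / (2 * h0 ^ 2 * p0)) (i : Fin 4) :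
    RicF (kkI s p0 n0 h0 a0) (kkD e1 p0 p1 n0 nt nx h0 ht hx a0 a1)
      (kkS e2 p0 p1 p2 n0 nt nx ntt ntx nxx h0 ht hx htt htx hxx a0 a1 a2)
      (kkT s e1 p0 p1 n0 nt nx h0 ht hx a0 a1) i 1 =
      kkR s p0 n0 h0 a0 R00 R01 R11 R22 R33 R23 i 1 := by
  obtain ⟨T, hT⟩ : ∃ T, T = kkT s e1 p0 p1 n0 nt nx h0 ht hx a0 a1 := ⟨_, rfl⟩
  obtain ⟨D, hD⟩ : ∃ D, D = kkD e1 p0 p1 n0 nt nx h0 ht hx a0 a1 := ⟨_, rfl⟩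
  obtain ⟨S, hS⟩ : ∃ S, S = kkS e2 p0 p1 p2 n0 nt nx ntt ntx nxx h0 ht hx htt htx hxx a0 a1 a2 :=
    ⟨_, rfl⟩
  rw [← hT, ← hD, ← hS]
  obtain ⟨t00, t01, t02, t03, t10, t11, t12, t13, t20, t21, t22, t23, t30, t31, t32, t33⟩ := kkT_rows hT
  obtain ⟨-, -, -, -, -, -, -, -, d2, d3⟩ := kkD_rows hD
  obtain ⟨q00, q01, q02, q03, q10, q11, q12, q13, q2, q3⟩ := kkD_sums hD
  obtain ⟨s000, s001, s002, s003, s010, s011, s012, s013, s100, s101, s102, s103, s110, s111,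
    s112, s113, s02, s03, s12, s13, s2, s3⟩ := kkS_rows hS
  have i0 := fun f => (kkI_sum s p0 n0 h0 a0 f).1
  have i1 := fun f => (kkI_sum s p0 n0 h0 a0 f).2.1
  have i2 := fun f => (kkI_sum s p0 n0 h0 a0 f).2.2.1
  have i3 := fun f => (kkI_sum s p0 n0 h0 a0 f).2.2.2
  clear hT hD hS
  simp only [RicF, Fin.sum_univ_four]
  simp only [dGamF, i0, i1, i2, i3, q00, q01, q02, q03, q10, q11, q12, q13, q2, q3]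
  revert i
  refine kk_forall ?_ ?_ ?_ ?_ <;> simp only [kkR, t00, t01, t02, t03, t10, t11, t12, t13, t20, t21, t22, t23, t30, t31, t32, t33, s000,
      s001, s002, s003, s010, s011, s012, s013, s100, s101, s102, s103, s110, s111, s112, s113,
      s02, s03, s12, s13, s2, s3, Matrix.cons_val, mul_zero, zero_mul, add_zero, zero_add,
      sub_zero, zero_sub, neg_zero, sub_self] <;>
    subst hR00 hR01 hR11 hR22 hR33 hR23 hF hP1 hP2 hN1 hN2 hH1 hH2 <;>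
    field_simp <;> ring

/-- Column 2. -/
theorem kkR_col2 (s e1 e2 p0 p1 p2 n0 nt nx ntt ntx nxx h0 ht hx htt htx hxx a0 a1 a2 : ℝ)
    (hs : s ≠ 0) (hp : p0 ≠ 0) (hn : n0 ≠ 0) (hh : h0 ≠ 0)
    {P1 P2 N1 N2 H1 H2 F R00 R01 R11 R22 R33 R23 : ℝ}
    (hP1 : P1 = p1 / s) (hP2 : P2 = p2 / s ^ 2 - e1 * p1 / (2 * s ^ 4))
    (hN1 : N1 = nt / s) (hN2 : N2 = ntt / s ^ 2 - e1 * nt / (2 * s ^ 4))
    (hH1 : H1 = ht / s) (hH2 : H2 = htt / s ^ 2 - e1 * ht / (2 * s ^ 4))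
    (hF : F = a1 / (p0 * n0))
    (hR00 : R00 = -P2 / p0 - N2 / n0 - H2 / h0)
    (hR01 : R01 = -(ntx / s - P1 * nx / p0) / (p0 * n0) - (htx / s - P1 * hx / p0) / (p0 * h0))
    (hR11 : R11 = -P2 / p0 - (nxx / p0 ^ 2 + P1 * N1 / p0) / n0 -
      (hxx / p0 ^ 2 + P1 * H1 / p0) / h0 - h0 ^ 2 * F ^ 2 / 2)
    (hR22 : R22 = -(N2 + nxx / p0 ^ 2 + P1 * N1 / p0) / n0 -
      (N1 * H1 + nx * hx / p0 ^ 2) / (n0 * h0) - h0 ^ 2 * F ^ 2 / 2)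
    (hR33 : R33 = -(H2 + hxx / p0 ^ 2 + P1 * H1 / p0) / h0 -
      (N1 * H1 + nx * hx / p0 ^ 2) / (n0 * h0) + h0 ^ 2 * F ^ 2 / 2)
    (hR23 : R23 = -(3 * h0 ^ 2 * hx * a1 / (p0 * n0) +
      h0 ^ 3 * (a2 * n0 - a1 * nx) / (p0 * n0 ^ 2)) / (2 * h0 ^ 2 * p0)) (i : Fin 4) :
    RicF (kkI s p0 n0 h0 a0) (kkD e1 p0 p1 n0 nt nx h0 ht hx a0 a1)
      (kkS e2 p0 p1 p2 n0 nt nx ntt ntx nxx h0 ht hx htt htx hxx a0 a1 a2)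
      (kkT s e1 p0 p1 n0 nt nx h0 ht hx a0 a1) i 2 =
      kkR s p0 n0 h0 a0 R00 R01 R11 R22 R33 R23 i 2 := by
  obtain ⟨T, hT⟩ : ∃ T, T = kkT s e1 p0 p1 n0 nt nx h0 ht hx a0 a1 := ⟨_, rfl⟩
  obtain ⟨D, hD⟩ : ∃ D, D = kkD e1 p0 p1 n0 nt nx h0 ht hx a0 a1 := ⟨_, rfl⟩
  obtain ⟨S, hS⟩ : ∃ S, S = kkS e2 p0 p1 p2 n0 nt nx ntt ntx nxx h0 ht hx htt htx hxx a0 a1 a2 :=
    ⟨_, rfl⟩
  rw [← hT, ← hD, ← hS]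
  obtain ⟨t00, t01, t02, t03, t10, t11, t12, t13, t20, t21, t22, t23, t30, t31, t32, t33⟩ := kkT_rows hT
  obtain ⟨-, -, -, -, -, -, -, -, d2, d3⟩ := kkD_rows hD
  obtain ⟨q00, q01, q02, q03, q10, q11, q12, q13, q2, q3⟩ := kkD_sums hD
  obtain ⟨s000, s001, s002, s003, s010, s011, s012, s013, s100, s101, s102, s103, s110, s111,
    s112, s113, s02, s03, s12, s13, s2, s3⟩ := kkS_rows hS
  have i0 := fun f => (kkI_sum s p0 n0 h0 a0 f).1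
  have i1 := fun f => (kkI_sum s p0 n0 h0 a0 f).2.1
  have i2 := fun f => (kkI_sum s p0 n0 h0 a0 f).2.2.1
  have i3 := fun f => (kkI_sum s p0 n0 h0 a0 f).2.2.2
  clear hT hD hS
  simp only [RicF, Fin.sum_univ_four]
  simp only [dGamF, i0, i1, i2, i3, q00, q01, q02, q03, q10, q11, q12, q13, q2, q3]
  revert i
  refine kk_forall ?_ ?_ ?_ ?_ <;> simp only [kkR, t00, t01, t02, t03, t10, t11, t12, t13, t20, t21, t22, t23, t30, t31, t32, t33, s000,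
      s001, s002, s003, s010, s011, s012, s013, s100, s101, s102, s103, s110, s111, s112, s113,
      s02, s03, s12, s13, s2, s3, Matrix.cons_val, mul_zero, zero_mul, add_zero, zero_add,
      sub_zero, zero_sub, neg_zero, sub_self] <;>
    subst hR00 hR01 hR11 hR22 hR33 hR23 hF hP1 hP2 hN1 hN2 hH1 hH2 <;>
    field_simp <;> ring

/-- Column 3. -/
theorem kkR_col3 (s e1 e2 p0 p1 p2 n0 nt nx ntt ntx nxx h0 ht hx htt htx hxx a0 a1 a2 : ℝ)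
    (hs : s ≠ 0) (hp : p0 ≠ 0) (hn : n0 ≠ 0) (hh : h0 ≠ 0)
    {P1 P2 N1 N2 H1 H2 F R00 R01 R11 R22 R33 R23 : ℝ}
    (hP1 : P1 = p1 / s) (hP2 : P2 = p2 / s ^ 2 - e1 * p1 / (2 * s ^ 4))
    (hN1 : N1 = nt / s) (hN2 : N2 = ntt / s ^ 2 - e1 * nt / (2 * s ^ 4))
    (hH1 : H1 = ht / s) (hH2 : H2 = htt / s ^ 2 - e1 * ht / (2 * s ^ 4))
    (hF : F = a1 / (p0 * n0))
    (hR00 : R00 = -P2 / p0 - N2 / n0 - H2 / h0)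
    (hR01 : R01 = -(ntx / s - P1 * nx / p0) / (p0 * n0) - (htx / s - P1 * hx / p0) / (p0 * h0))
    (hR11 : R11 = -P2 / p0 - (nxx / p0 ^ 2 + P1 * N1 / p0) / n0 -
      (hxx / p0 ^ 2 + P1 * H1 / p0) / h0 - h0 ^ 2 * F ^ 2 / 2)
    (hR22 : R22 = -(N2 + nxx / p0 ^ 2 + P1 * N1 / p0) / n0 -
      (N1 * H1 + nx * hx / p0 ^ 2) / (n0 * h0) - h0 ^ 2 * F ^ 2 / 2)
    (hR33 : R33 = -(H2 + hxx / p0 ^ 2 + P1 * H1 / p0) / h0 -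
      (N1 * H1 + nx * hx / p0 ^ 2) / (n0 * h0) + h0 ^ 2 * F ^ 2 / 2)
    (hR23 : R23 = -(3 * h0 ^ 2 * hx * a1 / (p0 * n0) +
      h0 ^ 3 * (a2 * n0 - a1 * nx) / (p0 * n0 ^ 2)) / (2 * h0 ^ 2 * p0)) (i : Fin 4) :
    RicF (kkI s p0 n0 h0 a0) (kkD e1 p0 p1 n0 nt nx h0 ht hx a0 a1)
      (kkS e2 p0 p1 p2 n0 nt nx ntt ntx nxx h0 ht hx htt htx hxx a0 a1 a2)
      (kkT s e1 p0 p1 n0 nt nx h0 ht hx a0 a1) i 3 =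
      kkR s p0 n0 h0 a0 R00 R01 R11 R22 R33 R23 i 3 := by
  obtain ⟨T, hT⟩ : ∃ T, T = kkT s e1 p0 p1 n0 nt nx h0 ht hx a0 a1 := ⟨_, rfl⟩
  obtain ⟨D, hD⟩ : ∃ D, D = kkD e1 p0 p1 n0 nt nx h0 ht hx a0 a1 := ⟨_, rfl⟩
  obtain ⟨S, hS⟩ : ∃ S, S = kkS e2 p0 p1 p2 n0 nt nx ntt ntx nxx h0 ht hx htt htx hxx a0 a1 a2 :=
    ⟨_, rfl⟩
  rw [← hT, ← hD, ← hS]
  obtain ⟨t00, t01, t02, t03, t10, t11, t12, t13, t20, t21, t22, t23, t30, t31, t32, t33⟩ := kkT_rows hT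
  obtain ⟨-, -, -, -, -, -, -, -, d2, d3⟩ := kkD_rows hD
  obtain ⟨q00, q01, q02, q03, q10, q11, q12, q13, q2, q3⟩ := kkD_sums hD
  obtain ⟨s000, s001, s002, s003, s010, s011, s012, s013, s100, s101, s102, s103, s110, s111,
    s112, s113, s02, s03, s12, s13, s2, s3⟩ := kkS_rows hS
  have i0 := fun f => (kkI_sum s p0 n0 h0 a0 f).1
  have i1 := fun f => (kkI_sum s p0 n0 h0 a0 f).2.1
  have i2 := fun f => (kkI_sum s p0 n0 h0 a0 f).2.2.1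
  have i3 := fun f => (kkI_sum s p0 n0 h0 a0 f).2.2.2
  clear hT hD hS
  simp only [RicF, Fin.sum_univ_four]
  simp only [dGamF, i0, i1, i2, i3, q00, q01, q02, q03, q10, q11, q12, q13, q2, q3]
  revert i
  refine kk_forall ?_ ?_ ?_ ?_ <;> simp only [kkR, t00, t01, t02, t03, t10, t11, t12, t13, t20, t21, t22, t23, t30, t31, t32, t33, s000,
      s001, s002, s003, s010, s011, s012, s013, s100, s101, s102, s103, s110, s111, s112, s113,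
      s02, s03, s12, s13, s2, s3, Matrix.cons_val, mul_zero, zero_mul, add_zero, zero_add,
      sub_zero, zero_sub, neg_zero, sub_self] <;>
    subst hR00 hR01 hR11 hR22 hR33 hR23 hF hP1 hP2 hN1 hN2 hH1 hH2 <;>
    field_simp <;> ring

theorem kkR_eq (s e1 e2 p0 p1 p2 n0 nt nx ntt ntx nxx h0 ht hx htt htx hxx a0 a1 a2 : ℝ)
    (hs : s ≠ 0) (hp : p0 ≠ 0) (hn : n0 ≠ 0) (hh : h0 ≠ 0)
    {P1 P2 N1 N2 H1 H2 F R00 R01 R11 R22 R33 R23 : ℝ}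
    (hP1 : P1 = p1 / s) (hP2 : P2 = p2 / s ^ 2 - e1 * p1 / (2 * s ^ 4))
    (hN1 : N1 = nt / s) (hN2 : N2 = ntt / s ^ 2 - e1 * nt / (2 * s ^ 4))
    (hH1 : H1 = ht / s) (hH2 : H2 = htt / s ^ 2 - e1 * ht / (2 * s ^ 4))
    (hF : F = a1 / (p0 * n0))
    (hR00 : R00 = -P2 / p0 - N2 / n0 - H2 / h0)
    (hR01 : R01 = -(ntx / s - P1 * nx / p0) / (p0 * n0) - (htx / s - P1 * hx / p0) / (p0 * h0))
    (hR11 : R11 = -P2 / p0 - (nxx / p0 ^ 2 + P1 * N1 / p0) / n0 -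
      (hxx / p0 ^ 2 + P1 * H1 / p0) / h0 - h0 ^ 2 * F ^ 2 / 2)
    (hR22 : R22 = -(N2 + nxx / p0 ^ 2 + P1 * N1 / p0) / n0 -
      (N1 * H1 + nx * hx / p0 ^ 2) / (n0 * h0) - h0 ^ 2 * F ^ 2 / 2)
    (hR33 : R33 = -(H2 + hxx / p0 ^ 2 + P1 * H1 / p0) / h0 -
      (N1 * H1 + nx * hx / p0 ^ 2) / (n0 * h0) + h0 ^ 2 * F ^ 2 / 2)
    (hR23 : R23 = -(3 * h0 ^ 2 * hx * a1 / (p0 * n0) +
      h0 ^ 3 * (a2 * n0 - a1 * nx) / (p0 * n0 ^ 2)) / (2 * h0 ^ 2 * p0)) (i j : Fin 4) :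
    RicF (kkI s p0 n0 h0 a0) (kkD e1 p0 p1 n0 nt nx h0 ht hx a0 a1)
      (kkS e2 p0 p1 p2 n0 nt nx ntt ntx nxx h0 ht hx htt htx hxx a0 a1 a2)
      (kkT s e1 p0 p1 n0 nt nx h0 ht hx a0 a1) i j =
      kkR s p0 n0 h0 a0 R00 R01 R11 R22 R33 R23 i j := by
  revert j
  exact kk_forall
    (kkR_col0 s e1 e2 p0 p1 p2 n0 nt nx ntt ntx nxx h0 ht hx htt htx hxx a0 a1 a2 hs hp hn hh
      hP1 hP2 hN1 hN2 hH1 hH2 hF hR00 hR01 hR11 hR22 hR33 hR23 i)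
    (kkR_col1 s e1 e2 p0 p1 p2 n0 nt nx ntt ntx nxx h0 ht hx htt htx hxx a0 a1 a2 hs hp hn hh
      hP1 hP2 hN1 hN2 hH1 hH2 hF hR00 hR01 hR11 hR22 hR33 hR23 i)
    (kkR_col2 s e1 e2 p0 p1 p2 n0 nt nx ntt ntx nxx h0 ht hx htt htx hxx a0 a1 a2 hs hp hn hh
      hP1 hP2 hN1 hN2 hH1 hH2 hF hR00 hR01 hR11 hR22 hR33 hR23 i)
    (kkR_col3 s e1 e2 p0 p1 p2 n0 nt nx ntt ntx nxx h0 ht hx htt htx hxx a0 a1 a2 hs hp hn hh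
      hP1 hP2 hN1 hN2 hH1 hH2 hF hR00 hR01 hR11 hR22 hR33 hR23 i)

end Pool.Agent.W_MP_654ec6
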