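import Pool.Agent.W_MP_654ec6.A.Jet

/-!
# The algebra of the Kaluza-Klein Ricci tensor: definitions
-/

namespace Pool.Agent.W_MP_654ec6

/-- inverse matrix -/
noncomputable def kkI (s p0 n0 h0 a0 : ℝ) : Matrix (Fin 4) (Fin 4) ℝ :=
  !![1 / s ^ 2, 0, 0, 0; 0, 1 / p0 ^ 2, 0, 0; 0, 0, 1 / n0 ^ 2, -a0 / n0 ^ 2;
    0, 0, -a0 / n0 ^ 2, 1 / h0 ^ 2 + a0 ^ 2 / n0 ^ 2]

/-- matrix -/
noncomputable def kkG (s p0 n0 h0 a0 : ℝ) : Matrix (Fin 4) (Fin 4) ℝ :=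
  !![s ^ 2, 0, 0, 0; 0, p0 ^ 2, 0, 0; 0, 0, n0 ^ 2 + h0 ^ 2 * a0 ^ 2, h0 ^ 2 * a0;
    0, 0, h0 ^ 2 * a0, h0 ^ 2]

/-- first derivatives -/
noncomputable def kkD (e1 p0 p1 n0 nt nx h0 ht hx a0 a1 : ℝ) : Fin 4 → Fin 4 → Fin 4 → ℝ :=
  ![![![e1, 0, 0, 0], ![0, 2 * p0 * p1, 0, 0],
      ![0, 0, 2 * n0 * nt + 2 * h0 * ht * a0 ^ 2, 2 * h0 * ht * a0],
      ![0, 0, 2 * h0 * ht * a0, 2 * h0 * ht]],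
    ![![0, 0, 0, 0], ![0, 0, 0, 0],
      ![0, 0, 2 * n0 * nx + 2 * h0 * hx * a0 ^ 2 + 2 * h0 ^ 2 * a0 * a1,
        2 * h0 * hx * a0 + h0 ^ 2 * a1],
      ![0, 0, 2 * h0 * hx * a0 + h0 ^ 2 * a1, 2 * h0 * hx]],
    ![![0, 0, 0, 0], ![0, 0, 0, 0], ![0, 0, 0, 0], ![0, 0, 0, 0]],
    ![![0, 0, 0, 0], ![0, 0, 0, 0], ![0, 0, 0, 0], ![0, 0, 0, 0]]]

/-- the zero block -/
def kkZ : Fin 4 → Fin 4 → ℝ :=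
  ![![0, 0, 0, 0], ![0, 0, 0, 0], ![0, 0, 0, 0], ![0, 0, 0, 0]]

/-- second derivatives -/
noncomputable def kkS (e2 p0 p1 p2 n0 nt nx ntt ntx nxx h0 ht hx htt htx hxx a0 a1 a2 : ℝ) :
    Fin 4 → Fin 4 → Fin 4 → Fin 4 → ℝ :=
  ![![![![e2, 0, 0, 0], ![0, 2 * p1 ^ 2 + 2 * p0 * p2, 0, 0],
      ![0, 0, 2 * nt ^ 2 + 2 * n0 * ntt + (2 * ht ^ 2 + 2 * h0 * htt) * a0 ^ 2,
        (2 * ht ^ 2 + 2 * h0 * htt) * a0],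
      ![0, 0, (2 * ht ^ 2 + 2 * h0 * htt) * a0, 2 * ht ^ 2 + 2 * h0 * htt]],
     ![![0, 0, 0, 0], ![0, 0, 0, 0],
      ![0, 0, 2 * nt * nx + 2 * n0 * ntx + (2 * ht * hx + 2 * h0 * htx) * a0 ^ 2 +
        4 * h0 * ht * a0 * a1, (2 * ht * hx + 2 * h0 * htx) * a0 + 2 * h0 * ht * a1],
      ![0, 0, (2 * ht * hx + 2 * h0 * htx) * a0 + 2 * h0 * ht * a1,
        2 * ht * hx + 2 * h0 * htx]], kkZ, kkZ],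
    ![![![0, 0, 0, 0], ![0, 0, 0, 0],
      ![0, 0, 2 * nt * nx + 2 * n0 * ntx + (2 * ht * hx + 2 * h0 * htx) * a0 ^ 2 +
        4 * h0 * ht * a0 * a1, (2 * ht * hx + 2 * h0 * htx) * a0 + 2 * h0 * ht * a1],
      ![0, 0, (2 * ht * hx + 2 * h0 * htx) * a0 + 2 * h0 * ht * a1,
        2 * ht * hx + 2 * h0 * htx]],
     ![![0, 0, 0, 0], ![0, 0, 0, 0],
      ![0, 0, 2 * nx ^ 2 + 2 * n0 * nxx + (2 * hx ^ 2 + 2 * h0 * hxx) * a0 ^ 2 +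
        8 * h0 * hx * a0 * a1 + h0 ^ 2 * (2 * a1 ^ 2 + 2 * a0 * a2),
        (2 * hx ^ 2 + 2 * h0 * hxx) * a0 + 4 * h0 * hx * a1 + h0 ^ 2 * a2],
      ![0, 0, (2 * hx ^ 2 + 2 * h0 * hxx) * a0 + 4 * h0 * hx * a1 + h0 ^ 2 * a2,
        2 * hx ^ 2 + 2 * h0 * hxx]], kkZ, kkZ],
    ![kkZ, kkZ, kkZ, kkZ], ![kkZ, kkZ, kkZ, kkZ]]

/-- Christoffel symbols -/
noncomputable def kkT (s e1 p0 p1 n0 nt nx h0 ht hx a0 a1 : ℝ) : Fin 4 → Fin 4 → Fin 4 → ℝ :=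
  ![![![e1 / (2 * s ^ 2), 0, 0, 0], ![0, -(p0 * p1) / s ^ 2, 0, 0],
      ![0, 0, -(n0 * nt + h0 * ht * a0 ^ 2) / s ^ 2, -(h0 * ht * a0) / s ^ 2],
      ![0, 0, -(h0 * ht * a0) / s ^ 2, -(h0 * ht) / s ^ 2]],
    ![![0, p1 / p0, 0, 0], ![p1 / p0, 0, 0, 0],
      ![0, 0, -(n0 * nx + h0 * hx * a0 ^ 2 + h0 ^ 2 * a0 * a1) / p0 ^ 2,
        -(2 * h0 * hx * a0 + h0 ^ 2 * a1) / (2 * p0 ^ 2)],
      ![0, 0, -(2 * h0 * hx * a0 + h0 ^ 2 * a1) / (2 * p0 ^ 2), -(h0 * hx) / p0 ^ 2]],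
    ![![0, 0, nt / n0, 0], ![0, 0, nx / n0 + h0 ^ 2 * a0 * a1 / (2 * n0 ^ 2),
        h0 ^ 2 * a1 / (2 * n0 ^ 2)],
      ![nt / n0, nx / n0 + h0 ^ 2 * a0 * a1 / (2 * n0 ^ 2), 0, 0],
      ![0, h0 ^ 2 * a1 / (2 * n0 ^ 2), 0, 0]],
    ![![0, 0, a0 * (ht / h0 - nt / n0), ht / h0],
      ![0, 0, a0 * (hx / h0 - nx / n0) + a1 / 2 - a0 ^ 2 * h0 ^ 2 * a1 / (2 * n0 ^ 2),
        hx / h0 - a0 * h0 ^ 2 * a1 / (2 * n0 ^ 2)],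
      ![a0 * (ht / h0 - nt / n0),
        a0 * (hx / h0 - nx / n0) + a1 / 2 - a0 ^ 2 * h0 ^ 2 * a1 / (2 * n0 ^ 2), 0, 0],
      ![ht / h0, hx / h0 - a0 * h0 ^ 2 * a1 / (2 * n0 ^ 2), 0, 0]]]

/-- Case distinction. -/
theorem kk_forall {P : Fin 4 → Prop} (h0 : P 0) (h1 : P 1) (h2 : P 2) (h3 : P 3) (i : Fin 4) :
    P i := by
  fin_cases i
  · exact h0
  · exact h1
  · exact h2
  · exact h3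

/-- Zero matrices. -/
theorem kk_zero {M : Fin 4 → Fin 4 → ℝ} (h : M = kkZ) (i j : Fin 4) : M i j = 0 := by
  rw [h]
  revert i j
  exact kk_forall (kk_forall rfl rfl rfl rfl) (kk_forall rfl rfl rfl rfl)
    (kk_forall rfl rfl rfl rfl) (kk_forall rfl rfl rfl rfl)

end Pool.Agent.W_MP_654ec6
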