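import Pool.Agent.W_MP_654ec6.A.Defs

/-!
# Task A1: Christoffel symbols are characterised by the Koszul formula

`chr_koszul`: multiply the definition of `chr g k i j x` by `g x l k`, sum over `k`, use
`g * g⁻¹ = 1` (the matrix `g x` is symmetric and positive definite, hence invertible).
`chr_unique`: apply `g⁻¹`. `chr_symm`: the definition is symmetric in `i, j` because
`g` is symmetric near `x` (so the derivatives are).
`contDiffAt_chr`: the inverse of a matrix is smooth (adjugate divided by the determinant; the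
determinant does not vanish by positivity), derivatives of smooth functions are smooth.
`ric_smooth`: the same.
-/

open scoped ContDiff Topology
open Filter

namespace Pool.Agent.W_MP_654ec6

theorem isUnit_det_of_pos {a : Matrix (Fin 4) (Fin 4) ℝ} (hs : ∀ i j, a i j = a j i)
    (hp : ∀ v : E4, v ≠ 0 → 0 < qf a v) : IsUnit a.det := by
  rw [isUnit_iff_ne_zero]
  intro h0
  obtain ⟨v, hv, hav⟩ := Matrix.exists_mulVec_eq_zero_iff.mpr h0
  have hv' : (WithLp.toLp 2 v : E4) ≠ 0 := by
    intro h
    apply hv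
    funext i
    have := congrArg (fun w : E4 => w i) h
    simpa using this
  have h1 := hp _ hv'
  have h2 : qf a (WithLp.toLp 2 v : E4) = 0 := by
    unfold qf
    have : ∀ i, ∑ j, a i j * v i * v j = v i * (a.mulVec v) i := by
      intro i
      rw [Matrix.mulVec, dotProduct, Finset.mul_sum]
      refine Finset.sum_congr rfl fun j _ => ?_
      ring
    have h3 : ∀ i, ∑ j, a i j * v i * v j = 0 := by
      intro i
      rw [this i, hav]
      simp
    exact Finset.sum_eq_zero fun i _ => h3 i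
  exact absurd h2 h1.ne'

/-- The inverse matrix on the right. -/
theorem koszul_mul_inv {a : Matrix (Fin 4) (Fin 4) ℝ} (ha : IsUnit a.det) (K : Fin 4 → ℝ)
    (l : Fin 4) : ∑ k, a l k * ∑ m, a⁻¹ k m * K m = K l := by
  have h := congrArg (fun b : Matrix (Fin 4) (Fin 4) ℝ => b.mulVec K l)
    (Matrix.mul_nonsing_inv a ha)
  simp only [Matrix.one_mulVec] at h
  rw [← Matrix.mulVec_mulVec] at h
  simpa [Matrix.mulVec, dotProduct] using h

/-- The inverse matrix on the left. -/
theorem koszul_inv_mul {a : Matrix (Fin 4) (Fin 4) ℝ} (ha : IsUnit a.det) (K : Fin 4 → ℝ)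
    (l : Fin 4) : ∑ k, a⁻¹ l k * ∑ m, a k m * K m = K l := by
  have h := congrArg (fun b : Matrix (Fin 4) (Fin 4) ℝ => b.mulVec K l)
    (Matrix.nonsing_inv_mul a ha)
  simp only [Matrix.one_mulVec] at h
  rw [← Matrix.mulVec_mulVec] at h
  simpa [Matrix.mulVec, dotProduct] using h

theorem chr_koszul {g : Met} {V : Set E4} (hV : IsOpen V) (hg : GoodMet g V) {x : E4}
    (hx : x ∈ V) (l i j : Fin 4) :
    ∑ k, g x l k * chr g k i j x =
      (1 / 2) * (pd i (fun y => g y l j) x + pd j (fun y => g y l i) x -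
        pd l (fun y => g y i j) x) := by
  have hu := isUnit_det_of_pos (hg.symm x hx) (hg.pos x hx)
  have h := koszul_mul_inv hu (fun m => pd i (fun y => g y m j) x + pd j (fun y => g y m i) x -
        pd m (fun y => g y i j) x) l
  rw [← mul_right_inj' (show (1 / 2 : ℝ) ≠ 0 by norm_num), Finset.mul_sum] at h
  rw [← h]
  refine Finset.sum_congr rfl fun k _ => ?_
  unfold chr
  ring

theorem chr_unique {g : Met} {V : Set E4} (hV : IsOpen V) (hg : GoodMet g V) {x : E4}
    (hx : x ∈ V) (i j : Fin 4) (c : Fin 4 → ℝ)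
    (h : ∀ l, ∑ k, g x l k * c k =
      (1 / 2) * (pd i (fun y => g y l j) x + pd j (fun y => g y l i) x -
        pd l (fun y => g y i j) x)) (k : Fin 4) : chr g k i j x = c k := by
  have hu := isUnit_det_of_pos (hg.symm x hx) (hg.pos x hx)
  have h1 := koszul_inv_mul hu c k
  rw [← h1]
  unfold chr
  rw [Finset.mul_sum]
  refine Finset.sum_congr rfl fun l _ => ?_
  rw [h l]
  ring

/-- `pd` only depends on the germ. -/
theorem koszul_pd_congr {f f' : E4 → ℝ} {x : E4} (h : f =ᶠ[𝓝 x] f') (i : Fin 4) :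
    pd i f x = pd i f' x := by
  unfold pd
  rw [h.fderiv_eq]

theorem koszul_pd_congr' {f f' : E4 → ℝ} {x : E4} (h : f =ᶠ[𝓝 x] f') (i : Fin 4) :
    pd i f =ᶠ[𝓝 x] pd i f' := by
  filter_upwards [h.eventuallyEq_nhds] with y hy
  exact koszul_pd_congr hy i

theorem chr_symm {g : Met} {V : Set E4} (hV : IsOpen V) (hg : GoodMet g V) {x : E4}
    (hx : x ∈ V) (k i j : Fin 4) : chr g k i j x = chr g k j i x := by
  unfold chr
  congr 1
  refine Finset.sum_congr rfl fun l _ => ?_
  have h : (fun y => g y i j) =ᶠ[𝓝 x] (fun y => g y j i) := by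
    filter_upwards [hV.mem_nhds hx] with y hy
    exact hg.symm y hy i j
  rw [koszul_pd_congr h l]
  ring

/-- Partial derivatives of smooth functions are smooth. -/
theorem koszul_contDiffOn_pd {f : E4 → ℝ} {V : Set E4} (hV : IsOpen V)
    (hf : ContDiffOn ℝ ∞ f V) (i : Fin 4) : ContDiffOn ℝ ∞ (pd i f) V := by
  have h := hf.fderiv_of_isOpen (m := ∞) hV (by norm_cast)
  exact h.clm_apply contDiffOn_const

/-- The entries of the inverse matrix are smooth. -/
theorem koszul_contDiffOn_inv {g : Met} {V : Set E4}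
    (hs : ∀ i j, ContDiffOn ℝ ∞ (fun x => g x i j) V) (hu : ∀ x ∈ V, (g x).det ≠ 0)
    (i j : Fin 4) : ContDiffOn ℝ ∞ (fun x => (g x)⁻¹ i j) V := by
  have hdet : ∀ M : E4 → Matrix (Fin 4) (Fin 4) ℝ,
      (∀ i j, ContDiffOn ℝ ∞ (fun x => M x i j) V) → ContDiffOn ℝ ∞ (fun x => (M x).det) V := by
    intro M hM
    simp only [Matrix.det_apply']
    refine ContDiffOn.sum fun σ _ => ?_
    refine contDiffOn_const.mul ?_
    refine contDiffOn_prod fun k _ => hM _ _
  have h1 : ContDiffOn ℝ ∞ (fun x => (g x).adjugate i j) V := by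
    simp only [Matrix.adjugate_apply]
    refine hdet _ fun k l => ?_
    by_cases hk : k = j
    · subst hk
      simp only [Matrix.updateRow_self]
      exact contDiffOn_const
    · simp only [Matrix.updateRow_ne hk]
      exact hs k l
  have h2 : ∀ x ∈ V, (g x)⁻¹ i j = ((g x).det)⁻¹ * (g x).adjugate i j := by
    intro x _
    rw [Matrix.inv_def, Matrix.smul_apply, smul_eq_mul, Ring.inverse_eq_inv']
  refine ContDiffOn.congr ?_ h2
  exact ((hdet g hs).inv hu).mul h1

theorem contDiffOn_chr {g : Met} {V : Set E4} (hV : IsOpen V) (hg : GoodMet g V)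
    (k i j : Fin 4) : ContDiffOn ℝ ∞ (chr g k i j) V := by
  unfold chr
  refine contDiffOn_const.mul ?_
  refine ContDiffOn.sum fun l _ => ?_
  refine (koszul_contDiffOn_inv hg.smooth (fun x hx =>
    (isUnit_det_of_pos (hg.symm x hx) (hg.pos x hx)).ne_zero) k l).mul ?_
  exact ((koszul_contDiffOn_pd hV (hg.smooth _ _) _).add
    (koszul_contDiffOn_pd hV (hg.smooth _ _) _)).sub (koszul_contDiffOn_pd hV (hg.smooth _ _) _)

theorem contDiffOn_ric {g : Met} {V : Set E4} (hV : IsOpen V) (hg : GoodMet g V)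
    (i j : Fin 4) : ContDiffOn ℝ ∞ (ric g i j) V := by
  have hc := contDiffOn_chr hV hg
  unfold ric
  refine ContDiffOn.add ?_ ?_
  · refine ContDiffOn.sum fun k _ => ?_
    exact (koszul_contDiffOn_pd hV (hc _ _ _) _).sub (koszul_contDiffOn_pd hV (hc _ _ _) _)
  · refine ContDiffOn.sum fun k _ => ContDiffOn.sum fun l _ => ?_
    exact ((hc _ _ _).mul (hc _ _ _)).sub ((hc _ _ _).mul (hc _ _ _))

/-- Only the germ of `g` matters. -/
theorem chr_congr {g g' : Met} {x : E4} (h : g =ᶠ[𝓝 x] g') (k i j : Fin 4) :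
    chr g k i j =ᶠ[𝓝 x] chr g' k i j := by
  filter_upwards [h.eventuallyEq_nhds] with y hy
  have h1 : ∀ a b, (fun z => g z a b) =ᶠ[𝓝 y] (fun z => g' z a b) := by
    intro a b
    filter_upwards [hy] with z hz
    rw [hz]
  unfold chr
  rw [hy.eq_of_nhds]
  congr 1
  refine Finset.sum_congr rfl fun l _ => ?_
  rw [koszul_pd_congr (h1 l j), koszul_pd_congr (h1 l i), koszul_pd_congr (h1 i j)]

theorem ricq_congr {g g' : Met} {x : E4} (h : g =ᶠ[𝓝 x] g') (v : E4) :
    ricq g x v = ricq g' x v := by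
  have hc : ∀ k i j, chr g k i j x = chr g' k i j x := fun k i j =>
    (chr_congr h k i j).eq_of_nhds
  have hp : ∀ l k i j, pd l (chr g k i j) x = pd l (chr g' k i j) x := fun l k i j =>
    koszul_pd_congr (chr_congr h k i j) l
  unfold ricq ric
  simp only [hc, hp]

/-- The lower bound `Ric ≥ κ g` on a dense subset implies the bound everywhere. -/
theorem ricGE_of_dense {g : Met} {V D : Set E4} (hV : IsOpen V) (hg : GoodMet g V) {κ : ℝ}
    (hD : V ⊆ closure (D ∩ V)) (h : ∀ x ∈ D ∩ V, RicGE g κ x) : ∀ x ∈ V, RicGE g κ x := by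
  intro x hx v
  have hr : ContinuousAt (fun y => ricq g y v) x := by
    have : ContDiffOn ℝ ∞ (fun y => ricq g y v) V := by
      unfold ricq
      refine ContDiffOn.sum fun i _ => ContDiffOn.sum fun j _ => ?_
      exact ((contDiffOn_ric hV hg i j).mul contDiffOn_const).mul contDiffOn_const
    exact this.continuousOn.continuousAt (hV.mem_nhds hx)
  have hq : ContinuousAt (fun y => κ * qf (g y) v) x := by
    have : ContDiffOn ℝ ∞ (fun y => κ * qf (g y) v) V := by
      unfold qf
      refine contDiffOn_const.mul ?_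
      refine ContDiffOn.sum fun i _ => ContDiffOn.sum fun j _ => ?_
      exact ((hg.smooth i j).mul contDiffOn_const).mul contDiffOn_const
    exact this.continuousOn.continuousAt (hV.mem_nhds hx)
  have : (𝓝[D ∩ V] x).NeBot := mem_closure_iff_nhdsWithin_neBot.mp (hD hx)
  refine le_of_tendsto_of_tendsto (b := 𝓝[D ∩ V] x) (hq.mono_left nhdsWithin_le_nhds)
    (hr.mono_left nhdsWithin_le_nhds) ?_
  filter_upwards [self_mem_nhdsWithin] with y hy
  exact h y hy v

end Pool.Agent.W_MP_654ec6
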