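import Pool.Agent.W_MP_654ec6.A.Trans

/-!
# Task A3: the Ricci tensor is natural

Matrix form. Let `Γ_i` be the matrix `(Γ_i)^k_j = chr g k i j`, `J` the Jacobian matrix and
`Γ~_i = ∑_q J^q_i Γ'_q(θ)`. `chr_trans` says `∂_i J = J Γ_i - Γ~_i J` near `x`. Put
`R_{mi} = ∂_m Γ_i - ∂_i Γ_m + Γ_m Γ_i - Γ_i Γ_m`. From `∂_m ∂_i J = ∂_i ∂_m J` one gets
`J R_{mi} = R~_{mi} J`, where `R~_{mi} = ∂_m Γ~_i - ∂_i Γ~_m + Γ~_m Γ~_i - Γ~_i Γ~_m
= ∑_{q,r} J^q_m J^r_i R'_{qr}(θ)` (the terms with `∂_m J^q_i` cancel by symmetry).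
Since `ric g i j = ∑_k (R_{kj})^k_i` (use `chr_symm`), multiplying by `J⁻¹` gives
`ric g i j = ∑_{q,s} J^q_i J^s_j ric g' q s (θ x)`, hence the claim.
-/

open scoped ContDiff Topology
open Filter

namespace Pool.Agent.W_MP_654ec6

namespace NatAux

theorem pd_congr {f g : E4 → ℝ} {x : E4} (h : f =ᶠ[𝓝 x] g) (i : Fin 4) : pd i f x = pd i g x := by
  unfold pd
  rw [h.fderiv_eq]

theorem pd_add {f g : E4 → ℝ} {x : E4} (hf : DifferentiableAt ℝ f x) (hg : DifferentiableAt ℝ g x)
    (i : Fin 4) : pd i (fun y => f y + g y) x = pd i f x + pd i g x := by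
  unfold pd
  rw [fderiv_fun_add hf hg]
  rfl

theorem pd_mul {f g : E4 → ℝ} {x : E4} (hf : DifferentiableAt ℝ f x) (hg : DifferentiableAt ℝ g x)
    (i : Fin 4) : pd i (fun y => f y * g y) x = pd i f x * g x + f x * pd i g x := by
  unfold pd
  rw [fderiv_fun_mul hf hg]
  simp [smul_eq_mul]
  ring

theorem pd_sum {ι : Type*} (s : Finset ι) {f : ι → E4 → ℝ} {x : E4}
    (hf : ∀ a ∈ s, DifferentiableAt ℝ (f a) x)
    (i : Fin 4) : pd i (fun y => ∑ a ∈ s, f a y) x = ∑ a ∈ s, pd i (f a) x := by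
  unfold pd
  rw [fderiv_fun_sum hf]
  simp

theorem contDiffAt_pd {f : E4 → ℝ} {x : E4} (hf : ContDiffAt ℝ ∞ f x) (i : Fin 4) :
    ContDiffAt ℝ ∞ (pd i f) x := by
  unfold pd
  have h1 : ContDiffAt ℝ ∞ (fderiv ℝ f) x := hf.fderiv_right (by simp)
  exact h1.clm_apply contDiffAt_const

theorem pd_comm {f : E4 → ℝ} {x : E4} (hf : ContDiffAt ℝ ∞ f x) (i j : Fin 4) :
    pd i (pd j f) x = pd j (pd i f) x := by
  have h1 : ContDiffAt ℝ ∞ (fderiv ℝ f) x := hf.fderiv_right (by simp)
  have h2 : DifferentiableAt ℝ (fderiv ℝ f) x := h1.differentiableAt (by simp)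
  have hs : IsSymmSndFDerivAt ℝ f x := hf.isSymmSndFDerivAt (by
    simp only [minSmoothness_of_isRCLikeNormedField]
    exact WithTop.coe_le_coe.mpr le_top)
  have key : ∀ a b : Fin 4, pd a (pd b f) x = fderiv ℝ (fderiv ℝ f) x (bv a) (bv b) := by
    intro a b
    unfold pd
    have h3 : fderiv ℝ (fun y => fderiv ℝ f y (bv b)) x =
        (ContinuousLinearMap.apply ℝ ℝ (bv b)).comp (fderiv ℝ (fderiv ℝ f) x) := by
      have := (ContinuousLinearMap.apply ℝ ℝ (bv b) : (E4 →L[ℝ] ℝ) →L[ℝ] ℝ).hasFDerivAt.comp x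
        h2.hasFDerivAt
      exact this.fderiv
    rw [h3]
    rfl
  rw [key, key]
  exact hs (bv i) (bv j)

theorem contDiffAt_comp {θ : E4 → E4} {x : E4} (h : ContDiffAt ℝ ∞ θ x) (p : Fin 4) :
    ContDiffAt ℝ ∞ (fun y => θ y p) x := by
  exact (contDiffAt_euclidean.mp h) p

theorem contDiffAt_jac {θ : E4 → E4} {x : E4} (h : ContDiffAt ℝ ∞ θ x) (p i : Fin 4) :
    ContDiffAt ℝ ∞ (jac θ p i) x :=
  contDiffAt_pd (contDiffAt_comp h p) i

theorem pd_jac_symm {θ : E4 → E4} {x : E4} (h : ContDiffAt ℝ ∞ θ x) (p i j : Fin 4) :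
    pd i (jac θ p j) x = pd j (jac θ p i) x :=
  pd_comm (contDiffAt_comp h p) i j

theorem pd_compθ {θ : E4 → E4} {x : E4} (h : ContDiffAt ℝ ∞ θ x) {f : E4 → ℝ}
    (hf : DifferentiableAt ℝ f (θ x)) (m : Fin 4) :
    pd m (fun y => f (θ y)) x = ∑ s, pd s f (θ x) * jac θ s m x := by
  have hθ : DifferentiableAt ℝ θ x := h.differentiableAt (by simp)
  have h1 : fderiv ℝ (fun y => f (θ y)) x = (fderiv ℝ f (θ x)).comp (fderiv ℝ θ x) :=
    fderiv_comp x hf hθ
  unfold pd
  rw [h1, ContinuousLinearMap.comp_apply]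
  have h2 : fderiv ℝ θ x (bv m) = ∑ s, jac θ s m x • bv s := by
    ext p
    rw [fderiv_eq_jac hθ]
    simp [bv, Finset.sum_apply, PiLp.single_apply, Pi.single_apply]
  rw [h2, map_sum]
  refine Finset.sum_congr rfl fun s _ => ?_
  rw [map_smul, smul_eq_mul, mul_comm]

/-- The pure matrix identity. -/
theorem mat_id {n : Type*} [Fintype n] [DecidableEq n] (J Gm Gi Hm Hi dJm dJi dd Gmi Gim Hmi Him : Matrix n n ℝ)
    (hm : J * Gm = dJm + Hm * J) (hi : J * Gi = dJi + Hi * J)
    (h1 : dJm * Gi + J * Gmi = dd + (Hmi * J + Hi * dJm))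
    (h2 : dJi * Gm + J * Gim = dd + (Him * J + Hm * dJi)) :
    J * (Gmi - Gim + Gm * Gi - Gi * Gm) = (Hmi - Him + Hm * Hi - Hi * Hm) * J := by
  have e1 : J * Gmi = dd + (Hmi * J + Hi * dJm) - dJm * Gi := by rw [← h1]; abel
  have e2 : J * Gim = dd + (Him * J + Hm * dJi) - dJi * Gm := by rw [← h2]; abel
  have e3 : J * (Gm * Gi) = dJm * Gi + Hm * dJi + Hm * (Hi * J) := by
    rw [← mul_assoc, hm, add_mul, mul_assoc, hi, mul_add]; abel
  have e4 : J * (Gi * Gm) = dJi * Gm + Hi * dJm + Hi * (Hm * J) := by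
    rw [← mul_assoc, hi, add_mul, mul_assoc, hm, mul_add]; abel
  rw [mul_sub, mul_add, mul_sub, e1, e2, e3, e4]
  simp only [sub_mul, add_mul, mul_assoc]
  abel

end NatAux

open NatAux

theorem ric_trans {g g' : Met} {V V' : Set E4} (hV : IsOpen V) (hg : GoodMet g V)
    (hV' : IsOpen V') (hg' : GoodMet g' V') {θ : E4 → E4} {x : E4} (hx : x ∈ V)
    (hx' : θ x ∈ V') (h : IsoAt g g' θ x) (i j : Fin 4) :
    ric g i j x = ∑ p, ∑ q, ric g' p q (θ x) * jac θ p i x * jac θ q j x := by
  have hθ : ContDiffAt ℝ ∞ θ x := h.1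
  have hC : ∀ k i j, ContDiffAt ℝ ∞ (chr g k i j) x := fun k i j =>
    (contDiffOn_chr hV hg k i j).contDiffAt (hV.mem_nhds hx)
  have hC' : ∀ k i j, ContDiffAt ℝ ∞ (chr g' k i j) (θ x) := fun k i j =>
    (contDiffOn_chr hV' hg' k i j).contDiffAt (hV'.mem_nhds hx')
  have hCd : ∀ k i j, DifferentiableAt ℝ (chr g k i j) x := fun k i j =>
    (hC k i j).differentiableAt (by simp)
  have hC'd : ∀ k i j, DifferentiableAt ℝ (chr g' k i j) (θ x) := fun k i j =>
    (hC' k i j).differentiableAt (by simp)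
  have hθd : DifferentiableAt ℝ θ x := hθ.differentiableAt (by simp)
  have hC'c : ∀ k i j, DifferentiableAt ℝ (fun y => chr g' k i j (θ y)) x := fun k i j =>
    (hC'd k i j).comp x hθd
  have hJd : ∀ p i, DifferentiableAt ℝ (jac θ p i) x := fun p i =>
    (contDiffAt_jac hθ p i).differentiableAt (by simp)
  have hdJd : ∀ p i j, DifferentiableAt ℝ (pd i (jac θ p j)) x := fun p i j =>
    (contDiffAt_pd (contDiffAt_jac hθ p j) i).differentiableAt (by simp)
  have htr := chr_trans hV hg hV' hg' hx hx' h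
  -- the matrices
  set J : Matrix (Fin 4) (Fin 4) ℝ := Matrix.of fun p i => jac θ p i x with hJ
  set G : Fin 4 → Matrix (Fin 4) (Fin 4) ℝ := fun i => Matrix.of fun k j => chr g k i j x with hG
  set dG : Fin 4 → Fin 4 → Matrix (Fin 4) (Fin 4) ℝ := fun m i =>
    Matrix.of fun k j => pd m (chr g k i j) x with hdG
  set H : Fin 4 → Matrix (Fin 4) (Fin 4) ℝ := fun i => Matrix.of fun p r =>
    ∑ q, jac θ q i x * chr g' p q r (θ x) with hH
  set dH : Fin 4 → Fin 4 → Matrix (Fin 4) (Fin 4) ℝ := fun m i => Matrix.of fun p r =>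
    ∑ q, (pd m (jac θ q i) x * chr g' p q r (θ x) +
      jac θ q i x * ∑ s, pd s (chr g' p q r) (θ x) * jac θ s m x) with hdH
  set dJ : Fin 4 → Matrix (Fin 4) (Fin 4) ℝ := fun i => Matrix.of fun p j =>
    pd i (jac θ p j) x with hdJ
  set ddJ : Fin 4 → Fin 4 → Matrix (Fin 4) (Fin 4) ℝ := fun m i => Matrix.of fun p j =>
    pd m (pd i (jac θ p j)) x with hddJ
  have ddJ_symm : ∀ m i, ddJ m i = ddJ i m := by
    intro m i
    ext p j
    simp only [hddJ, Matrix.of_apply]
    exact pd_comm (contDiffAt_jac hθ p j) m i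
  have e0 : ∀ i, J * G i = dJ i + H i * J := by
    intro i
    ext p j
    rw [Matrix.mul_apply, Matrix.add_apply, Matrix.mul_apply]
    simp only [hJ, hG, hdJ, hH, Matrix.of_apply]
    rw [htr.self_of_nhds p i j]
    congr 1
    rw [Finset.sum_comm]
    refine Finset.sum_congr rfl fun r _ => ?_
    rw [Finset.sum_mul]
    refine Finset.sum_congr rfl fun q _ => ?_
    ring
  have e1 : ∀ m i, dJ m * G i + J * dG m i = ddJ m i + (dH m i * J + H i * dJ m) := by
    intro m i
    ext p j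
    have hh : (fun y => ∑ k, jac θ p k y * chr g k i j y) =ᶠ[𝓝 x]
        (fun y => pd i (jac θ p j) y + ∑ r, (∑ q, jac θ q i y * chr g' p q r (θ y)) *
          jac θ r j y) := by
      filter_upwards [htr] with y hy
      rw [hy p i j]
      congr 1
      rw [Finset.sum_comm]
      refine Finset.sum_congr rfl fun r _ => ?_
      rw [Finset.sum_mul]
      refine Finset.sum_congr rfl fun q _ => ?_
      ring
    have h1 := pd_congr hh m
    have hHd : ∀ r, DifferentiableAt ℝ (fun y => ∑ q, jac θ q i y * chr g' p q r (θ y)) x := by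
      intro r
      exact DifferentiableAt.fun_sum fun q _ => (hJd q i).fun_mul (hC'c p q r)
    rw [pd_sum _ (fun k _ => (hJd p k).fun_mul (hCd k i j)),
      pd_add (hdJd p i j) (DifferentiableAt.fun_sum fun r _ => (hHd r).fun_mul (hJd r j)),
      pd_sum _ (fun r _ => (hHd r).fun_mul (hJd r j))] at h1
    have h2 : ∀ k, pd m (fun y => jac θ p k y * chr g k i j y) x =
        pd m (jac θ p k) x * chr g k i j x + jac θ p k x * pd m (chr g k i j) x := fun k =>
      pd_mul (hJd p k) (hCd k i j) m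
    have h3 : ∀ r, pd m (fun y => (∑ q, jac θ q i y * chr g' p q r (θ y)) * jac θ r j y) x =
        dH m i p r * jac θ r j x + H i p r * pd m (jac θ r j) x := by
      intro r
      rw [pd_mul (hHd r) (hJd r j), pd_sum _ (fun q _ => (hJd q i).fun_mul (hC'c p q r))]
      congr 1
      congr 1
      simp only [hdH, Matrix.of_apply]
      refine Finset.sum_congr rfl fun q _ => ?_
      rw [pd_mul (hJd q i) (hC'c p q r), pd_compθ hθ (hC'd p q r)]
    simp only [h2, h3, Finset.sum_add_distrib] at h1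
    simp only [Matrix.mul_apply, Matrix.add_apply]
    simp only [hJ, hG, hdG, hdJ, hddJ, Matrix.of_apply] at h1 ⊢
    exact h1
  have e2 : ∀ m i, J * (dG m i - dG i m + G m * G i - G i * G m) =
      (dH m i - dH i m + H m * H i - H i * H m) * J := by
    intro m i
    refine mat_id J (G m) (G i) (H m) (H i) (dJ m) (dJ i) (ddJ m i) (dG m i) (dG i m)
      (dH m i) (dH i m) (e0 m) (e0 i) (e1 m i) ?_
    rw [ddJ_symm m i]
    exact e1 i m
  -- curvature of g'
  set R' : Fin 4 → Fin 4 → Matrix (Fin 4) (Fin 4) ℝ := fun s t => Matrix.of fun p q =>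
    pd s (chr g' p t q) (θ x) - pd t (chr g' p s q) (θ x) +
      ∑ l, (chr g' p s l (θ x) * chr g' l t q (θ x) - chr g' p t l (θ x) * chr g' l s q (θ x))
    with hR'
  have e3 : ∀ m i, dH m i - dH i m + H m * H i - H i * H m =
      ∑ s, ∑ t, (J s m * J t i) • R' s t := by
    intro m i
    ext p r
    have hsymm : ∀ q, pd m (jac θ q i) x = pd i (jac θ q m) x := fun q => pd_jac_symm hθ q m i
    simp only [Matrix.sub_apply, Matrix.add_apply, Matrix.mul_apply, Matrix.sum_apply,
      Matrix.smul_apply, smul_eq_mul, hdH, hH, hR', hJ, Matrix.of_apply]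
    have a1 : ∑ q, (pd m (jac θ q i) x * chr g' p q r (θ x) +
      jac θ q i x * ∑ s, pd s (chr g' p q r) (θ x) * jac θ s m x) -
      ∑ q, (pd i (jac θ q m) x * chr g' p q r (θ x) +
      jac θ q m x * ∑ s, pd s (chr g' p q r) (θ x) * jac θ s i x) =
      ∑ s, ∑ t, jac θ s m x * jac θ t i x *
        (pd s (chr g' p t r) (θ x) - pd t (chr g' p s r) (θ x)) := by
      simp only [hsymm, Finset.sum_add_distrib, add_sub_add_left_eq_sub, mul_sub,
        Finset.sum_sub_distrib, Finset.mul_sum]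
      congr 1
      · rw [Finset.sum_comm]
        refine Finset.sum_congr rfl fun s _ => Finset.sum_congr rfl fun t _ => ?_
        ring
      · refine Finset.sum_congr rfl fun s _ => Finset.sum_congr rfl fun t _ => ?_
        ring
    have a2 : ∀ a b : Fin 4, ∑ l, (∑ q, jac θ q a x * chr g' p q l (θ x)) *
        (∑ q, jac θ q b x * chr g' l q r (θ x)) = ∑ s, ∑ t, jac θ s a x * jac θ t b x *
          ∑ l, chr g' p s l (θ x) * chr g' l t r (θ x) := by
      intro a b
      have : ∀ l, (∑ q, jac θ q a x * chr g' p q l (θ x)) *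
        (∑ q, jac θ q b x * chr g' l q r (θ x)) = ∑ s, ∑ t, jac θ s a x * jac θ t b x *
          (chr g' p s l (θ x) * chr g' l t r (θ x)) := by
        intro l
        rw [Finset.sum_mul_sum]
        refine Finset.sum_congr rfl fun s _ => Finset.sum_congr rfl fun t _ => ?_
        ring
      simp only [this]
      rw [Finset.sum_comm]
      refine Finset.sum_congr rfl fun s _ => ?_
      rw [Finset.sum_comm]
      refine Finset.sum_congr rfl fun t _ => ?_
      rw [Finset.mul_sum]
    rw [a1, a2, a2]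
    have a3 : ∑ s, ∑ t, jac θ s i x * jac θ t m x *
          ∑ l, chr g' p s l (θ x) * chr g' l t r (θ x) = ∑ s, ∑ t, jac θ s m x * jac θ t i x *
          ∑ l, chr g' p t l (θ x) * chr g' l s r (θ x) := by
      rw [Finset.sum_comm]
      refine Finset.sum_congr rfl fun s _ => Finset.sum_congr rfl fun t _ => ?_
      ring
    rw [a3, ← Finset.sum_add_distrib, ← Finset.sum_sub_distrib]
    refine Finset.sum_congr rfl fun s _ => ?_
    rw [← Finset.sum_add_distrib, ← Finset.sum_sub_distrib]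
    refine Finset.sum_congr rfl fun t _ => ?_
    rw [Finset.sum_sub_distrib]
    ring
  have hdet : IsUnit J.det := (jac_invertible hV hg hV' hg' hx hx' h).self_of_nhds
  have e4 : ∀ m i, dG m i - dG i m + G m * G i - G i * G m =
      ∑ s, ∑ t, (J s m * J t i) • (J⁻¹ * R' s t * J) := by
    intro m i
    have := e2 m i
    rw [e3] at this
    have h5 := congrArg (fun M => J⁻¹ * M) this
    simp only [← mul_assoc] at h5
    rw [Matrix.nonsing_inv_mul _ hdet, one_mul] at h5
    rw [h5]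
    simp only [Matrix.mul_sum, Matrix.sum_mul, Matrix.mul_smul, Matrix.smul_mul]
  -- the Ricci tensor as a trace
  have hric : ric g i j x = ∑ k, (dG k j - dG j k + G k * G j - G j * G k) k i := by
    unfold ric
    rw [← Finset.sum_add_distrib]
    refine Finset.sum_congr rfl fun k _ => ?_
    have hs : ∀ a b c, chr g a b c =ᶠ[𝓝 x] chr g a c b := fun a b c => by
      filter_upwards [hV.mem_nhds hx] with y hy using chr_symm hV hg hy a b c
    have hsx : ∀ a b c, chr g a b c x = chr g a c b x := fun a b c => (hs a b c).self_of_nhds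
    simp only [Matrix.sub_apply, Matrix.add_apply, Matrix.mul_apply, hdG, hG, Matrix.of_apply]
    rw [pd_congr (hs k i j) k, pd_congr (hs k i k) j, Finset.sum_sub_distrib]
    have b1 : ∀ l, chr g l i j x = chr g l j i x := fun l => hsx l i j
    have b2 : ∀ l, chr g l i k x = chr g l k i x := fun l => hsx l i k
    simp only [b1, b2]
    ring
  have hric' : ∀ p q, ric g' p q (θ x) = ∑ k, R' k q k p := by
    intro p q
    unfold ric
    rw [← Finset.sum_add_distrib]
    refine Finset.sum_congr rfl fun k _ => ?_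
    have hs : ∀ a b c, chr g' a b c =ᶠ[𝓝 (θ x)] chr g' a c b := fun a b c => by
      filter_upwards [hV'.mem_nhds hx'] with y hy using chr_symm hV' hg' hy a b c
    have hsx : ∀ a b c, chr g' a b c (θ x) = chr g' a c b (θ x) :=
      fun a b c => (hs a b c).self_of_nhds
    simp only [hR', Matrix.of_apply]
    rw [pd_congr (hs k p q) k, pd_congr (hs k p k) q, Finset.sum_sub_distrib,
      Finset.sum_sub_distrib]
    have b1 : ∀ l, chr g' l p q (θ x) = chr g' l q p (θ x) := fun l => hsx l p q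
    have b2 : ∀ l, chr g' l p k (θ x) = chr g' l k p (θ x) := fun l => hsx l p k
    simp only [b1, b2]
  rw [hric]
  have hJJ : ∀ s p, ∑ k, J s k * J⁻¹ k p = if s = p then 1 else 0 := by
    intro s p
    have := Matrix.mul_nonsing_inv J hdet
    have h6 := congrFun (congrFun this s) p
    rw [Matrix.mul_apply, Matrix.one_apply] at h6
    exact h6
  calc ∑ k, (dG k j - dG j k + G k * G j - G j * G k) k i
      = ∑ k, ∑ s, ∑ t, (J s k * J t j) * (J⁻¹ * R' s t * J) k i := by
        refine Finset.sum_congr rfl fun k _ => ?_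
        rw [e4, Matrix.sum_apply]
        refine Finset.sum_congr rfl fun s _ => ?_
        rw [Matrix.sum_apply]
        refine Finset.sum_congr rfl fun t _ => ?_
        rw [Matrix.smul_apply, smul_eq_mul]
    _ = ∑ s, ∑ t, ∑ k, (J s k * J t j) * (J⁻¹ * (R' s t * J)) k i := by
        rw [Finset.sum_comm]
        refine Finset.sum_congr rfl fun s _ => ?_
        rw [Finset.sum_comm]
        simp only [mul_assoc]
    _ = ∑ s, ∑ t, J t j * ∑ p, (∑ k, J s k * J⁻¹ k p) * (R' s t * J) p i := by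
        refine Finset.sum_congr rfl fun s _ => Finset.sum_congr rfl fun t _ => ?_
        simp only [Matrix.mul_apply (M := J⁻¹), Finset.sum_mul, Finset.mul_sum]
        rw [Finset.sum_comm]
        refine Finset.sum_congr rfl fun p _ => Finset.sum_congr rfl fun k _ => ?_
        ring
    _ = ∑ s, ∑ t, J t j * (R' s t * J) s i := by
        refine Finset.sum_congr rfl fun s _ => Finset.sum_congr rfl fun t _ => ?_
        simp only [hJJ, ite_mul, one_mul, zero_mul, Finset.sum_ite_eq, Finset.mem_univ, if_true]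
    _ = ∑ p, ∑ q, ric g' p q (θ x) * J p i * J q j := by
        simp only [hric', Matrix.mul_apply, Finset.sum_mul, Finset.mul_sum]
        rw [Finset.sum_comm (s := Finset.univ) (t := Finset.univ)
          (f := fun p q => ∑ k, R' k q k p * J p i * J q j)]
        rw [Finset.sum_comm]
        refine Finset.sum_congr rfl fun t _ => ?_
        rw [Finset.sum_comm]
        refine Finset.sum_congr rfl fun p _ => Finset.sum_congr rfl fun s _ => ?_
        ring

theorem ricq_iso {g g' : Met} {V V' : Set E4} (hV : IsOpen V) (hg : GoodMet g V)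
    (hV' : IsOpen V') (hg' : GoodMet g' V') {θ : E4 → E4} {x : E4} (hx : x ∈ V)
    (hx' : θ x ∈ V') (h : IsoAt g g' θ x) (v : E4) :
    ricq g x v = ricq g' (θ x) (fderiv ℝ θ x v) := by
  have hθd : DifferentiableAt ℝ θ x := h.1.differentiableAt (by simp)
  unfold ricq
  simp only [fderiv_eq_jac hθd, ric_trans hV hg hV' hg' hx hx' h]
  have : ∀ p q, ric g' p q (θ x) * (∑ i, jac θ p i x * v i) * (∑ j, jac θ q j x * v j) =
      ∑ i, ∑ j, ric g' p q (θ x) * jac θ p i x * jac θ q j x * v i * v j := by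
    intro p q
    rw [mul_assoc, Finset.sum_mul_sum, Finset.mul_sum]
    refine Finset.sum_congr rfl fun i _ => ?_
    rw [Finset.mul_sum]
    refine Finset.sum_congr rfl fun j _ => ?_
    ring
  simp only [this]
  simp only [Finset.sum_mul]
  calc ∑ i, ∑ j, ∑ p, ∑ q, ric g' p q (θ x) * jac θ p i x * jac θ q j x * v i * v j
      = ∑ i, ∑ p, ∑ j, ∑ q, ric g' p q (θ x) * jac θ p i x * jac θ q j x * v i * v j := by
        refine Finset.sum_congr rfl fun i _ => ?_
        rw [Finset.sum_comm]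
    _ = ∑ p, ∑ i, ∑ j, ∑ q, ric g' p q (θ x) * jac θ p i x * jac θ q j x * v i * v j := by
        rw [Finset.sum_comm]
    _ = ∑ p, ∑ i, ∑ q, ∑ j, ric g' p q (θ x) * jac θ p i x * jac θ q j x * v i * v j := by
        refine Finset.sum_congr rfl fun p _ => Finset.sum_congr rfl fun i _ => ?_
        rw [Finset.sum_comm]
    _ = ∑ p, ∑ q, ∑ i, ∑ j, ric g' p q (θ x) * jac θ p i x * jac θ q j x * v i * v j := by
        refine Finset.sum_congr rfl fun p _ => ?_
        rw [Finset.sum_comm]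

theorem ricGE_iso {g g' : Met} {V V' : Set E4} (hV : IsOpen V) (hg : GoodMet g V)
    (hV' : IsOpen V') (hg' : GoodMet g' V') {θ : E4 → E4} {x : E4} (hx : x ∈ V)
    (hx' : θ x ∈ V') (h : IsoAt g g' θ x) {κ : ℝ} : RicGE g κ x ↔ RicGE g' κ (θ x) := by
  have hq := h.2.self_of_nhds
  have hinj : Function.Injective (fderiv ℝ θ x) := by
    rw [injective_iff_map_eq_zero]
    intro v hv
    by_contra hne
    have h1 := hg.pos x hx v hne
    rw [← hq v, hv] at h1
    simp [qf] at h1
  have hsurj : Function.Surjective (fderiv ℝ θ x) :=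
    (LinearMap.injective_iff_surjective (f := (fderiv ℝ θ x).toLinearMap)).mp hinj
  constructor
  · intro hr w
    obtain ⟨v, rfl⟩ := hsurj w
    rw [← ricq_iso hV hg hV' hg' hx hx' h v, hq v]
    exact hr v
  · intro hr v
    rw [ricq_iso hV hg hV' hg' hx hx' h v, ← hq v]
    exact hr _

/-- If the metric `g'` on `V'` is the image of the metric `g` on `V` under a map `Π` with dense
image, and `Ric g ≥ κ g` on `V`, then `Ric g' ≥ κ g'` on `V'`. -/
theorem ricGE_of_param {g g' : Met} {V V' : Set E4} (hV : IsOpen V) (hg : GoodMet g V)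
    (hV' : IsOpen V') (hg' : GoodMet g' V') {Q : E4 → E4} (hQ : ∀ x ∈ V, Q x ∈ V')
    (hiso : ∀ x ∈ V, IsoAt g g' Q x) (hd : V' ⊆ closure (Q '' V)) {κ : ℝ}
    (h : ∀ x ∈ V, RicGE g κ x) : ∀ x ∈ V', RicGE g' κ x := by
  refine ricGE_of_dense hV' hg' (D := Q '' V) ?_ ?_
  · intro y hy
    refine closure_mono ?_ (hd hy)
    rintro _ ⟨x, hx, rfl⟩
    exact ⟨⟨x, hx, rfl⟩, hQ x hx⟩
  · rintro _ ⟨⟨x, hx, rfl⟩, _⟩
    exact (ricGE_iso hV hg hV' hg' hx (hQ x hx) (hiso x hx)).mp (h x hx)

end Pool.Agent.W_MP_654ec6
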