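import Pool.Agent.W_MP_654ec6.A.Defs

/-!
# Task A4: scaling

`(c g)⁻¹ = c⁻¹ g⁻¹`, so the Christoffel symbols and the Ricci tensor of `c g` are those of `g`.
-/

open scoped ContDiff Topology
open Filter

namespace Pool.Agent.W_MP_654ec6

/-- The metric `c g`. -/
noncomputable def smulMet (c : ℝ) (g : Met) : Met := fun x => c • g x

theorem scale_apply (c : ℝ) (g : Met) (x : E4) (i j : Fin 4) :
    smulMet c g x i j = c * g x i j := rfl

theorem qf_smulMet (c : ℝ) (g : Met) (x v : E4) : qf (smulMet c g x) v = c * qf (g x) v := by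
  unfold qf
  rw [Finset.mul_sum]
  refine Finset.sum_congr rfl fun i _ => ?_
  rw [Finset.mul_sum]
  refine Finset.sum_congr rfl fun j _ => ?_
  rw [scale_apply]
  ring

theorem goodMet_smul {g : Met} {V : Set E4} (hg : GoodMet g V) {c : ℝ} (hc : 0 < c) :
    GoodMet (smulMet c g) V := by
  refine ⟨fun i j => ?_, fun x hx i j => ?_, fun x hx v hv => ?_⟩
  · exact contDiffOn_const.mul (hg.smooth i j)
  · rw [scale_apply, scale_apply, hg.symm x hx i j]
  · rw [qf_smulMet]
    exact mul_pos hc (hg.pos x hx v hv)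

theorem scale_pd (c : ℝ) (f : E4 → ℝ) (i : Fin 4) (x : E4) :
    pd i (fun y => c * f y) x = c * pd i f x := by
  unfold pd
  have h : (fun y => c * f y) = c • f := rfl
  rw [h, fderiv_const_smul_field]
  rfl

theorem scale_inv (a : Matrix (Fin 4) (Fin 4) ℝ) {c : ℝ} (hc : c ≠ 0) :
    (c • a)⁻¹ = c⁻¹ • a⁻¹ := by
  by_cases h : IsUnit a.det
  · have : Invertible c := invertibleOfNonzero hc
    rw [Matrix.inv_smul a c h, invOf_eq_inv]
  · have h2 : ¬ IsUnit (c • a).det := by
      rw [Matrix.det_smul]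
      intro h3
      exact h (isUnit_of_mul_isUnit_right h3)
    rw [Matrix.nonsing_inv_apply_not_isUnit _ h, Matrix.nonsing_inv_apply_not_isUnit _ h2,
      smul_zero]

theorem scale_chr (g : Met) {c : ℝ} (hc : c ≠ 0) (k i j : Fin 4) :
    chr (smulMet c g) k i j = chr g k i j := by
  funext x
  unfold chr
  congr 1
  refine Finset.sum_congr rfl fun l _ => ?_
  have h1 : (smulMet c g x)⁻¹ k l = c⁻¹ * (g x)⁻¹ k l := by
    change (c • g x)⁻¹ k l = _
    rw [scale_inv _ hc]
    rfl
  simp only [scale_apply, scale_pd]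
  rw [h1]
  field_simp

theorem ricq_smul (g : Met) {c : ℝ} (hc : c ≠ 0) (x v : E4) :
    ricq (smulMet c g) x v = ricq g x v := by
  unfold ricq ric
  simp only [scale_chr g hc]

theorem ricGE_smul {g : Met} {c κ : ℝ} (hc : 0 < c) {x : E4} (h : RicGE g κ x) :
    RicGE (smulMet c g) (κ / c) x := by
  intro v
  rw [ricq_smul g hc.ne', qf_smulMet]
  have h1 := h v
  have h2 : κ / c * (c * qf (g x) v) = κ * qf (g x) v := by
    field_simp
  rw [h2]
  exact h1

end Pool.Agent.W_MP_654ec6
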