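import Pool.Agent.W_MP_654ec6.A.Koszul

/-!
# Task A2: transformation of the Christoffel symbols

Write `J^p_i(x) = pd i (fun y => θ y p) x` (so `fderiv ℝ θ x v p = ∑ i, J^p_i v_i`). Polarising
the isometry condition gives `g_{ij}(x) = ∑_{p,q} g'_{pq}(θ x) J^p_i(x) J^q_j(x)` near `x`
(`iso_coeff`). The claim `chr_trans` is
`∑_k J^p_k Γ^k_{ij} = ∂_i J^p_j + ∑_{q,r} Γ'^p_{qr}(θ x) J^q_i J^r_j`.

Proof. `J` is invertible (if `J v = 0` then `qf (g x) v = 0`, so `v = 0`). Put
`c^k = ∑_p (J⁻¹)^k_p (∂_i J^p_j + ∑ Γ'^p_{qr} J^q_i J^r_j)`. By `chr_unique` it is enough to check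
`∑_k g_{lk} c^k = (∂_i g_{lj} + ∂_j g_{li} - ∂_l g_{ij}) / 2`. The left hand side is
`∑_{m,p} J^m_l g'_{mp} (∂_i J^p_j + ∑ Γ'^p_{qr} J^q_i J^r_j)`; on the right hand side insert
`∂_i g_{lj} = ∑ (∂_s g'_{pq})(θ) J^s_i J^p_l J^q_j + ∑ g'_{pq} (∂_i J^p_l J^q_j + J^p_l ∂_i J^q_j)`
and use the symmetry of second derivatives `∂_i J^p_j = ∂_j J^p_i` and `chr_koszul` for `g'`.
-/

open scoped ContDiff Topology
open Filter

namespace Pool.Agent.W_MP_654ec6

/-- The Jacobian matrix `J^p_i`. -/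
noncomputable def jac (θ : E4 → E4) (p i : Fin 4) (x : E4) : ℝ := pd i (fun y => θ y p) x

theorem trans_sum_bv (v : E4) : v = ∑ i, v i • bv i := by
  ext p
  simp [bv, Pi.single_apply]

theorem trans_bv_apply (i j : Fin 4) : bv i j = if j = i then 1 else 0 := by
  simp [bv, Pi.single_apply]

theorem trans_fderiv_sum (f : E4 → ℝ) (x v : E4) :
    fderiv ℝ f x v = ∑ s, v s * pd s f x := by
  conv_lhs => rw [trans_sum_bv v]
  rw [map_sum]
  refine Finset.sum_congr rfl fun s _ => ?_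
  rw [map_smul, smul_eq_mul]
  rfl

theorem trans_fderiv_coord {θ : E4 → E4} {x : E4} (h : DifferentiableAt ℝ θ x) (p : Fin 4)
    (v : E4) : fderiv ℝ (fun y => θ y p) x v = fderiv ℝ θ x v p := by
  have h1 : HasFDerivAt (fun y => θ y p) ((EuclideanSpace.proj p : E4 →L[ℝ] ℝ).comp
      (fderiv ℝ θ x)) x :=
    (EuclideanSpace.proj p : E4 →L[ℝ] ℝ).hasFDerivAt.comp x h.hasFDerivAt
  rw [h1.fderiv]
  rfl

theorem fderiv_eq_jac {θ : E4 → E4} {x : E4} (h : DifferentiableAt ℝ θ x) (v : E4) (p : Fin 4) :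
    fderiv ℝ θ x v p = ∑ i, jac θ p i x * v i := by
  rw [← trans_fderiv_coord h, trans_fderiv_sum]
  exact Finset.sum_congr rfl fun i _ => mul_comm _ _

theorem trans_qf_add (a : Matrix (Fin 4) (Fin 4) ℝ) (v w : E4) :
    qf a (v + w) = qf a v + qf a w + ∑ i, ∑ j, a i j * (v i * w j + w i * v j) := by
  unfold qf
  simp only [← Finset.sum_add_distrib]
  refine Finset.sum_congr rfl fun i _ => Finset.sum_congr rfl fun j _ => ?_
  simp only [PiLp.add_apply]
  ring

theorem trans_qf_bv (a : Matrix (Fin 4) (Fin 4) ℝ) (i j : Fin 4) :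
    a i j + a j i = qf a (bv i + bv j) - qf a (bv i) - qf a (bv j) := by
  have key : ∀ p q : Fin 4, ∑ x, ∑ y, a x y * (bv p x * bv q y) = a p q := by
    intro p q
    rw [Finset.sum_eq_single p, Finset.sum_eq_single q]
    · simp [trans_bv_apply]
    · intro y _ hy
      simp [trans_bv_apply, hy]
    · intro hq
      exact absurd (Finset.mem_univ q) hq
    · intro y _ hy
      simp [trans_bv_apply, hy]
    · intro hq
      exact absurd (Finset.mem_univ p) hq
  rw [trans_qf_add]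
  simp only [mul_add, Finset.sum_add_distrib]
  rw [key i j, key j i]
  ring

theorem trans_eq_of_qf {a b : Matrix (Fin 4) (Fin 4) ℝ} (ha : ∀ i j, a i j = a j i)
    (hb : ∀ i j, b i j = b j i) (h : ∀ v : E4, qf a v = qf b v) (i j : Fin 4) :
    a i j = b i j := by
  have h1 := trans_qf_bv a i j
  have h2 := trans_qf_bv b i j
  rw [h, h, h, ← h2, ← ha i j, ← hb i j] at h1
  linarith

theorem iso_coeff {g g' : Met} {V V' : Set E4} (hV : IsOpen V) (hg : GoodMet g V)
    (hV' : IsOpen V') (hg' : GoodMet g' V') {θ : E4 → E4} {x : E4} (hx : x ∈ V)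
    (hx' : θ x ∈ V') (h : IsoAt g g' θ x) :
    ∀ᶠ y in 𝓝 x, ∀ i j, g y i j = ∑ p, ∑ q, g' (θ y) p q * jac θ p i y * jac θ q j y := by
  have hd : ∀ᶠ y in 𝓝 x, DifferentiableAt ℝ θ y := by
    have h1 : ContDiffAt ℝ 1 θ x := h.1.of_le (by exact_mod_cast le_top)
    exact (h1.eventually (by simp)).mono fun y hy => hy.differentiableAt (by simp)
  filter_upwards [h.2, hd, hV.mem_nhds hx,
    h.1.continuousAt.preimage_mem_nhds (hV'.mem_nhds hx')] with y h1 h2 h3 h4
  have hsymm : ∀ i j, ∑ p, ∑ q, g' (θ y) p q * jac θ p i y * jac θ q j y =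
      ∑ p, ∑ q, g' (θ y) p q * jac θ p j y * jac θ q i y := by
    intro i j
    rw [Finset.sum_comm]
    refine Finset.sum_congr rfl fun p _ => Finset.sum_congr rfl fun q _ => ?_
    rw [hg'.symm (θ y) h4 q p]
    ring
  refine trans_eq_of_qf (a := g y)
    (b := Matrix.of fun i j => ∑ p, ∑ q, g' (θ y) p q * jac θ p i y * jac θ q j y)
    (hg.symm y h3) (fun i j => hsymm i j) ?_
  intro v
  rw [← h1 v]
  unfold qf
  simp only [fderiv_eq_jac h2, Matrix.of_apply, Fin.sum_univ_four]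
  ring

theorem jac_invertible {g g' : Met} {V V' : Set E4} (hV : IsOpen V) (hg : GoodMet g V)
    (hV' : IsOpen V') (hg' : GoodMet g' V') {θ : E4 → E4} {x : E4} (hx : x ∈ V)
    (hx' : θ x ∈ V') (h : IsoAt g g' θ x) :
    ∀ᶠ y in 𝓝 x, IsUnit (Matrix.of fun p i => jac θ p i y : Matrix (Fin 4) (Fin 4) ℝ).det := by
  have hd : ∀ᶠ y in 𝓝 x, DifferentiableAt ℝ θ y := by
    have h1 : ContDiffAt ℝ 1 θ x := h.1.of_le (by exact_mod_cast le_top)
    exact (h1.eventually (by simp)).mono fun y hy => hy.differentiableAt (by simp)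
  filter_upwards [h.2, hd, hV.mem_nhds hx] with y h1 h2 h3
  rw [isUnit_iff_ne_zero]
  intro h0
  obtain ⟨v, hv, hv0⟩ := Matrix.exists_mulVec_eq_zero_iff.mpr h0
  have hw : WithLp.toLp 2 v ≠ (0 : E4) := by
    intro hw
    apply hv
    have := congrArg WithLp.ofLp hw
    simpa using this
  have h4 := hg.pos y h3 _ hw
  rw [← h1] at h4
  have h5 : fderiv ℝ θ y (WithLp.toLp 2 v) = 0 := by
    ext p
    rw [fderiv_eq_jac h2]
    have := congrFun hv0 p
    simpa [Matrix.mulVec, dotProduct] using this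
  rw [h5] at h4
  simp [qf] at h4

theorem trans_pd_jac_symm {f : E4 → ℝ} {y : E4} (h : ContDiffAt ℝ 2 f y) (i l : Fin 4) :
    pd i (pd l f) y = pd l (pd i f) y := by
  have h1 : DifferentiableAt ℝ (fderiv ℝ f) y :=
    (h.fderiv_right (m := 1) (by norm_num)).differentiableAt (by simp)
  have h2 : ∀ v w : E4, fderiv ℝ (fun z => fderiv ℝ f z v) y w = fderiv ℝ (fderiv ℝ f) y w v := by
    intro v w
    have h3 : HasFDerivAt (fun z => fderiv ℝ f z v)
        ((ContinuousLinearMap.apply ℝ ℝ v).comp (fderiv ℝ (fderiv ℝ f) y)) y :=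
      (ContinuousLinearMap.apply ℝ ℝ v).hasFDerivAt.comp y h1.hasFDerivAt
    rw [h3.fderiv]
    rfl
  have h4 := h.isSymmSndFDerivAt (by simp)
  have h5 := h4 (bv i) (bv l)
  have e1 : pd i (pd l f) y = fderiv ℝ (fderiv ℝ f) y (bv i) (bv l) := h2 (bv l) (bv i)
  have e2 : pd l (pd i f) y = fderiv ℝ (fderiv ℝ f) y (bv l) (bv i) := h2 (bv i) (bv l)
  rw [e1, e2, h5]

theorem trans_jac_diff {θ : E4 → E4} {y : E4} (h : ContDiffAt ℝ 2 θ y) (p i : Fin 4) :
    DifferentiableAt ℝ (jac θ p i) y := by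
  have h0 : ContDiffAt ℝ 2 (fun z => θ z p) y :=
    (EuclideanSpace.proj p : E4 →L[ℝ] ℝ).contDiff.contDiffAt.comp y h
  have h1 : DifferentiableAt ℝ (fderiv ℝ (fun z => θ z p)) y :=
    (h0.fderiv_right (m := 1) (by norm_num)).differentiableAt (by simp)
  exact ((ContinuousLinearMap.apply ℝ ℝ (bv i)).differentiableAt.comp y h1 :)

theorem trans_jac_symm {θ : E4 → E4} {y : E4} (h : ContDiffAt ℝ 2 θ y) (p i l : Fin 4) :
    pd i (jac θ p l) y = pd l (jac θ p i) y := by
  have h0 : ContDiffAt ℝ 2 (fun z => θ z p) y :=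
    (EuclideanSpace.proj p : E4 →L[ℝ] ℝ).contDiff.contDiffAt.comp y h
  exact trans_pd_jac_symm h0 i l

theorem trans_pd_comp {f : E4 → ℝ} {θ : E4 → E4} {y : E4} (hf : DifferentiableAt ℝ f (θ y))
    (hθ : DifferentiableAt ℝ θ y) (m : Fin 4) :
    pd m (fun z => f (θ z)) y = ∑ s, pd s f (θ y) * jac θ s m y := by
  have h1 : fderiv ℝ (fun z => f (θ z)) y = (fderiv ℝ f (θ y)).comp (fderiv ℝ θ y) :=
    (hf.hasFDerivAt.comp y hθ.hasFDerivAt).fderiv
  unfold pd
  rw [h1, ContinuousLinearMap.comp_apply, trans_fderiv_sum]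
  refine Finset.sum_congr rfl fun s _ => ?_
  rw [← trans_fderiv_coord hθ, mul_comm]
  rfl

theorem trans_pd_mul3 {a b c : E4 → ℝ} {y : E4} (ha : DifferentiableAt ℝ a y)
    (hb : DifferentiableAt ℝ b y) (hc : DifferentiableAt ℝ c y) (m : Fin 4) :
    pd m (fun z => a z * b z * c z) y =
      pd m a y * b y * c y + a y * pd m b y * c y + a y * b y * pd m c y := by
  have h1 := (ha.hasFDerivAt.mul hb.hasFDerivAt).mul hc.hasFDerivAt
  unfold pd
  rw [show (fun z => a z * b z * c z) = (a * b) * c from rfl, h1.fderiv]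
  simp only [add_apply, smul_apply, smul_eq_mul,
    Pi.mul_apply]
  ring

theorem trans_pd_sum {ι : Type} (t : Finset ι) {f : ι → E4 → ℝ} {y : E4}
    (h : ∀ i ∈ t, DifferentiableAt ℝ (f i) y) (m : Fin 4) :
    pd m (fun z => ∑ i ∈ t, f i z) y = ∑ i ∈ t, pd m (f i) y := by
  unfold pd
  rw [fderiv_fun_sum h, sum_apply]

theorem trans_alg (G : Fin 4 → Fin 4 → ℝ) (D Γ : Fin 4 → Fin 4 → Fin 4 → ℝ)
    (a b c Hab Hac Hbc : Fin 4 → ℝ) (hG : ∀ p q, G p q = G q p)
    (hΓ : ∀ m q r, ∑ p, G m p * Γ p q r = (1 / 2) * (D q m r + D r m q - D m q r)) :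
    ∑ m, ∑ p, G m p * a m * (Hbc p + ∑ q, ∑ r, Γ p q r * b q * c r) =
      (1 / 2) * (∑ p, ∑ q, ((∑ s, D s p q * b s) * a p * c q + G p q * Hab p * c q +
          G p q * a p * Hbc q) +
        ∑ p, ∑ q, ((∑ s, D s p q * c s) * a p * b q + G p q * Hac p * b q +
          G p q * a p * Hbc q) -
        ∑ p, ∑ q, ((∑ s, D s p q * a s) * b p * c q + G p q * Hab p * c q +
          G p q * b p * Hac q)) := by
  have e1 : ∀ m, ∑ p, G m p * a m * (Hbc p + ∑ q, ∑ r, Γ p q r * b q * c r) =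
      ∑ p, G m p * a m * Hbc p +
        a m * ∑ q, ∑ r, (∑ p, G m p * Γ p q r) * (b q * c r) := by
    intro m
    simp only [mul_add, Finset.sum_add_distrib]
    congr 1
    simp only [Finset.mul_sum, Finset.sum_mul]
    rw [Finset.sum_comm]
    refine Finset.sum_congr rfl fun q _ => ?_
    rw [Finset.sum_comm]
    refine Finset.sum_congr rfl fun r _ => Finset.sum_congr rfl fun p _ => ?_
    ring
  have e2 : ∑ p, ∑ q, G p q * Hac p * b q = ∑ p, ∑ q, G p q * b p * Hac q := by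
    rw [Finset.sum_comm]
    refine Finset.sum_congr rfl fun q _ => Finset.sum_congr rfl fun p _ => ?_
    rw [hG]
    ring
  have e3 : ∑ m, a m * ∑ q, ∑ r, ((1 / 2) * (D q m r + D r m q - D m q r)) * (b q * c r) =
      (1 / 2) * (∑ p, ∑ q, (∑ s, D s p q * b s) * a p * c q +
        ∑ p, ∑ q, (∑ s, D s p q * c s) * a p * b q -
        ∑ p, ∑ q, (∑ s, D s p q * a s) * b p * c q) := by
    simp only [Fin.sum_univ_four]
    ring
  simp only [e1, hΓ, Finset.sum_add_distrib, e3, e2]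
  ring

theorem chr_trans {g g' : Met} {V V' : Set E4} (hV : IsOpen V) (hg : GoodMet g V)
    (hV' : IsOpen V') (hg' : GoodMet g' V') {θ : E4 → E4} {x : E4} (hx : x ∈ V)
    (hx' : θ x ∈ V') (h : IsoAt g g' θ x) :
    ∀ᶠ y in 𝓝 x, ∀ p i j, ∑ k, jac θ p k y * chr g k i j y =
      pd i (jac θ p j) y + ∑ q, ∑ r, chr g' p q r (θ y) * jac θ q i y * jac θ r j y := by
  have hd : ∀ᶠ y in 𝓝 x, ContDiffAt ℝ 2 θ y := by
    have h1 : ContDiffAt ℝ 2 θ x := h.1.of_le (ENat.LEInfty.out)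
    exact h1.eventually (by simp)
  filter_upwards [(iso_coeff hV hg hV' hg' hx hx' h).eventually_nhds,
    jac_invertible hV hg hV' hg' hx hx' h, hd, hV.mem_nhds hx,
    h.1.continuousAt.preimage_mem_nhds (hV'.mem_nhds hx')] with y h1 h2 h3 h4 h5
  have hθ : DifferentiableAt ℝ θ y := h3.differentiableAt (by simp)
  have hgd : ∀ p q, DifferentiableAt ℝ (fun z => g' z p q) (θ y) := fun p q =>
    ((hg'.smooth p q).contDiffAt (hV'.mem_nhds h5)).differentiableAt (by simp)
  -- derivatives of the coefficients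
  have hder : ∀ m i j, pd m (fun z => g z i j) y = ∑ p, ∑ q,
      ((∑ s, pd s (fun z => g' z p q) (θ y) * jac θ s m y) * jac θ p i y * jac θ q j y +
        g' (θ y) p q * pd m (jac θ p i) y * jac θ q j y +
        g' (θ y) p q * jac θ p i y * pd m (jac θ q j) y) := by
    intro m i j
    have e1 : (fun z => g z i j) =ᶠ[𝓝 y]
        fun z => ∑ p, ∑ q, g' (θ z) p q * jac θ p i z * jac θ q j z :=
      h1.mono fun z hz => hz i j
    have e2 : pd m (fun z => g z i j) y =
        pd m (fun z => ∑ p, ∑ q, g' (θ z) p q * jac θ p i z * jac θ q j z) y := by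
      unfold pd
      rw [e1.fderiv_eq]
    have hgθ : ∀ p q, DifferentiableAt ℝ (fun z => g' (θ z) p q) y := fun p q =>
      (hgd p q).comp y hθ
    have hprod : ∀ p q, DifferentiableAt ℝ
        (fun z => g' (θ z) p q * jac θ p i z * jac θ q j z) y := fun p q =>
      ((hgθ p q).mul (trans_jac_diff h3 p i)).mul (trans_jac_diff h3 q j)
    rw [e2, trans_pd_sum _ fun p _ => DifferentiableAt.fun_sum fun q _ => hprod p q]
    refine Finset.sum_congr rfl fun p _ => ?_
    rw [trans_pd_sum _ fun q _ => hprod p q]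
    refine Finset.sum_congr rfl fun q _ => ?_
    rw [trans_pd_mul3 (hgθ p q) (trans_jac_diff h3 p i) (trans_jac_diff h3 q j),
      trans_pd_comp (hgd p q) hθ]
  intro p i j
  set J : Matrix (Fin 4) (Fin 4) ℝ := Matrix.of fun p i => jac θ p i y with hJ
  set T : Fin 4 → ℝ := fun p => pd i (jac θ p j) y +
    ∑ q, ∑ r, chr g' p q r (θ y) * jac θ q i y * jac θ r j y with hT
  set c : Fin 4 → ℝ := J⁻¹.mulVec T with hc
  have hJc : J.mulVec c = T := by
    rw [hc, Matrix.mulVec_mulVec, Matrix.mul_nonsing_inv J h2, Matrix.one_mulVec]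
  have hchr : ∀ k, chr g k i j y = c k := by
    intro k
    refine chr_unique hV hg h4 i j c ?_ k
    intro l
    have e1 : ∑ k, g y l k * c k = ∑ m, ∑ p, g' (θ y) m p * jac θ m l y * T p := by
      have e3 : ∀ k, g y l k * c k =
          ∑ m, ∑ p, g' (θ y) m p * jac θ m l y * (J p k * c k) := by
        intro k
        rw [h1.self_of_nhds l k, Finset.sum_mul]
        refine Finset.sum_congr rfl fun m _ => ?_
        rw [Finset.sum_mul]
        refine Finset.sum_congr rfl fun p _ => ?_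
        simp only [hJ, Matrix.of_apply]
        ring
      simp only [e3]
      rw [Finset.sum_comm]
      refine Finset.sum_congr rfl fun m _ => ?_
      rw [Finset.sum_comm]
      refine Finset.sum_congr rfl fun p _ => ?_
      rw [← Finset.mul_sum, ← hJc]
      rfl
    rw [e1, hder, hder, hder]
    have halg := trans_alg (fun p q => g' (θ y) p q)
      (fun s p q => pd s (fun z => g' z p q) (θ y)) (fun p q r => chr g' p q r (θ y))
      (fun p => jac θ p l y) (fun p => jac θ p i y) (fun p => jac θ p j y)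
      (fun p => pd i (jac θ p l) y) (fun p => pd j (jac θ p l) y) (fun p => pd i (jac θ p j) y)
      (fun p q => hg'.symm (θ y) h5 p q) (fun m q r => chr_koszul hV' hg' h5 m q r)
    rw [halg]
    simp only [trans_jac_symm h3 _ j i, trans_jac_symm h3 _ l i, trans_jac_symm h3 _ l j]
  have h6 := congrFun hJc p
  simp only [Matrix.mulVec, dotProduct, hJ, Matrix.of_apply] at h6
  simp only [hchr]
  exact h6

end Pool.Agent.W_MP_654ec6
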