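import Pool.Agent.W_MP_654ec6.A.WarpA

/-!
# Task A5: the Ricci tensor of `dt² + A² dx² + b² (dθ² + sin² θ dφ²)`

The nonzero Christoffel symbols (coordinates `0 = t, 1 = x, 2 = θ, 3 = φ`), near the point:
`Γ^0_11 = -A A_t`, `Γ^0_22 = -b b_t`, `Γ^0_33 = -b b_t sin²θ`,
`Γ^1_01 = Γ^1_10 = A_t / A`, `Γ^1_11 = A_x / A`, `Γ^1_22 = -b b_x / A²`,
`Γ^1_33 = -b b_x sin²θ / A²`,
`Γ^2_02 = b_t / b`, `Γ^2_12 = b_x / b`, `Γ^2_33 = -sin θ cos θ`,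
`Γ^3_03 = b_t / b`, `Γ^3_13 = b_x / b`, `Γ^3_23 = cos θ / sin θ` (and the symmetric ones).
These formulas hold in a
neighbourhood, so they can be differentiated once more. The result, with
`Rtt = -A_tt/A - 2 b_tt/b`, `Rtx = -2 (b_tx - A_t b_x / A) / (A b)`,
`Rxx = -A_tt/A - 2 (A_t b_t/(A b) + (b_xx - A_x b_x / A)/(A² b))`,
`Rss = -b_tt/b - (A_t b_t/(A b) + (b_xx - A_x b_x/A)/(A² b)) + (1 - b_t² - b_x²/A²)/b²`,
is `Ric(v,v) = Rtt v0² + 2 Rtx v0 (A v1) + Rxx (A v1)² + Rss ((b v2)² + (b sin θ v3)²)`.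
(Checked numerically. The off-diagonal components other than `01` vanish.)
-/

open scoped ContDiff Topology
open Filter

namespace Pool.Agent.W_MP_654ec6

theorem warp_f4 {P : Fin 4 → Prop} (h0 : P 0) (h1 : P 1) (h2 : P 2) (h3 : P 3) : ∀ i, P i
  | 0 => h0
  | 1 => h1
  | 2 => h2
  | 3 => h3

theorem warp_t1 {α β γ : Type} {W : α → β → γ → Prop} {a0 a1 a2 a3 : α} {b0 b1 b2 b3 : β}
    {c0 c1 c2 c3 : γ} (h0 : W a0 b0 c0) (h1 : W a1 b1 c1) (h2 : W a2 b2 c2) (h3 : W a3 b3 c3) :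
    ∀ i : Fin 4, W ((![a0, a1, a2, a3] : Fin 4 → α) i) ((![b0, b1, b2, b3] : Fin 4 → β) i)
      ((![c0, c1, c2, c3] : Fin 4 → γ) i) := warp_f4 h0 h1 h2 h3

theorem warp_t2 {α β γ : Type} {W : α → β → γ → Prop} {a0 a1 a2 a3 : Fin 4 → α}
    {b0 b1 b2 b3 : Fin 4 → β} {c0 c1 c2 c3 : Fin 4 → γ} (h0 : ∀ j, W (a0 j) (b0 j) (c0 j))
    (h1 : ∀ j, W (a1 j) (b1 j) (c1 j)) (h2 : ∀ j, W (a2 j) (b2 j) (c2 j))
    (h3 : ∀ j, W (a3 j) (b3 j) (c3 j)) :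
    ∀ i j : Fin 4, W ((![a0, a1, a2, a3] : Fin 4 → Fin 4 → α) i j)
      ((![b0, b1, b2, b3] : Fin 4 → Fin 4 → β) i j)
      ((![c0, c1, c2, c3] : Fin 4 → Fin 4 → γ) i j) := warp_f4 h0 h1 h2 h3

theorem warp_t3 {α β γ : Type} {W : α → β → γ → Prop} {a0 a1 a2 a3 : Fin 4 → Fin 4 → α}
    {b0 b1 b2 b3 : Fin 4 → Fin 4 → β} {c0 c1 c2 c3 : Fin 4 → Fin 4 → γ}
    (h0 : ∀ i j, W (a0 i j) (b0 i j) (c0 i j)) (h1 : ∀ i j, W (a1 i j) (b1 i j) (c1 i j))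
    (h2 : ∀ i j, W (a2 i j) (b2 i j) (c2 i j)) (h3 : ∀ i j, W (a3 i j) (b3 i j) (c3 i j)) :
    ∀ k i j : Fin 4, W ((![a0, a1, a2, a3] : Fin 4 → Fin 4 → Fin 4 → α) k i j)
      ((![b0, b1, b2, b3] : Fin 4 → Fin 4 → Fin 4 → β) k i j)
      ((![c0, c1, c2, c3] : Fin 4 → Fin 4 → Fin 4 → γ) k i j) := warp_f4 h0 h1 h2 h3

theorem warp_qf (p q r : ℝ) (v : E4) : qf (Matrix.of ![![1, 0, 0, 0], ![0, p, 0, 0],
    ![0, 0, q, 0], ![0, 0, 0, r]]) v = v 0 ^ 2 + p * v 1 ^ 2 + q * v 2 ^ 2 + r * v 3 ^ 2 := by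
  have e : ∀ x0 x1 x2 x3 : ℝ, (1 * x0 * x0 + 0 * x0 * x1 + 0 * x0 * x2 + 0 * x0 * x3) +
      (0 * x1 * x0 + p * x1 * x1 + 0 * x1 * x2 + 0 * x1 * x3) +
      (0 * x2 * x0 + 0 * x2 * x1 + q * x2 * x2 + 0 * x2 * x3) +
      (0 * x3 * x0 + 0 * x3 * x1 + 0 * x3 * x2 + r * x3 * x3) =
      x0 ^ 2 + p * x1 ^ 2 + q * x2 ^ 2 + r * x3 ^ 2 := by
    intros
    ring
  simp only [qf, Fin.sum_univ_four]
  exact e _ _ _ _

theorem warp_pos {p q r : ℝ} {v : E4} (h1 : p ≠ 0) (h2 : q ≠ 0) (h3 : r ≠ 0) (hv : v ≠ 0) :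
    0 < v 0 ^ 2 + p ^ 2 * v 1 ^ 2 + q ^ 2 * v 2 ^ 2 + q ^ 2 * r ^ 2 * v 3 ^ 2 := by
  have e : v 0 ^ 2 + p ^ 2 * v 1 ^ 2 + q ^ 2 * v 2 ^ 2 + q ^ 2 * r ^ 2 * v 3 ^ 2 =
      v 0 ^ 2 + (p * v 1) ^ 2 + (q * v 2) ^ 2 + (q * r * v 3) ^ 2 := by ring
  rw [e]
  have q0 := sq_nonneg (v 0)
  have q1 := sq_nonneg (p * v 1)
  have q2 := sq_nonneg (q * v 2)
  have q3 := sq_nonneg (q * r * v 3)
  refine lt_of_le_of_ne (add_nonneg (add_nonneg (add_nonneg q0 q1) q2) q3) fun h => hv ?_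
  have z3 : (q * r * v 3) ^ 2 = 0 := by linarith
  have z2 : (q * v 2) ^ 2 = 0 := by linarith
  have z1 : (p * v 1) ^ 2 = 0 := by linarith
  have z0 : v 0 ^ 2 = 0 := by linarith
  have w0 : v 0 = 0 := pow_eq_zero_iff two_ne_zero |>.1 z0
  have w1 : v 1 = 0 := (mul_eq_zero.1 (pow_eq_zero_iff two_ne_zero |>.1 z1)).resolve_left h1
  have w2 : v 2 = 0 := (mul_eq_zero.1 (pow_eq_zero_iff two_ne_zero |>.1 z2)).resolve_left h2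
  have w3 : v 3 = 0 := (mul_eq_zero.1 (pow_eq_zero_iff two_ne_zero |>.1 z3)).resolve_left
    (mul_ne_zero h2 h3)
  ext i
  exact warp_f4 (P := fun i => v i = 0) w0 w1 w2 w3 i

theorem goodMet_warp {A b : ℝ → ℝ → ℝ} {U : Set (ℝ × ℝ)}
    (hA : ContDiffOn ℝ ∞ (fun p : ℝ × ℝ => A p.1 p.2) U)
    (hb : ContDiffOn ℝ ∞ (fun p : ℝ × ℝ => b p.1 p.2) U)
    (hA0 : ∀ p ∈ U, A p.1 p.2 ≠ 0) (hb0 : ∀ p ∈ U, b p.1 p.2 ≠ 0) :
    GoodMet (warpMet A b) {y : E4 | (y 0, y 1) ∈ U ∧ Real.sin (y 2) ≠ 0} := by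
  set V : Set E4 := {y : E4 | (y 0, y 1) ∈ U ∧ Real.sin (y 2) ≠ 0} with hV
  have hpr : ContDiffOn ℝ ∞ (fun y : E4 => ((y 0, y 1) : ℝ × ℝ)) V :=
    (warpPr.contDiff (n := ∞)).contDiffOn
  have hm : Set.MapsTo (fun y : E4 => ((y 0, y 1) : ℝ × ℝ)) V U := fun y hy => hy.1
  have hA1 : ContDiffOn ℝ ∞ (fun y : E4 => A (y 0) (y 1)) V := hA.comp hpr hm
  have hb1 : ContDiffOn ℝ ∞ (fun y : E4 => b (y 0) (y 1)) V := hb.comp hpr hm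
  have hs : ContDiffOn ℝ ∞ (fun y : E4 => Real.sin (y 2)) V := by
    have h0 : ContDiff ℝ ∞ (fun y : E4 => y 2) :=
      (EuclideanSpace.proj (2 : Fin 4) : E4 →L[ℝ] ℝ).contDiff
    exact (Real.contDiff_sin.comp h0).contDiffOn
  refine ⟨fun i j => ?_, fun x _ i j => ?_, fun x hx v hv => ?_⟩
  · have hA2 := hA1.pow 2
    have hb2 := hb1.pow 2
    have hbs := (hb1.pow 2).mul (hs.pow 2)
    have hc0 : ContDiffOn ℝ ∞ (fun _ : E4 => (0 : ℝ)) V := contDiffOn_const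
    have hc1 : ContDiffOn ℝ ∞ (fun _ : E4 => (1 : ℝ)) V := contDiffOn_const
    revert i j
    exact warp_f4 (warp_f4 hc1 hc0 hc0 hc0) (warp_f4 hc0 hA2 hc0 hc0) (warp_f4 hc0 hc0 hb2 hc0)
      (warp_f4 hc0 hc0 hc0 hbs)
  · revert i j
    exact warp_f4 (warp_f4 rfl rfl rfl rfl) (warp_f4 rfl rfl rfl rfl) (warp_f4 rfl rfl rfl rfl)
      (warp_f4 rfl rfl rfl rfl)
  · have e : qf (warpMet A b x) v = v 0 ^ 2 + A (x 0) (x 1) ^ 2 * v 1 ^ 2 +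
        b (x 0) (x 1) ^ 2 * v 2 ^ 2 + b (x 0) (x 1) ^ 2 * Real.sin (x 2) ^ 2 * v 3 ^ 2 :=
      warp_qf _ _ _ v
    rw [e]
    have h1 := hA0 _ hx.1
    have h2 := hb0 _ hx.1
    have h3 := hx.2
    exact warp_pos h1 h2 h3 hv

theorem warp_inv {A b : ℝ → ℝ → ℝ} {z : E4} (hA : A (z 0) (z 1) ≠ 0) (hb : b (z 0) (z 1) ≠ 0)
    (hs : Real.sin (z 2) ≠ 0) : (warpMet A b z)⁻¹ =
      !![1, 0, 0, 0; 0, (A (z 0) (z 1) ^ 2)⁻¹, 0, 0; 0, 0, (b (z 0) (z 1) ^ 2)⁻¹, 0;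
        0, 0, 0, (b (z 0) (z 1) ^ 2 * Real.sin (z 2) ^ 2)⁻¹] := by
  have e1 : warpMet A b z = Matrix.diagonal ![1, A (z 0) (z 1) ^ 2, b (z 0) (z 1) ^ 2,
      b (z 0) (z 1) ^ 2 * Real.sin (z 2) ^ 2] := by
    ext i j
    fin_cases i <;> fin_cases j <;> rfl
  have e2 : (!![1, 0, 0, 0; 0, (A (z 0) (z 1) ^ 2)⁻¹, 0, 0; 0, 0, (b (z 0) (z 1) ^ 2)⁻¹, 0;
        0, 0, 0, (b (z 0) (z 1) ^ 2 * Real.sin (z 2) ^ 2)⁻¹] : Matrix (Fin 4) (Fin 4) ℝ) =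
      Matrix.diagonal ![1, (A (z 0) (z 1) ^ 2)⁻¹, (b (z 0) (z 1) ^ 2)⁻¹,
        (b (z 0) (z 1) ^ 2 * Real.sin (z 2) ^ 2)⁻¹] := by
    ext i j
    fin_cases i <;> fin_cases j <;> rfl
  apply Matrix.inv_eq_right_inv
  rw [e1, e2, Matrix.diagonal_mul_diagonal, ← Matrix.diagonal_one]
  congr 1
  funext i
  fin_cases i
  · exact mul_one 1
  · exact mul_inv_cancel₀ (pow_ne_zero 2 hA)
  · exact mul_inv_cancel₀ (pow_ne_zero 2 hb)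
  · exact mul_inv_cancel₀ (mul_ne_zero (pow_ne_zero 2 hb) (pow_ne_zero 2 hs))

/-- partial derivatives of the squares of functions of the first two coordinates -/
theorem warp_sq {B : ℝ → ℝ → ℝ} {z : E4}
    (hB : DifferentiableAt ℝ (fun p : ℝ × ℝ => B p.1 p.2) (z 0, z 1)) :
    WarpHP (fun y : E4 => B (y 0) (y 1) ^ 2) z (B (z 0) (z 1) ^ 2)
      ![2 * (B (z 0) (z 1) * dT B (z 0) (z 1)), 2 * (B (z 0) (z 1) * dX B (z 0) (z 1)), 0, 0] := by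
  have h := (warpHP_comp hB).mul (warpHP_comp hB)
  have h1 : WarpHP (fun y : E4 => B (y 0) (y 1) ^ 2) z _ _ :=
    h.congr (Eventually.of_forall fun y => by simp only [sq])
  refine h1.cast (by ring) ?_
  intro i
  fin_cases i <;> simp <;> ring

theorem warp_sq_sin {B : ℝ → ℝ → ℝ} {z : E4}
    (hB : DifferentiableAt ℝ (fun p : ℝ × ℝ => B p.1 p.2) (z 0, z 1)) :
    WarpHP (fun y : E4 => B (y 0) (y 1) ^ 2 * Real.sin (y 2) ^ 2) z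
      (B (z 0) (z 1) ^ 2 * Real.sin (z 2) ^ 2)
      ![2 * (B (z 0) (z 1) * dT B (z 0) (z 1)) * Real.sin (z 2) ^ 2,
        2 * (B (z 0) (z 1) * dX B (z 0) (z 1)) * Real.sin (z 2) ^ 2,
        B (z 0) (z 1) ^ 2 * (2 * (Real.sin (z 2) * Real.cos (z 2))), 0] := by
  have h := (warp_sq hB).mul ((warpHP_sin z).mul (warpHP_sin z))
  have h1 : WarpHP (fun y : E4 => B (y 0) (y 1) ^ 2 * Real.sin (y 2) ^ 2) z _ _ :=
    h.congr (Eventually.of_forall fun y => by simp only [sq])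
  refine h1.cast (by ring) ?_
  intro i
  fin_cases i
  · simp
    ring
  · simp
    ring
  · simp
    left
    ring
  · simp

/-- partial derivatives of the coefficients of the warped metric -/
noncomputable def warpDg (A b : ℝ → ℝ → ℝ) (z : E4) : Fin 4 → Fin 4 → Fin 4 → ℝ :=
  ![![![0, 0, 0, 0], ![0, 0, 0, 0], ![0, 0, 0, 0], ![0, 0, 0, 0]],
    ![![0, 0, 0, 0], ![2 * (A (z 0) (z 1) * dT A (z 0) (z 1)),
      2 * (A (z 0) (z 1) * dX A (z 0) (z 1)), 0, 0], ![0, 0, 0, 0], ![0, 0, 0, 0]],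
    ![![0, 0, 0, 0], ![0, 0, 0, 0], ![2 * (b (z 0) (z 1) * dT b (z 0) (z 1)),
      2 * (b (z 0) (z 1) * dX b (z 0) (z 1)), 0, 0], ![0, 0, 0, 0]],
    ![![0, 0, 0, 0], ![0, 0, 0, 0], ![0, 0, 0, 0],
      ![2 * (b (z 0) (z 1) * dT b (z 0) (z 1)) * Real.sin (z 2) ^ 2,
        2 * (b (z 0) (z 1) * dX b (z 0) (z 1)) * Real.sin (z 2) ^ 2,
        b (z 0) (z 1) ^ 2 * (2 * (Real.sin (z 2) * Real.cos (z 2))), 0]]]

theorem warp_pd_const (z : E4) (c : ℝ) (i : Fin 4) : pd i (fun _ : E4 => c) z = 0 := by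
  rw [pd]
  simp

theorem warp_pd {A b : ℝ → ℝ → ℝ} {z : E4}
    (hA : DifferentiableAt ℝ (fun p : ℝ × ℝ => A p.1 p.2) (z 0, z 1))
    (hb : DifferentiableAt ℝ (fun p : ℝ × ℝ => b p.1 p.2) (z 0, z 1)) (k l j : Fin 4) :
    pd k (fun y => warpMet A b y l j) z = warpDg A b z l j k := by
  have h1 := (warp_sq hA).2.2 k
  have h2 := (warp_sq hb).2.2 k
  have h3 := (warp_sq_sin hb).2.2 k
  have h0 := warp_pd_const z 0 k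
  have h4 := warp_pd_const z 1 k
  have hz : (![0, 0, 0, 0] : Fin 4 → ℝ) k = 0 := by fin_cases k <;> rfl
  fin_cases l <;> fin_cases j
  · exact h4.trans hz.symm
  · exact h0.trans hz.symm
  · exact h0.trans hz.symm
  · exact h0.trans hz.symm
  · exact h0.trans hz.symm
  · exact h1
  · exact h0.trans hz.symm
  · exact h0.trans hz.symm
  · exact h0.trans hz.symm
  · exact h0.trans hz.symm
  · exact h2
  · exact h0.trans hz.symm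
  · exact h0.trans hz.symm
  · exact h0.trans hz.symm
  · exact h0.trans hz.symm
  · exact h3

/-- The Christoffel symbols of the warped metric, as functions. -/
noncomputable def warpG (A b : ℝ → ℝ → ℝ) : Fin 4 → Fin 4 → Fin 4 → E4 → ℝ :=
  ![![![fun _ => 0, fun _ => 0, fun _ => 0, fun _ => 0],
      ![fun _ => 0, fun z => -(A (z 0) (z 1) * dT A (z 0) (z 1)), fun _ => 0, fun _ => 0],
      ![fun _ => 0, fun _ => 0, fun z => -(b (z 0) (z 1) * dT b (z 0) (z 1)), fun _ => 0],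
      ![fun _ => 0, fun _ => 0, fun _ => 0,
        fun z => -((b (z 0) (z 1) * dT b (z 0) (z 1)) * (Real.sin (z 2) * Real.sin (z 2)))]],
    ![![fun _ => 0, fun z => dT A (z 0) (z 1) * (A (z 0) (z 1))⁻¹, fun _ => 0, fun _ => 0],
      ![fun z => dT A (z 0) (z 1) * (A (z 0) (z 1))⁻¹,
        fun z => dX A (z 0) (z 1) * (A (z 0) (z 1))⁻¹, fun _ => 0, fun _ => 0],
      ![fun _ => 0, fun _ => 0, fun z => -((b (z 0) (z 1) * dX b (z 0) (z 1)) *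
        ((A (z 0) (z 1))⁻¹ * (A (z 0) (z 1))⁻¹)), fun _ => 0],
      ![fun _ => 0, fun _ => 0, fun _ => 0, fun z => -((b (z 0) (z 1) * dX b (z 0) (z 1)) *
        ((A (z 0) (z 1))⁻¹ * (A (z 0) (z 1))⁻¹) * (Real.sin (z 2) * Real.sin (z 2)))]],
    ![![fun _ => 0, fun _ => 0, fun z => dT b (z 0) (z 1) * (b (z 0) (z 1))⁻¹, fun _ => 0],
      ![fun _ => 0, fun _ => 0, fun z => dX b (z 0) (z 1) * (b (z 0) (z 1))⁻¹, fun _ => 0],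
      ![fun z => dT b (z 0) (z 1) * (b (z 0) (z 1))⁻¹,
        fun z => dX b (z 0) (z 1) * (b (z 0) (z 1))⁻¹, fun _ => 0, fun _ => 0],
      ![fun _ => 0, fun _ => 0, fun _ => 0, fun z => -(Real.sin (z 2) * Real.cos (z 2))]],
    ![![fun _ => 0, fun _ => 0, fun _ => 0, fun z => dT b (z 0) (z 1) * (b (z 0) (z 1))⁻¹],
      ![fun _ => 0, fun _ => 0, fun _ => 0, fun z => dX b (z 0) (z 1) * (b (z 0) (z 1))⁻¹],
      ![fun _ => 0, fun _ => 0, fun _ => 0, fun z => Real.cos (z 2) * (Real.sin (z 2))⁻¹],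
      ![fun z => dT b (z 0) (z 1) * (b (z 0) (z 1))⁻¹,
        fun z => dX b (z 0) (z 1) * (b (z 0) (z 1))⁻¹,
        fun z => Real.cos (z 2) * (Real.sin (z 2))⁻¹, fun _ => 0]]]

theorem warp_cn0 (x : ℝ) : (1 / 2 : ℝ) * (1 * (0 + 0 - 2 * x)) = -x := by ring

theorem warp_cn0s (x s : ℝ) : (1 / 2 : ℝ) * (1 * (0 + 0 - 2 * x * s ^ 2)) = -(x * (s * s)) := by
  ring

theorem warp_cn1 (a x : ℝ) : (1 / 2 : ℝ) * ((a ^ 2)⁻¹ * (0 + 0 - 2 * x)) = -(x * (a⁻¹ * a⁻¹)) := by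
  rw [sq, mul_inv]
  ring

theorem warp_cn1s (a x s : ℝ) : (1 / 2 : ℝ) * ((a ^ 2)⁻¹ * (0 + 0 - 2 * x * s ^ 2)) =
    -(x * (a⁻¹ * a⁻¹) * (s * s)) := by
  rw [sq a, mul_inv]
  ring

theorem warp_cn2 {b : ℝ} (hb : b ≠ 0) (x : ℝ) :
    (1 / 2 : ℝ) * ((b ^ 2)⁻¹ * (0 + 0 - b ^ 2 * (2 * x))) = -x := by
  have h : (b ^ 2)⁻¹ * b ^ 2 = 1 := inv_mul_cancel₀ (pow_ne_zero 2 hb)
  linear_combination (-x) * h

theorem warp_cp {a : ℝ} (ha : a ≠ 0) (u : ℝ) : (a ^ 2)⁻¹ * (a * u) = u * a⁻¹ := by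
  have h : a⁻¹ * a = 1 := inv_mul_cancel₀ ha
  rw [sq, mul_inv]
  linear_combination (a⁻¹ * u) * h

theorem warp_cp1 {a : ℝ} (ha : a ≠ 0) (u : ℝ) :
    (1 / 2 : ℝ) * ((a ^ 2)⁻¹ * (2 * (a * u) + 0 - 0)) = u * a⁻¹ := by
  rw [← warp_cp ha u]
  ring

theorem warp_cp2 {a : ℝ} (ha : a ≠ 0) (u : ℝ) :
    (1 / 2 : ℝ) * ((a ^ 2)⁻¹ * (0 + 2 * (a * u) - 0)) = u * a⁻¹ := by
  rw [← warp_cp ha u]
  ring

theorem warp_cp3 {a : ℝ} (ha : a ≠ 0) (u : ℝ) :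
    (1 / 2 : ℝ) * ((a ^ 2)⁻¹ * (2 * (a * u) + 2 * (a * u) - 2 * (a * u))) = u * a⁻¹ := by
  rw [← warp_cp ha u]
  ring

theorem warp_cq {b s : ℝ} (hb : b ≠ 0) (hs : s ≠ 0) (u : ℝ) :
    (b ^ 2 * s ^ 2)⁻¹ * ((b * u) * s ^ 2) = u * b⁻¹ := by
  have h : (s ^ 2)⁻¹ * s ^ 2 = 1 := inv_mul_cancel₀ (pow_ne_zero 2 hs)
  rw [← warp_cp hb u, mul_inv]
  linear_combination ((b ^ 2)⁻¹ * (b * u)) * h

theorem warp_cq1 {b s : ℝ} (hb : b ≠ 0) (hs : s ≠ 0) (u : ℝ) :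
    (1 / 2 : ℝ) * ((b ^ 2 * s ^ 2)⁻¹ * (2 * (b * u) * s ^ 2 + 0 - 0)) = u * b⁻¹ := by
  rw [← warp_cq hb hs u]
  ring

theorem warp_cq2 {b s : ℝ} (hb : b ≠ 0) (hs : s ≠ 0) (u : ℝ) :
    (1 / 2 : ℝ) * ((b ^ 2 * s ^ 2)⁻¹ * (0 + 2 * (b * u) * s ^ 2 - 0)) = u * b⁻¹ := by
  rw [← warp_cq hb hs u]
  ring

theorem warp_cr {b s : ℝ} (hb : b ≠ 0) (hs : s ≠ 0) (c : ℝ) :
    (b ^ 2 * s ^ 2)⁻¹ * (b ^ 2 * (s * c)) = c * s⁻¹ := by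
  have h : (b ^ 2)⁻¹ * b ^ 2 = 1 := inv_mul_cancel₀ (pow_ne_zero 2 hb)
  rw [← warp_cp hs c, mul_inv]
  linear_combination ((s ^ 2)⁻¹ * (s * c)) * h

theorem warp_cr1 {b s : ℝ} (hb : b ≠ 0) (hs : s ≠ 0) (c : ℝ) :
    (1 / 2 : ℝ) * ((b ^ 2 * s ^ 2)⁻¹ * (b ^ 2 * (2 * (s * c)) + 0 - 0)) = c * s⁻¹ := by
  rw [← warp_cr hb hs c]
  ring

theorem warp_cr2 {b s : ℝ} (hb : b ≠ 0) (hs : s ≠ 0) (c : ℝ) :
    (1 / 2 : ℝ) * ((b ^ 2 * s ^ 2)⁻¹ * (0 + b ^ 2 * (2 * (s * c)) - 0)) = c * s⁻¹ := by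
  rw [← warp_cr hb hs c]
  ring

theorem warp_chr_diag {A b : ℝ → ℝ → ℝ} {z : E4}
    (hA : DifferentiableAt ℝ (fun p : ℝ × ℝ => A p.1 p.2) (z 0, z 1))
    (hb : DifferentiableAt ℝ (fun p : ℝ × ℝ => b p.1 p.2) (z 0, z 1))
    (hA0 : A (z 0) (z 1) ≠ 0) (hb0 : b (z 0) (z 1) ≠ 0) (hs : Real.sin (z 2) ≠ 0)
    (k i j : Fin 4) : chr (warpMet A b) k i j z =
      (1 / 2) * ((![1, (A (z 0) (z 1) ^ 2)⁻¹, (b (z 0) (z 1) ^ 2)⁻¹,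
        (b (z 0) (z 1) ^ 2 * Real.sin (z 2) ^ 2)⁻¹] : Fin 4 → ℝ) k *
        (warpDg A b z k j i + warpDg A b z k i j - warpDg A b z i j k)) := by
  simp only [chr, warp_pd hA hb, Fin.sum_univ_four]
  rw [warp_inv hA0 hb0 hs]
  congr 1
  generalize warpDg A b z = D
  generalize (A (z 0) (z 1) ^ 2)⁻¹ = g1
  generalize (b (z 0) (z 1) ^ 2)⁻¹ = g2
  generalize (b (z 0) (z 1) ^ 2 * Real.sin (z 2) ^ 2)⁻¹ = g3
  have q1 : ∀ w x0 x1 x2 x3 : ℝ, w * x0 + 0 * x1 + 0 * x2 + 0 * x3 = w * x0 := by intros; ring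
  have q2 : ∀ w x0 x1 x2 x3 : ℝ, 0 * x0 + w * x1 + 0 * x2 + 0 * x3 = w * x1 := by intros; ring
  have q3 : ∀ w x0 x1 x2 x3 : ℝ, 0 * x0 + 0 * x1 + w * x2 + 0 * x3 = w * x2 := by intros; ring
  have q4 : ∀ w x0 x1 x2 x3 : ℝ, 0 * x0 + 0 * x1 + 0 * x2 + w * x3 = w * x3 := by intros; ring
  fin_cases k
  · exact q1 1 _ _ _ _
  · exact q2 g1 _ _ _ _
  · exact q3 g2 _ _ _ _
  · exact q4 g3 _ _ _ _

theorem warp_z0 (g : ℝ) : (1 / 2 : ℝ) * (g * (0 + 0 - 0)) = 0 := by ring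

theorem warp_chr {A b : ℝ → ℝ → ℝ} {z : E4}
    (hA : DifferentiableAt ℝ (fun p : ℝ × ℝ => A p.1 p.2) (z 0, z 1))
    (hb : DifferentiableAt ℝ (fun p : ℝ × ℝ => b p.1 p.2) (z 0, z 1))
    (hA0 : A (z 0) (z 1) ≠ 0) (hb0 : b (z 0) (z 1) ≠ 0) (hs : Real.sin (z 2) ≠ 0)
    (k i j : Fin 4) : chr (warpMet A b) k i j z = warpG A b k i j z := by
  rw [warp_chr_diag hA hb hA0 hb0 hs]
  revert k i j
  exact warp_f4
    (warp_f4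
      (warp_f4 (warp_z0 _) (warp_z0 _) (warp_z0 _) (warp_z0 _))
      (warp_f4 (warp_z0 _) (warp_cn0 _) (warp_z0 _) (warp_z0 _))
      (warp_f4 (warp_z0 _) (warp_z0 _) (warp_cn0 _) (warp_z0 _))
      (warp_f4 (warp_z0 _) (warp_z0 _) (warp_z0 _) (warp_cn0s _ _)))
    (warp_f4
      (warp_f4 (warp_z0 _) (warp_cp1 hA0 _) (warp_z0 _) (warp_z0 _))
      (warp_f4 (warp_cp2 hA0 _) (warp_cp3 hA0 _) (warp_z0 _) (warp_z0 _))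
      (warp_f4 (warp_z0 _) (warp_z0 _) (warp_cn1 _ _) (warp_z0 _))
      (warp_f4 (warp_z0 _) (warp_z0 _) (warp_z0 _) (warp_cn1s _ _ _)))
    (warp_f4
      (warp_f4 (warp_z0 _) (warp_z0 _) (warp_cp1 hb0 _) (warp_z0 _))
      (warp_f4 (warp_z0 _) (warp_z0 _) (warp_cp1 hb0 _) (warp_z0 _))
      (warp_f4 (warp_cp2 hb0 _) (warp_cp2 hb0 _) (warp_z0 _) (warp_z0 _))
      (warp_f4 (warp_z0 _) (warp_z0 _) (warp_z0 _) (warp_cn2 hb0 _)))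
    (warp_f4
      (warp_f4 (warp_z0 _) (warp_z0 _) (warp_z0 _) (warp_cq1 hb0 hs _))
      (warp_f4 (warp_z0 _) (warp_z0 _) (warp_z0 _) (warp_cq1 hb0 hs _))
      (warp_f4 (warp_z0 _) (warp_z0 _) (warp_z0 _) (warp_cr1 hb0 hs _))
      (warp_f4 (warp_cq2 hb0 hs _) (warp_cq2 hb0 hs _) (warp_cr2 hb0 hs _) (warp_z0 _)))


/-- table of the values of the Christoffel symbols -/
noncomputable def warpV (a0 at_ ax b0 bt bx s c : ℝ) : Fin 4 → Fin 4 → Fin 4 → ℝ :=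
  ![![![0,
      0,
      0,
      0],
    ![0,
      -(a0 * at_),
      0,
      0],
    ![0,
      0,
      -(b0 * bt),
      0],
    ![0,
      0,
      0,
      -((b0 * bt) * (s * s))]],
   ![![0,
      at_ * a0⁻¹,
      0,
      0],
    ![at_ * a0⁻¹,
      ax * a0⁻¹,
      0,
      0],
    ![0,
      0,
      -((b0 * bx) * (a0⁻¹ * a0⁻¹)),
      0],
    ![0,
      0,
      0,
      -((b0 * bx) * (a0⁻¹ * a0⁻¹) * (s * s))]],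
   ![![0,
      0,
      bt * b0⁻¹,
      0],
    ![0,
      0,
      bx * b0⁻¹,
      0],
    ![bt * b0⁻¹,
      bx * b0⁻¹,
      0,
      0],
    ![0,
      0,
      0,
      -(s * c)]],
   ![![0,
      0,
      0,
      bt * b0⁻¹],
    ![0,
      0,
      0,
      bx * b0⁻¹],
    ![0,
      0,
      0,
      c * s⁻¹],
    ![bt * b0⁻¹,
      bx * b0⁻¹,
      c * s⁻¹,
      0]]]

/-- table of the derivatives of the Christoffel symbols -/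
noncomputable def warpD (a0 at_ ax att m axx b0 bt bx btt btx bxx s c : ℝ) :
    Fin 4 → Fin 4 → Fin 4 → Fin 4 → ℝ :=
  ![![![![0, 0, 0, 0],
      ![0, 0, 0, 0],
      ![0, 0, 0, 0],
      ![0, 0, 0, 0]],
    ![![0, 0, 0, 0],
      ![-(a0 * att + at_ * at_), -(a0 * m + at_ * ax), 0, 0],
      ![0, 0, 0, 0],
      ![0, 0, 0, 0]],
    ![![0, 0, 0, 0],
      ![0, 0, 0, 0],
      ![-(b0 * btt + bt * bt), -(b0 * btx + bt * bx), 0, 0],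
      ![0, 0, 0, 0]],
    ![![0, 0, 0, 0],
      ![0, 0, 0, 0],
      ![0, 0, 0, 0],
      ![-((b0 * btt + bt * bt) * (s * s)), -((b0 * btx + bt * bx) * (s * s)), -(b0 * bt * (2 * s * c)), 0]]],
   ![![![0, 0, 0, 0],
      ![(att * a0 - at_ * at_) / a0 ^ 2, (m * a0 - at_ * ax) / a0 ^ 2, 0, 0],
      ![0, 0, 0, 0],
      ![0, 0, 0, 0]],
    ![![(att * a0 - at_ * at_) / a0 ^ 2, (m * a0 - at_ * ax) / a0 ^ 2, 0, 0],
      ![(m * a0 - ax * at_) / a0 ^ 2, (axx * a0 - ax * ax) / a0 ^ 2, 0, 0],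
      ![0, 0, 0, 0],
      ![0, 0, 0, 0]],
    ![![0, 0, 0, 0],
      ![0, 0, 0, 0],
      ![-((bt * bx + b0 * btx) / a0 ^ 2 - 2 * b0 * bx * at_ / a0 ^ 3), -((bx * bx + b0 * bxx) / a0 ^ 2 - 2 * b0 * bx * ax / a0 ^ 3), 0, 0],
      ![0, 0, 0, 0]],
    ![![0, 0, 0, 0],
      ![0, 0, 0, 0],
      ![0, 0, 0, 0],
      ![-((bt * bx + b0 * btx) / a0 ^ 2 - 2 * b0 * bx * at_ / a0 ^ 3) * (s * s), -((bx * bx + b0 * bxx) / a0 ^ 2 - 2 * b0 * bx * ax / a0 ^ 3) * (s * s), -(b0 * bx / a0 ^ 2 * (2 * s * c)), 0]]],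
   ![![![0, 0, 0, 0],
      ![0, 0, 0, 0],
      ![(btt * b0 - bt * bt) / b0 ^ 2, (btx * b0 - bt * bx) / b0 ^ 2, 0, 0],
      ![0, 0, 0, 0]],
    ![![0, 0, 0, 0],
      ![0, 0, 0, 0],
      ![(btx * b0 - bx * bt) / b0 ^ 2, (bxx * b0 - bx * bx) / b0 ^ 2, 0, 0],
      ![0, 0, 0, 0]],
    ![![(btt * b0 - bt * bt) / b0 ^ 2, (btx * b0 - bt * bx) / b0 ^ 2, 0, 0],
      ![(btx * b0 - bx * bt) / b0 ^ 2, (bxx * b0 - bx * bx) / b0 ^ 2, 0, 0],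
      ![0, 0, 0, 0],
      ![0, 0, 0, 0]],
    ![![0, 0, 0, 0],
      ![0, 0, 0, 0],
      ![0, 0, 0, 0],
      ![0, 0, -(c * c - s * s), 0]]],
   ![![![0, 0, 0, 0],
      ![0, 0, 0, 0],
      ![0, 0, 0, 0],
      ![(btt * b0 - bt * bt) / b0 ^ 2, (btx * b0 - bt * bx) / b0 ^ 2, 0, 0]],
    ![![0, 0, 0, 0],
      ![0, 0, 0, 0],
      ![0, 0, 0, 0],
      ![(btx * b0 - bx * bt) / b0 ^ 2, (bxx * b0 - bx * bx) / b0 ^ 2, 0, 0]],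
    ![![0, 0, 0, 0],
      ![0, 0, 0, 0],
      ![0, 0, 0, 0],
      ![0, 0, -(s * s + c * c) / s ^ 2, 0]],
    ![![(btt * b0 - bt * bt) / b0 ^ 2, (btx * b0 - bt * bx) / b0 ^ 2, 0, 0],
      ![(btx * b0 - bx * bt) / b0 ^ 2, (bxx * b0 - bx * bx) / b0 ^ 2, 0, 0],
      ![0, 0, -(s * s + c * c) / s ^ 2, 0],
      ![0, 0, 0, 0]]]]

theorem warp_HP {A b : ℝ → ℝ → ℝ} {y : E4}
    (hA : ContDiffAt ℝ ∞ (fun p : ℝ × ℝ => A p.1 p.2) (y 0, y 1))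
    (hb : ContDiffAt ℝ ∞ (fun p : ℝ × ℝ => b p.1 p.2) (y 0, y 1))
    (hA0 : A (y 0) (y 1) ≠ 0) (hb0 : b (y 0) (y 1) ≠ 0) (hs : Real.sin (y 2) ≠ 0)
    {a0 at_ ax att m axx b0 bt bx btt btx bxx s c : ℝ}
    (ha0 : A (y 0) (y 1) = a0) (hat : dT A (y 0) (y 1) = at_) (hax : dX A (y 0) (y 1) = ax)
    (hatt : dT (dT A) (y 0) (y 1) = att) (hm : dT (dX A) (y 0) (y 1) = m)
    (haxx : dX (dX A) (y 0) (y 1) = axx)
    (hb00 : b (y 0) (y 1) = b0) (hbt : dT b (y 0) (y 1) = bt) (hbx : dX b (y 0) (y 1) = bx)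
    (hbtt : dT (dT b) (y 0) (y 1) = btt) (hbtx : dT (dX b) (y 0) (y 1) = btx)
    (hbxx : dX (dX b) (y 0) (y 1) = bxx)
    (hss : Real.sin (y 2) = s) (hcc : Real.cos (y 2) = c) (k i j : Fin 4) :
    WarpHP (warpG A b k i j) y (warpV a0 at_ ax b0 bt bx s c k i j)
      (warpD a0 at_ ax att m axx b0 bt bx btt btx bxx s c k i j) := by
  have hmA : dX (dT A) (y 0) (y 1) = m := by rw [warp_mixed hA, hm]
  have hmb : dX (dT b) (y 0) (y 1) = btx := by rw [warp_mixed hb, hbtx]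
  have HA := warpHP_comp (hA.differentiableAt (by simp))
  have HAT := warpHP_comp ((warp_contDiffAt_dT hA).differentiableAt (by simp))
  have HAX := warpHP_comp ((warp_contDiffAt_dX hA).differentiableAt (by simp))
  have HB := warpHP_comp (hb.differentiableAt (by simp))
  have HBT := warpHP_comp ((warp_contDiffAt_dT hb).differentiableAt (by simp))
  have HBX := warpHP_comp ((warp_contDiffAt_dX hb).differentiableAt (by simp))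
  have HS := warpHP_sin y
  have HC := warpHP_cos y
  rw [ha0, hat, hax] at HA
  rw [hat, hatt, hmA] at HAT
  rw [hax, hm, haxx] at HAX
  rw [hb00, hbt, hbx] at HB
  rw [hbt, hbtt, hmb] at HBT
  rw [hbx, hbtx, hbxx] at HBX
  rw [hss, hcc] at HS
  rw [hcc, hss] at HC
  have ha : a0 ≠ 0 := by rw [← ha0]; exact hA0
  have hb1 : b0 ≠ 0 := by rw [← hb00]; exact hb0
  have hs1 : s ≠ 0 := by rw [← hss]; exact hs
  have HAi := HA.inv ha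
  have HBi := HB.inv hb1
  have HSi := HS.inv hs1
  have z : WarpHP (fun _ : E4 => (0 : ℝ)) y 0 ![0, 0, 0, 0] :=
    (WarpHP.zero y).cast rfl (by intro i; fin_cases i <;> rfl)
  have cst4 : ∀ {d : Fin 4 → ℝ} {e0 e1 e2 e3 : ℝ}, d 0 = e0 → d 1 = e1 → d 2 = e2 → d 3 = e3 →
      ∀ i, d i = (![e0, e1, e2, e3] : Fin 4 → ℝ) i := by
    intro d e0 e1 e2 e3 h0 h1 h2 h3 i
    fin_cases i
    · exact h0
    · exact h1
    · exact h2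
    · exact h3
  have z1 : ∀ x y : ℝ, -(x * 0 + y * 0) = 0 := by intros; ring
  have z2 : ∀ x y q : ℝ, x * (-0 / q) + y * 0 = 0 := by intros; simp
  have fa : a0⁻¹ * a0 = 1 := inv_mul_cancel₀ ha
  have fb : b0⁻¹ * b0 = 1 := inv_mul_cancel₀ hb1
  have fs : s⁻¹ * s = 1 := inv_mul_cancel₀ hs1
  -- quotients
  have quo : ∀ {u : ℝ}, u ≠ 0 → ∀ x dx du : ℝ, x * (-du / u ^ 2) + u⁻¹ * dx = (dx * u - x * du) / u ^ 2 := by
    intro u hu x dx du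
    field_simp
    ring
  have g011 := ((HA.mul HAT).neg).cast (w := -(a0 * at_))
    (e := ![-(a0 * att + at_ * at_), -(a0 * m + at_ * ax), 0, 0])
    rfl (cst4 rfl rfl (z1 _ _) (z1 _ _))
  have g022 := ((HB.mul HBT).neg).cast (w := -(b0 * bt))
    (e := ![-(b0 * btt + bt * bt), -(b0 * btx + bt * bx), 0, 0])
    rfl (cst4 rfl rfl (z1 _ _) (z1 _ _))
  have g033 := (((HB.mul HBT).mul (HS.mul HS)).neg).cast (w := -((b0 * bt) * (s * s)))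
    (e := ![-((b0 * btt + bt * bt) * (s * s)), -((b0 * btx + bt * bx) * (s * s)), -(b0 * bt * (2 * s * c)), 0])
    rfl (cst4
      (by
        change -(b0 * bt * (s * 0 + s * 0) + s * s * (b0 * btt + bt * bt)) = _
        ring)
      (by
        change -(b0 * bt * (s * 0 + s * 0) + s * s * (b0 * btx + bt * bx)) = _
        ring)
      (by
        change -(b0 * bt * (s * c + s * c) + s * s * (b0 * 0 + bt * 0)) = _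
        ring)
      (by
        change -(b0 * bt * (s * 0 + s * 0) + s * s * (b0 * 0 + bt * 0)) = _
        ring))
  have g101 := (HAT.mul HAi).cast (w := at_ * a0⁻¹)
    (e := ![(att * a0 - at_ * at_) / a0 ^ 2, (m * a0 - at_ * ax) / a0 ^ 2, 0, 0])
    rfl (cst4 (quo ha _ _ _) (quo ha _ _ _) (z2 _ _ _) (z2 _ _ _))
  have g111 := (HAX.mul HAi).cast (w := ax * a0⁻¹)
    (e := ![(m * a0 - ax * at_) / a0 ^ 2, (axx * a0 - ax * ax) / a0 ^ 2, 0, 0])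
    rfl (cst4 (quo ha _ _ _) (quo ha _ _ _) (z2 _ _ _) (z2 _ _ _))
  have k1 : ∀ p q r : ℝ, -(b0 * bx * (a0⁻¹ * (-p / a0 ^ 2) + a0⁻¹ * (-p / a0 ^ 2)) +
      a0⁻¹ * a0⁻¹ * (b0 * q + bx * r)) =
      -((r * bx + b0 * q) / a0 ^ 2 - 2 * b0 * bx * p / a0 ^ 3) := by
    intro p q r
    field_simp
    ring
  have k2 : ∀ p q r : ℝ, -(b0 * bx * (a0⁻¹ * a0⁻¹) * (s * 0 + s * 0) + s * s *
      (b0 * bx * (a0⁻¹ * (-p / a0 ^ 2) + a0⁻¹ * (-p / a0 ^ 2)) + a0⁻¹ * a0⁻¹ * (b0 * q + bx * r))) =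
      -((r * bx + b0 * q) / a0 ^ 2 - 2 * b0 * bx * p / a0 ^ 3) * (s * s) := by
    intro p q r
    rw [← k1 p q r]
    ring
  have k0 : -(b0 * bx * (a0⁻¹ * (-0 / a0 ^ 2) + a0⁻¹ * (-0 / a0 ^ 2)) +
      a0⁻¹ * a0⁻¹ * (b0 * 0 + bx * 0)) = 0 := by simp
  have g122 := (((HB.mul HBX).mul (HAi.mul HAi)).neg).cast (w := -((b0 * bx) * (a0⁻¹ * a0⁻¹)))
    (e := ![-((bt * bx + b0 * btx) / a0 ^ 2 - 2 * b0 * bx * at_ / a0 ^ 3), -((bx * bx + b0 * bxx) / a0 ^ 2 - 2 * b0 * bx * ax / a0 ^ 3), 0, 0])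
    rfl (cst4 (k1 at_ btx bt) (k1 ax bxx bx) k0 k0)
  have g133 := ((((HB.mul HBX).mul (HAi.mul HAi)).mul (HS.mul HS)).neg).cast (w := -((b0 * bx) * (a0⁻¹ * a0⁻¹) * (s * s)))
    (e := ![-((bt * bx + b0 * btx) / a0 ^ 2 - 2 * b0 * bx * at_ / a0 ^ 3) * (s * s), -((bx * bx + b0 * bxx) / a0 ^ 2 - 2 * b0 * bx * ax / a0 ^ 3) * (s * s), -(b0 * bx / a0 ^ 2 * (2 * s * c)), 0])
    rfl (cst4 (k2 at_ btx bt) (k2 ax bxx bx)
      (by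
        change -(b0 * bx * (a0⁻¹ * a0⁻¹) * (s * c + s * c) + s * s *
          (b0 * bx * (a0⁻¹ * (-0 / a0 ^ 2) + a0⁻¹ * (-0 / a0 ^ 2)) +
            a0⁻¹ * a0⁻¹ * (b0 * 0 + bx * 0))) = _
        rw [div_eq_mul_inv (b0 * bx), show (a0 ^ 2)⁻¹ = a0⁻¹ * a0⁻¹ by rw [sq, mul_inv], neg_zero,
          zero_div]
        ring)
      (by
        change -(b0 * bx * (a0⁻¹ * a0⁻¹) * (s * 0 + s * 0) + s * s *
          (b0 * bx * (a0⁻¹ * (-0 / a0 ^ 2) + a0⁻¹ * (-0 / a0 ^ 2)) +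
            a0⁻¹ * a0⁻¹ * (b0 * 0 + bx * 0))) = _
        rw [neg_zero, zero_div]
        ring))
  have g202 := (HBT.mul HBi).cast (w := bt * b0⁻¹)
    (e := ![(btt * b0 - bt * bt) / b0 ^ 2, (btx * b0 - bt * bx) / b0 ^ 2, 0, 0])
    rfl (cst4 (quo hb1 _ _ _) (quo hb1 _ _ _) (z2 _ _ _) (z2 _ _ _))
  have g212 := (HBX.mul HBi).cast (w := bx * b0⁻¹)
    (e := ![(btx * b0 - bx * bt) / b0 ^ 2, (bxx * b0 - bx * bx) / b0 ^ 2, 0, 0])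
    rfl (cst4 (quo hb1 _ _ _) (quo hb1 _ _ _) (z2 _ _ _) (z2 _ _ _))
  have g233 := ((HS.mul HC).neg).cast (w := -(s * c))
    (e := ![0, 0, -(c * c - s * s), 0])
    rfl (cst4 (z1 _ _) (z1 _ _)
      (by
        change -(s * (-s) + c * c) = _
        ring)
      (z1 _ _))
  have g323 := (HC.mul HSi).cast (w := c * s⁻¹)
    (e := ![0, 0, -(s * s + c * c) / s ^ 2, 0])
    rfl (cst4 (z2 _ _ _) (z2 _ _ _)
      (by
        change c * (-c / s ^ 2) + s⁻¹ * (-s) = _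
        field_simp
        ring)
      (z2 _ _ _))
  revert k i j
  exact warp_t3 (W := fun g v d => WarpHP g y v d)
    (warp_t2 (W := fun g v d => WarpHP g y v d)
      (warp_t1 (W := fun g v d => WarpHP g y v d) z z z z)
      (warp_t1 (W := fun g v d => WarpHP g y v d) z g011 z z)
      (warp_t1 (W := fun g v d => WarpHP g y v d) z z g022 z)
      (warp_t1 (W := fun g v d => WarpHP g y v d) z z z g033))
    (warp_t2 (W := fun g v d => WarpHP g y v d)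
      (warp_t1 (W := fun g v d => WarpHP g y v d) z g101 z z)
      (warp_t1 (W := fun g v d => WarpHP g y v d) g101 g111 z z)
      (warp_t1 (W := fun g v d => WarpHP g y v d) z z g122 z)
      (warp_t1 (W := fun g v d => WarpHP g y v d) z z z g133))
    (warp_t2 (W := fun g v d => WarpHP g y v d)
      (warp_t1 (W := fun g v d => WarpHP g y v d) z z g202 z)
      (warp_t1 (W := fun g v d => WarpHP g y v d) z z g212 z)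
      (warp_t1 (W := fun g v d => WarpHP g y v d) g202 g212 z z)
      (warp_t1 (W := fun g v d => WarpHP g y v d) z z z g233))
    (warp_t2 (W := fun g v d => WarpHP g y v d)
      (warp_t1 (W := fun g v d => WarpHP g y v d) z z z g202)
      (warp_t1 (W := fun g v d => WarpHP g y v d) z z z g212)
      (warp_t1 (W := fun g v d => WarpHP g y v d) z z z g323)
      (warp_t1 (W := fun g v d => WarpHP g y v d) g202 g212 g323 z))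

theorem warp_eventually {A b : ℝ → ℝ → ℝ} {y : E4}
    (hA : ContDiffAt ℝ ∞ (fun p : ℝ × ℝ => A p.1 p.2) (y 0, y 1))
    (hb : ContDiffAt ℝ ∞ (fun p : ℝ × ℝ => b p.1 p.2) (y 0, y 1))
    (hA0 : A (y 0) (y 1) ≠ 0) (hb0 : b (y 0) (y 1) ≠ 0) (hs : Real.sin (y 2) ≠ 0)
    (k i j : Fin 4) : chr (warpMet A b) k i j =ᶠ[𝓝 y] warpG A b k i j := by
  have hpr : Tendsto (fun z : E4 => ((z 0, z 1) : ℝ × ℝ)) (𝓝 y) (𝓝 (y 0, y 1)) :=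
    warpPr.continuous.continuousAt
  have hev : ∀ {B : ℝ → ℝ → ℝ},
      ContDiffAt ℝ ∞ (fun p : ℝ × ℝ => B p.1 p.2) (y 0, y 1) → B (y 0) (y 1) ≠ 0 →
      ∀ᶠ z : E4 in 𝓝 y, DifferentiableAt ℝ (fun p : ℝ × ℝ => B p.1 p.2) (z 0, z 1) ∧
        B (z 0) (z 1) ≠ 0 := by
    intro B hB hB0
    have h1 : ∀ᶠ q in 𝓝 ((y 0, y 1) : ℝ × ℝ),
        DifferentiableAt ℝ (fun p : ℝ × ℝ => B p.1 p.2) q := by
      have := (hB.of_le (m := 1) (by exact_mod_cast le_top)).eventually (by simp)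
      filter_upwards [this] with q hq
      exact hq.differentiableAt (by simp)
    have h2 : ∀ᶠ q in 𝓝 ((y 0, y 1) : ℝ × ℝ), B q.1 q.2 ≠ 0 :=
      hB.continuousAt.eventually_ne hB0
    exact (hpr.eventually h1).and (hpr.eventually h2)
  have hsin : ∀ᶠ z : E4 in 𝓝 y, Real.sin (z 2) ≠ 0 := by
    have hc : Continuous (fun z : E4 => Real.sin (z 2)) :=
      Real.continuous_sin.comp (EuclideanSpace.proj (2 : Fin 4) : E4 →L[ℝ] ℝ).continuous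
    exact hc.continuousAt.eventually_ne hs
  filter_upwards [hev hA hA0, hev hb hb0, hsin] with z h1 h2 h3
  exact warp_chr h1.1 h2.1 h1.2 h2.2 h3 k i j

/-- the quadratic part of the Ricci coefficients -/
def warpQ (A B : Fin 4 → Fin 4 → ℝ) : ℝ := ∑ k, ∑ l, A k l * B l k

theorem warp_ric_expand {g : Met} {y : E4} {V : Fin 4 → Fin 4 → Fin 4 → ℝ}
    {D : Fin 4 → Fin 4 → Fin 4 → Fin 4 → ℝ} (hv : ∀ k i j, chr g k i j y = V k i j)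
    (hd : ∀ n k i j, pd n (chr g k i j) y = D k i j n) {t0 t1 t2 : ℝ}
    (ht : ∀ l, V 0 0 l + V 1 1 l + V 2 2 l + V 3 3 l = (![t0, t1, t2, 0] : Fin 4 → ℝ) l)
    (i j : Fin 4) : ric g i j y =
      (D 0 i j 0 + D 1 i j 1 + D 2 i j 2 + D 3 i j 3 -
        (D 0 i 0 j + D 1 i 1 j + D 2 i 2 j + D 3 i 3 j)) +
      (t0 * V 0 i j + t1 * V 1 i j + t2 * V 2 i j) - warpQ (fun k l => V k j l) (fun l k => V l i k) := by
  have h0 : V 0 0 0 + V 1 1 0 + V 2 2 0 + V 3 3 0 = t0 := ht 0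
  have h1 : V 0 0 1 + V 1 1 1 + V 2 2 1 + V 3 3 1 = t1 := ht 1
  have h2 : V 0 0 2 + V 1 1 2 + V 2 2 2 + V 3 3 2 = t2 := ht 2
  have h3 : V 0 0 3 + V 1 1 3 + V 2 2 3 + V 3 3 3 = 0 := ht 3
  simp only [ric, hv, hd, warpQ, Finset.sum_sub_distrib, Fin.sum_univ_four]
  linear_combination h0 * V 0 i j + h1 * V 1 i j + h2 * V 2 i j + h3 * V 3 i j

theorem warpQ0 {A B : Fin 4 → Fin 4 → ℝ} {x0 x1 x2 : ℝ} (h00 : A 0 0 = 0) (h01 : A 0 1 = 0) (h02 :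
    A 0 2 = 0) (h03 : A 0 3 = 0) (h10 : A 1 0 = 0) (h11 : A 1 1 = x0) (h12 : A 1 2 = 0) (h13 : A 1 3 =
    0) (h20 : A 2 0 = 0) (h21 : A 2 1 = 0) (h22 : A 2 2 = x1) (h23 : A 2 3 = 0) (h30 : A 3 0 = 0) (h31
    : A 3 1 = 0) (h32 : A 3 2 = 0) (h33 : A 3 3 = x2) : warpQ A B = x0 * B 1 1 + x1 * B 2 2 + x2 * B 3
    3 := by
  simp only [warpQ, Fin.sum_univ_four, h00, h01, h02, h03, h10, h11, h12, h13, h20, h21, h22, h23, h30, h31, h32, h33, zero_mul, zero_add, add_zero]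

theorem warpQ1 {A B : Fin 4 → Fin 4 → ℝ} {x0 x1 x2 x3 x4 : ℝ} (h00 : A 0 0 = 0) (h01 : A 0 1 = x0)
    (h02 : A 0 2 = 0) (h03 : A 0 3 = 0) (h10 : A 1 0 = x1) (h11 : A 1 1 = x2) (h12 : A 1 2 = 0) (h13 :
    A 1 3 = 0) (h20 : A 2 0 = 0) (h21 : A 2 1 = 0) (h22 : A 2 2 = x3) (h23 : A 2 3 = 0) (h30 : A 3 0 =
    0) (h31 : A 3 1 = 0) (h32 : A 3 2 = 0) (h33 : A 3 3 = x4) : warpQ A B = x0 * B 1 0 + x1 * B 0 1 +
    x2 * B 1 1 + x3 * B 2 2 + x4 * B 3 3 := by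
  simp only [warpQ, Fin.sum_univ_four, h00, h01, h02, h03, h10, h11, h12, h13, h20, h21, h22, h23, h30, h31, h32, h33, zero_mul, zero_add, add_zero]
  ring

theorem warpQ2 {A B : Fin 4 → Fin 4 → ℝ} {x0 x1 x2 x3 x4 : ℝ} (h00 : A 0 0 = 0) (h01 : A 0 1 = 0)
    (h02 : A 0 2 = x0) (h03 : A 0 3 = 0) (h10 : A 1 0 = 0) (h11 : A 1 1 = 0) (h12 : A 1 2 = x1) (h13 :
    A 1 3 = 0) (h20 : A 2 0 = x2) (h21 : A 2 1 = x3) (h22 : A 2 2 = 0) (h23 : A 2 3 = 0) (h30 : A 3 0 =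
    0) (h31 : A 3 1 = 0) (h32 : A 3 2 = 0) (h33 : A 3 3 = x4) : warpQ A B = x0 * B 2 0 + x1 * B 2 1 +
    x2 * B 0 2 + x3 * B 1 2 + x4 * B 3 3 := by
  simp only [warpQ, Fin.sum_univ_four, h00, h01, h02, h03, h10, h11, h12, h13, h20, h21, h22, h23, h30, h31, h32, h33, zero_mul, zero_add, add_zero]
  ring

theorem warpQ3 {A B : Fin 4 → Fin 4 → ℝ} {x0 x1 x2 x3 x4 x5 : ℝ} (h00 : A 0 0 = 0) (h01 : A 0 1 =
    0) (h02 : A 0 2 = 0) (h03 : A 0 3 = x0) (h10 : A 1 0 = 0) (h11 : A 1 1 = 0) (h12 : A 1 2 = 0) (h13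
    : A 1 3 = x1) (h20 : A 2 0 = 0) (h21 : A 2 1 = 0) (h22 : A 2 2 = 0) (h23 : A 2 3 = x2) (h30 : A 3 0
    = x3) (h31 : A 3 1 = x4) (h32 : A 3 2 = x5) (h33 : A 3 3 = 0) : warpQ A B = x0 * B 3 0 + x1 * B 3 1
    + x2 * B 3 2 + x3 * B 0 3 + x4 * B 1 3 + x5 * B 2 3 := by
  simp only [warpQ, Fin.sum_univ_four, h00, h01, h02, h03, h10, h11, h12, h13, h20, h21, h22, h23, h30, h31, h32, h33, zero_mul, zero_add, add_zero]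
  ring

theorem warp_z3 (t0 t1 t2 x0 x1 x2 : ℝ) : (0 + 0 + 0 + 0 - (0 + 0 + 0 + 0)) +
    (t0 * 0 + t1 * 0 + t2 * 0) - (x0 * 0 + x1 * 0 + x2 * 0) = 0 := by ring

theorem warp_z5 (t0 t1 t2 x0 x1 x2 x3 x4 : ℝ) : (0 + 0 + 0 + 0 - (0 + 0 + 0 + 0)) +
    (t0 * 0 + t1 * 0 + t2 * 0) - (x0 * 0 + x1 * 0 + x2 * 0 + x3 * 0 + x4 * 0) = 0 := by ring

theorem warp_z6 (t0 t1 t2 x0 x1 x2 x3 x4 x5 : ℝ) : (0 + 0 + 0 + 0 - (0 + 0 + 0 + 0)) +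
    (t0 * 0 + t1 * 0 + t2 * 0) - (x0 * 0 + x1 * 0 + x2 * 0 + x3 * 0 + x4 * 0 + x5 * 0) = 0 := by
  ring

theorem warp_y5 (t0 t1 t2 x0 x1 x2 x3 x : ℝ) : (0 + 0 + 0 + 0 - (0 + 0 + 0 + 0)) +
    (t0 * 0 + t1 * 0 + t2 * x) - (x0 * 0 + x1 * 0 + x2 * 0 + x3 * 0 + t2 * x) = 0 := by ring

theorem warp_y3 (t0 t1 t2 x0 x1 x : ℝ) : (0 + 0 + 0 + 0 - (0 + 0 + 0 + 0)) +
    (t0 * 0 + t1 * 0 + t2 * x) - (x0 * 0 + x1 * 0 + x * t2) = 0 := by ring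

theorem warp_y4 (t0 t1 t2 x0 x1 x2 x3 x : ℝ) : (0 + 0 + 0 + 0 - (0 + 0 + 0 + 0)) +
    (t0 * 0 + t1 * 0 + t2 * x) - (x0 * 0 + x1 * 0 + x2 * 0 + x3 * 0 + x * t2) = 0 := by ring

theorem warp_ric00 (a0 at_ ax att b0 bt bx btt s c : ℝ) (ha : a0 ≠ 0) (hb : b0 ≠ 0) :
    (0 + 0 + 0 + 0 - (0 + ((att * a0 - at_ * at_) / a0 ^ 2) + ((btt * b0 - bt * bt) / b0 ^ 2) +
    ((btt * b0 - bt * bt) / b0 ^ 2))) + ((at_ * a0⁻¹ + 2 * (bt * b0⁻¹)) * 0 + (ax * a0⁻¹ + 2 *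
    (bx * b0⁻¹)) * 0 + (c * s⁻¹) * 0) - ((at_ * a0⁻¹) * (at_ * a0⁻¹) + (bt * b0⁻¹) * (bt *
    b0⁻¹) + (bt * b0⁻¹) * (bt * b0⁻¹)) =
    -att / a0 - 2 * btt / b0 := by
  field_simp
  ring

theorem warp_ric01 (a0 at_ ax m b0 bt bx btx s c : ℝ) (ha : a0 ≠ 0) (hb : b0 ≠ 0) :
    (0 + ((m * a0 - at_ * ax) / a0 ^ 2) + 0 + 0 - (0 + ((m * a0 - at_ * ax) / a0 ^ 2) + ((btx *
    b0 - bt * bx) / b0 ^ 2) + ((btx * b0 - bt * bx) / b0 ^ 2))) + ((at_ * a0⁻¹ + 2 * (bt *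
    b0⁻¹)) * 0 + (ax * a0⁻¹ + 2 * (bx * b0⁻¹)) * (at_ * a0⁻¹) + (c * s⁻¹) * 0) - ((-(a0 * at_))
    * 0 + (at_ * a0⁻¹) * 0 + (ax * a0⁻¹) * (at_ * a0⁻¹) + (bx * b0⁻¹) * (bt * b0⁻¹) + (bx *
    b0⁻¹) * (bt * b0⁻¹)) =
    -2 * (btx - at_ * bx / a0) / (a0 * b0) * a0 := by
  field_simp
  ring

theorem warp_ric10 (a0 at_ ax m b0 bt bx btx s c : ℝ) (ha : a0 ≠ 0) (hb : b0 ≠ 0) :
    (0 + ((m * a0 - at_ * ax) / a0 ^ 2) + 0 + 0 - (0 + ((m * a0 - ax * at_) / a0 ^ 2) + ((btx *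
    b0 - bx * bt) / b0 ^ 2) + ((btx * b0 - bx * bt) / b0 ^ 2))) + ((at_ * a0⁻¹ + 2 * (bt *
    b0⁻¹)) * 0 + (ax * a0⁻¹ + 2 * (bx * b0⁻¹)) * (at_ * a0⁻¹) + (c * s⁻¹) * 0) - ((at_ * a0⁻¹)
    * (ax * a0⁻¹) + (bt * b0⁻¹) * (bx * b0⁻¹) + (bt * b0⁻¹) * (bx * b0⁻¹)) =
    -2 * (btx - at_ * bx / a0) / (a0 * b0) * a0 := by
  field_simp
  ring

theorem warp_ric11 (a0 at_ ax att axx b0 bt bx bxx s c : ℝ) (ha : a0 ≠ 0) (hb : b0 ≠ 0) :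
    ((-(a0 * att + at_ * at_)) + ((axx * a0 - ax * ax) / a0 ^ 2) + 0 + 0 - (0 + ((axx * a0 - ax
    * ax) / a0 ^ 2) + ((bxx * b0 - bx * bx) / b0 ^ 2) + ((bxx * b0 - bx * bx) / b0 ^ 2))) +
    ((at_ * a0⁻¹ + 2 * (bt * b0⁻¹)) * (-(a0 * at_)) + (ax * a0⁻¹ + 2 * (bx * b0⁻¹)) * (ax *
    a0⁻¹) + (c * s⁻¹) * 0) - ((-(a0 * at_)) * (at_ * a0⁻¹) + (at_ * a0⁻¹) * (-(a0 * at_)) + (ax
    * a0⁻¹) * (ax * a0⁻¹) + (bx * b0⁻¹) * (bx * b0⁻¹) + (bx * b0⁻¹) * (bx * b0⁻¹)) =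
    (-att / a0 - 2 * (at_ * bt / (a0 * b0) + (bxx - ax * bx / a0) / (a0 ^ 2 * b0))) * a0 ^ 2 := by
  field_simp
  ring

theorem warp_ric22 (a0 at_ ax b0 bt bx btt bxx s c : ℝ) (ha : a0 ≠ 0) (hb : b0 ≠ 0) (hs : s ≠ 0) :
    ((-(b0 * btt + bt * bt)) + (-((bx * bx + b0 * bxx) / a0 ^ 2 - 2 * b0 * bx * ax / a0 ^ 3)) +
    0 + 0 - (0 + 0 + 0 + (-(s * s + c * c) / s ^ 2))) + ((at_ * a0⁻¹ + 2 * (bt * b0⁻¹)) * (-(b0
    * bt)) + (ax * a0⁻¹ + 2 * (bx * b0⁻¹)) * (-((b0 * bx) * (a0⁻¹ * a0⁻¹))) + (c * s⁻¹) * 0) -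
    ((-(b0 * bt)) * (bt * b0⁻¹) + (-((b0 * bx) * (a0⁻¹ * a0⁻¹))) * (bx * b0⁻¹) + (bt * b0⁻¹) *
    (-(b0 * bt)) + (bx * b0⁻¹) * (-((b0 * bx) * (a0⁻¹ * a0⁻¹))) + (c * s⁻¹) * (c * s⁻¹)) =
    (-btt / b0 - (at_ * bt / (a0 * b0) + (bxx - ax * bx / a0) / (a0 ^ 2 * b0)) + (1 - bt ^ 2 - bx ^ 2 / a0 ^ 2) / b0 ^ 2) * b0 ^ 2 := by
  field_simp
  ring

theorem warp_ric33 (a0 at_ ax b0 bt bx btt bxx s c : ℝ) (ha : a0 ≠ 0) (hb : b0 ≠ 0) (hs : s ≠ 0) :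
    ((-((b0 * btt + bt * bt) * (s * s))) + (-((bx * bx + b0 * bxx) / a0 ^ 2 - 2 * b0 * bx * ax
    / a0 ^ 3) * (s * s)) + (-(c * c - s * s)) + 0 - (0 + 0 + 0 + 0)) + ((at_ * a0⁻¹ + 2 * (bt *
    b0⁻¹)) * (-((b0 * bt) * (s * s))) + (ax * a0⁻¹ + 2 * (bx * b0⁻¹)) * (-((b0 * bx) * (a0⁻¹ *
    a0⁻¹) * (s * s))) + (c * s⁻¹) * (-(s * c))) - ((-((b0 * bt) * (s * s))) * (bt * b0⁻¹) +
    (-((b0 * bx) * (a0⁻¹ * a0⁻¹) * (s * s))) * (bx * b0⁻¹) + (-(s * c)) * (c * s⁻¹) + (bt *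
    b0⁻¹) * (-((b0 * bt) * (s * s))) + (bx * b0⁻¹) * (-((b0 * bx) * (a0⁻¹ * a0⁻¹) * (s * s))) +
    (c * s⁻¹) * (-(s * c))) =
    (-btt / b0 - (at_ * bt / (a0 * b0) + (bxx - ax * bx / a0) / (a0 ^ 2 * b0)) + (1 - bt ^ 2 - bx ^ 2 / a0 ^ 2) / b0 ^ 2) * (b0 ^ 2 * s ^ 2) := by
  field_simp
  ring

theorem ricq_warp {A b : ℝ → ℝ → ℝ} {y : E4}
    (hA : ContDiffAt ℝ ∞ (fun p : ℝ × ℝ => A p.1 p.2) (y 0, y 1))
    (hb : ContDiffAt ℝ ∞ (fun p : ℝ × ℝ => b p.1 p.2) (y 0, y 1))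
    (hA0 : A (y 0) (y 1) ≠ 0) (hb0 : b (y 0) (y 1) ≠ 0) (hs : Real.sin (y 2) ≠ 0)
    {a0 at_ ax att b0 bt bx btt btx bxx Rtt Rtx Rxx Rss : ℝ}
    (ha0 : A (y 0) (y 1) = a0) (hat : dT A (y 0) (y 1) = at_) (hax : dX A (y 0) (y 1) = ax)
    (hatt : dT (dT A) (y 0) (y 1) = att)
    (hb00 : b (y 0) (y 1) = b0) (hbt : dT b (y 0) (y 1) = bt) (hbx : dX b (y 0) (y 1) = bx)
    (hbtt : dT (dT b) (y 0) (y 1) = btt) (hbtx : dT (dX b) (y 0) (y 1) = btx)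
    (hbxx : dX (dX b) (y 0) (y 1) = bxx)
    (hRtt : Rtt = -att / a0 - 2 * btt / b0)
    (hRtx : Rtx = -2 * (btx - at_ * bx / a0) / (a0 * b0))
    (hRxx : Rxx = -att / a0 - 2 * (at_ * bt / (a0 * b0) + (bxx - ax * bx / a0) / (a0 ^ 2 * b0)))
    (hRss : Rss = -btt / b0 - (at_ * bt / (a0 * b0) + (bxx - ax * bx / a0) / (a0 ^ 2 * b0)) +
      (1 - bt ^ 2 - bx ^ 2 / a0 ^ 2) / b0 ^ 2) (v : E4) :
    ricq (warpMet A b) y v = Rtt * v 0 ^ 2 + 2 * Rtx * v 0 * (a0 * v 1) + Rxx * (a0 * v 1) ^ 2 +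
      Rss * ((b0 * v 2) ^ 2 + (b0 * Real.sin (y 2) * v 3) ^ 2) := by
  obtain ⟨m, hm⟩ : ∃ m, dT (dX A) (y 0) (y 1) = m := ⟨_, rfl⟩
  obtain ⟨axx, haxx⟩ : ∃ m, dX (dX A) (y 0) (y 1) = m := ⟨_, rfl⟩
  obtain ⟨s, hss⟩ : ∃ s, Real.sin (y 2) = s := ⟨_, rfl⟩
  obtain ⟨c, hcc⟩ : ∃ c, Real.cos (y 2) = c := ⟨_, rfl⟩
  have H := warp_HP hA hb hA0 hb0 hs ha0 hat hax hatt hm haxx hb00 hbt hbx hbtt hbtx hbxx hss hcc
  have HE := warp_eventually hA hb hA0 hb0 hs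
  have hv : ∀ k i j, chr (warpMet A b) k i j y = warpV a0 at_ ax b0 bt bx s c k i j := by
    intro k i j
    rw [(HE k i j).eq_of_nhds, (H k i j).1]
  have hd : ∀ n k i j, pd n (chr (warpMet A b) k i j) y =
      warpD a0 at_ ax att m axx b0 bt bx btt btx bxx s c k i j n := by
    intro n k i j
    rw [pd, (HE k i j).fderiv_eq]
    exact (H k i j).2.2 n
  have ha : a0 ≠ 0 := by rw [← ha0]; exact hA0
  have hb1 : b0 ≠ 0 := by rw [← hb00]; exact hb0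
  have hs1 : s ≠ 0 := by rw [← hss]; exact hs
  rw [hss]
  have t0 : 0 + at_ * a0⁻¹ + bt * b0⁻¹ + bt * b0⁻¹ = at_ * a0⁻¹ + 2 * (bt * b0⁻¹) := by ring
  have t1 : 0 + ax * a0⁻¹ + bx * b0⁻¹ + bx * b0⁻¹ = ax * a0⁻¹ + 2 * (bx * b0⁻¹) := by ring
  have t2 : 0 + 0 + 0 + c * s⁻¹ = c * s⁻¹ := by ring
  have t3 : (0 : ℝ) + 0 + 0 + 0 = 0 := by ring
  have E := warp_ric_expand hv hd (warp_f4 t0 t1 t2 t3)
  have E0 := fun i => (E i 0).trans (congrArg (_ - ·) (warpQ0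
    rfl rfl rfl rfl rfl rfl rfl rfl rfl rfl rfl rfl rfl rfl rfl rfl))
  have E1 := fun i => (E i 1).trans (congrArg (_ - ·) (warpQ1
    rfl rfl rfl rfl rfl rfl rfl rfl rfl rfl rfl rfl rfl rfl rfl rfl))
  have E2 := fun i => (E i 2).trans (congrArg (_ - ·) (warpQ2
    rfl rfl rfl rfl rfl rfl rfl rfl rfl rfl rfl rfl rfl rfl rfl rfl))
  have E3 := fun i => (E i 3).trans (congrArg (_ - ·) (warpQ3
    rfl rfl rfl rfl rfl rfl rfl rfl rfl rfl rfl rfl rfl rfl rfl rfl))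
  have r00 : ric (warpMet A b) 0 0 y = Rtt := by
    rw [hRtt]
    exact (E0 0).trans (warp_ric00 a0 at_ ax att b0 bt bx btt s c ha hb1)
  have r01 : ric (warpMet A b) 0 1 y = Rtx * a0 := by
    rw [hRtx]
    exact (E1 0).trans (warp_ric01 a0 at_ ax m b0 bt bx btx s c ha hb1)
  have r02 : ric (warpMet A b) 0 2 y = 0 :=
    (E2 0).trans (warp_y5 _ _ _ _ _ _ _ _)
  have r03 : ric (warpMet A b) 0 3 y = 0 :=
    (E3 0).trans (warp_z6 _ _ _ _ _ _ _ _ _)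
  have r10 : ric (warpMet A b) 1 0 y = Rtx * a0 := by
    rw [hRtx]
    exact (E0 1).trans (warp_ric10 a0 at_ ax m b0 bt bx btx s c ha hb1)
  have r11 : ric (warpMet A b) 1 1 y = Rxx * a0 ^ 2 := by
    rw [hRxx]
    exact (E1 1).trans (warp_ric11 a0 at_ ax att axx b0 bt bx bxx s c ha hb1)
  have r12 : ric (warpMet A b) 1 2 y = 0 :=
    (E2 1).trans (warp_y5 _ _ _ _ _ _ _ _)
  have r13 : ric (warpMet A b) 1 3 y = 0 :=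
    (E3 1).trans (warp_z6 _ _ _ _ _ _ _ _ _)
  have r20 : ric (warpMet A b) 2 0 y = 0 :=
    (E0 2).trans (warp_y3 _ _ _ _ _ _)
  have r21 : ric (warpMet A b) 2 1 y = 0 :=
    (E1 2).trans (warp_y4 _ _ _ _ _ _ _ _)
  have r22 : ric (warpMet A b) 2 2 y = Rss * b0 ^ 2 := by
    rw [hRss]
    exact (E2 2).trans (warp_ric22 a0 at_ ax b0 bt bx btt bxx s c ha hb1 hs1)
  have r23 : ric (warpMet A b) 2 3 y = 0 :=
    (E3 2).trans (warp_z6 _ _ _ _ _ _ _ _ _)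
  have r30 : ric (warpMet A b) 3 0 y = 0 :=
    (E0 3).trans (warp_z3 _ _ _ _ _ _)
  have r31 : ric (warpMet A b) 3 1 y = 0 :=
    (E1 3).trans (warp_z5 _ _ _ _ _ _ _ _)
  have r32 : ric (warpMet A b) 3 2 y = 0 :=
    (E2 3).trans (warp_z5 _ _ _ _ _ _ _ _)
  have r33 : ric (warpMet A b) 3 3 y = Rss * (b0 ^ 2 * s ^ 2) := by
    rw [hRss]
    exact (E3 3).trans (warp_ric33 a0 at_ ax b0 bt bx btt bxx s c ha hb1 hs1)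
  simp only [ricq, Fin.sum_univ_four, r00, r01, r02, r03, r10, r11, r12, r13, r20, r21, r22, r23,
    r30, r31, r32, r33]
  ring

end Pool.Agent.W_MP_654ec6
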