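import Pool.Agent.W_MP_654ec6.A.Defs

/-! Auxiliary calculus for the warped metric: functions of the first two coordinates, values and
partial derivatives. -/

open scoped ContDiff Topology
open Filter

namespace Pool.Agent.W_MP_654ec6

/-- value and partial derivatives of a function at a point -/
def WarpHP (f : E4 → ℝ) (y : E4) (v : ℝ) (d : Fin 4 → ℝ) : Prop :=
  f y = v ∧ DifferentiableAt ℝ f y ∧ ∀ i, pd i f y = d i

theorem WarpHP.mul {f g : E4 → ℝ} {y : E4} {v w : ℝ} {d e : Fin 4 → ℝ}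
    (hf : WarpHP f y v d) (hg : WarpHP g y w e) :
    WarpHP (fun z => f z * g z) y (v * w) (fun i => v * e i + w * d i) := by
  obtain ⟨h1, h2, h3⟩ := hf
  obtain ⟨h4, h5, h6⟩ := hg
  refine ⟨by simp only [h1, h4], h2.mul h5, fun i => ?_⟩
  rw [pd, fderiv_fun_mul h2 h5]
  simp only [ContinuousLinearMap.add_apply, ContinuousLinearMap.smul_apply, smul_eq_mul]
  rw [h1, h4, ← h3 i, ← h6 i]
  rfl

theorem WarpHP.neg {f : E4 → ℝ} {y : E4} {v : ℝ} {d : Fin 4 → ℝ} (hf : WarpHP f y v d) :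
    WarpHP (fun z => -f z) y (-v) (fun i => -d i) := by
  obtain ⟨h1, h2, h3⟩ := hf
  refine ⟨by simp only [h1], h2.neg, fun i => ?_⟩
  rw [pd, fderiv_fun_neg]
  simp only [ContinuousLinearMap.neg_apply]
  rw [← h3 i]
  rfl

theorem WarpHP.inv {f : E4 → ℝ} {y : E4} {v : ℝ} {d : Fin 4 → ℝ} (hf : WarpHP f y v d)
    (hv : v ≠ 0) : WarpHP (fun z => (f z)⁻¹) y v⁻¹ (fun i => -d i / v ^ 2) := by
  obtain ⟨h1, h2, h3⟩ := hf
  have hne : f y ≠ 0 := by rw [h1]; exact hv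
  have h4 : HasFDerivAt (fun z => (f z)⁻¹) ((-(f y ^ 2)⁻¹) • fderiv ℝ f y) y := by
    have := (hasDerivAt_inv hne).comp_hasFDerivAt y h2.hasFDerivAt
    exact this
  refine ⟨by simp only [h1], h4.differentiableAt, fun i => ?_⟩
  rw [pd, h4.fderiv]
  simp only [ContinuousLinearMap.smul_apply, smul_eq_mul]
  rw [h1, ← h3 i]
  change -(v ^ 2)⁻¹ * pd i f y = _
  field_simp

theorem WarpHP.zero (y : E4) : WarpHP (fun _ => (0 : ℝ)) y 0 (fun _ => 0) := by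
  refine ⟨rfl, differentiableAt_const _, fun i => ?_⟩
  rw [pd]
  simp

theorem WarpHP.congr {f g : E4 → ℝ} {y : E4} {v : ℝ} {d : Fin 4 → ℝ} (hf : WarpHP f y v d)
    (h : g =ᶠ[𝓝 y] f) : WarpHP g y v d := by
  obtain ⟨h1, h2, h3⟩ := hf
  refine ⟨by rw [h.eq_of_nhds, h1], h2.congr_of_eventuallyEq h, fun i => ?_⟩
  rw [pd, h.fderiv_eq]
  exact h3 i

theorem WarpHP.cast {f : E4 → ℝ} {y : E4} {v w : ℝ} {d e : Fin 4 → ℝ} (hf : WarpHP f y v d)
    (h1 : v = w) (h2 : ∀ i, d i = e i) : WarpHP f y w e := by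
  subst h1
  have : d = e := funext h2
  rwa [← this]

/-- the projection to the first two coordinates -/
noncomputable def warpPr : E4 →L[ℝ] ℝ × ℝ :=
  (EuclideanSpace.proj (0 : Fin 4)).prod (EuclideanSpace.proj (1 : Fin 4))

theorem warpPr_apply (y : E4) : warpPr y = (y 0, y 1) := rfl

theorem warp_bv (i j : Fin 4) : bv i j = if j = i then 1 else 0 := by
  simp [bv]

theorem warpHP_comp {B : ℝ → ℝ → ℝ} {y : E4}
    (hd : DifferentiableAt ℝ (fun p : ℝ × ℝ => B p.1 p.2) (y 0, y 1)) :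
    WarpHP (fun z : E4 => B (z 0) (z 1)) y (B (y 0) (y 1))
      ![dT B (y 0) (y 1), dX B (y 0) (y 1), 0, 0] := by
  have hc : HasFDerivAt (fun z : E4 => B (z 0) (z 1))
      ((fderiv ℝ (fun p : ℝ × ℝ => B p.1 p.2) (y 0, y 1)).comp warpPr) y := by
    have h1 : HasFDerivAt (fun p : ℝ × ℝ => B p.1 p.2)
        (fderiv ℝ (fun p : ℝ × ℝ => B p.1 p.2) (y 0, y 1)) (warpPr y) := hd.hasFDerivAt
    exact h1.comp y warpPr.hasFDerivAt
  have hT : dT B (y 0) (y 1) = fderiv ℝ (fun p : ℝ × ℝ => B p.1 p.2) (y 0, y 1) (1, 0) := by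
    have h2 : HasDerivAt (fun s : ℝ => ((s, y 1) : ℝ × ℝ)) (1, 0) (y 0) :=
      (hasDerivAt_id (y 0)).prodMk (hasDerivAt_const (y 0) (y 1))
    have h3 := hd.hasFDerivAt.comp_hasDerivAt (y 0) h2
    exact h3.deriv
  have hX : dX B (y 0) (y 1) = fderiv ℝ (fun p : ℝ × ℝ => B p.1 p.2) (y 0, y 1) (0, 1) := by
    have h2 : HasDerivAt (fun s : ℝ => ((y 0, s) : ℝ × ℝ)) (0, 1) (y 1) :=
      (hasDerivAt_const (y 1) (y 0)).prodMk (hasDerivAt_id (y 1))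
    have h3 := hd.hasFDerivAt.comp_hasDerivAt (y 1) h2
    exact h3.deriv
  refine ⟨rfl, hc.differentiableAt, fun i => ?_⟩
  rw [pd, hc.fderiv, ContinuousLinearMap.comp_apply, warpPr_apply]
  simp only [warp_bv]
  fin_cases i
  · simp [hT]
  · simp [hX]
  · simp
    exact map_zero _
  · simp
    exact map_zero _

theorem warp_dT_eq {B : ℝ → ℝ → ℝ} {p : ℝ × ℝ}
    (hB : ContDiffAt ℝ ∞ (fun p : ℝ × ℝ => B p.1 p.2) p) :
    (fun q : ℝ × ℝ => dT B q.1 q.2) =ᶠ[𝓝 p]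
      fun q => fderiv ℝ (fun p : ℝ × ℝ => B p.1 p.2) q (1, 0) := by
  have h1 : ∀ᶠ q in 𝓝 p, DifferentiableAt ℝ (fun p : ℝ × ℝ => B p.1 p.2) q := by
    have := (hB.of_le (m := 1) (by exact_mod_cast le_top)).eventually (by simp)
    filter_upwards [this] with q hq
    exact hq.differentiableAt (by simp)
  filter_upwards [h1] with q hq
  have h2 : HasDerivAt (fun s : ℝ => ((s, q.2) : ℝ × ℝ)) (1, 0) q.1 :=
    (hasDerivAt_id q.1).prodMk (hasDerivAt_const q.1 q.2)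
  have h3 := hq.hasFDerivAt.comp_hasDerivAt q.1 h2
  exact h3.deriv

theorem warp_dX_eq {B : ℝ → ℝ → ℝ} {p : ℝ × ℝ}
    (hB : ContDiffAt ℝ ∞ (fun p : ℝ × ℝ => B p.1 p.2) p) :
    (fun q : ℝ × ℝ => dX B q.1 q.2) =ᶠ[𝓝 p]
      fun q => fderiv ℝ (fun p : ℝ × ℝ => B p.1 p.2) q (0, 1) := by
  have h1 : ∀ᶠ q in 𝓝 p, DifferentiableAt ℝ (fun p : ℝ × ℝ => B p.1 p.2) q := by
    have := (hB.of_le (m := 1) (by exact_mod_cast le_top)).eventually (by simp)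
    filter_upwards [this] with q hq
    exact hq.differentiableAt (by simp)
  filter_upwards [h1] with q hq
  have h2 : HasDerivAt (fun s : ℝ => ((q.1, s) : ℝ × ℝ)) (0, 1) q.2 :=
    (hasDerivAt_const q.2 q.1).prodMk (hasDerivAt_id q.2)
  have h3 := hq.hasFDerivAt.comp_hasDerivAt q.2 h2
  exact h3.deriv

theorem warp_contDiffAt_fderiv {B : ℝ → ℝ → ℝ} {p : ℝ × ℝ}
    (hB : ContDiffAt ℝ ∞ (fun p : ℝ × ℝ => B p.1 p.2) p) (v : ℝ × ℝ) :
    ContDiffAt ℝ ∞ (fun q => fderiv ℝ (fun p : ℝ × ℝ => B p.1 p.2) q v) p := by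
  have h1 : ContDiffAt ℝ ∞ (fderiv ℝ (fun p : ℝ × ℝ => B p.1 p.2)) p :=
    hB.fderiv_right (m := ∞) (by exact_mod_cast le_top)
  exact h1.clm_apply contDiffAt_const

theorem warp_contDiffAt_dT {B : ℝ → ℝ → ℝ} {p : ℝ × ℝ}
    (hB : ContDiffAt ℝ ∞ (fun p : ℝ × ℝ => B p.1 p.2) p) :
    ContDiffAt ℝ ∞ (fun q : ℝ × ℝ => dT B q.1 q.2) p :=
  (warp_contDiffAt_fderiv hB (1, 0)).congr_of_eventuallyEq (warp_dT_eq hB)

theorem warp_contDiffAt_dX {B : ℝ → ℝ → ℝ} {p : ℝ × ℝ}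
    (hB : ContDiffAt ℝ ∞ (fun p : ℝ × ℝ => B p.1 p.2) p) :
    ContDiffAt ℝ ∞ (fun q : ℝ × ℝ => dX B q.1 q.2) p :=
  (warp_contDiffAt_fderiv hB (0, 1)).congr_of_eventuallyEq (warp_dX_eq hB)

/-- equality of mixed derivatives -/
theorem warp_mixed {B : ℝ → ℝ → ℝ} {t x : ℝ}
    (hB : ContDiffAt ℝ ∞ (fun p : ℝ × ℝ => B p.1 p.2) (t, x)) :
    dX (dT B) t x = dT (dX B) t x := by
  set F : ℝ × ℝ → ℝ := fun p => B p.1 p.2 with hF
  have h1 := (warp_dX_eq (warp_contDiffAt_dT hB)).eq_of_nhds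
  have h2 := (warp_dT_eq (warp_contDiffAt_dX hB)).eq_of_nhds
  change dX (dT B) t x = _ at h1
  change dT (dX B) t x = _ at h2
  rw [h1, h2, (warp_dT_eq hB).fderiv_eq, (warp_dX_eq hB).fderiv_eq]
  have h3 : DifferentiableAt ℝ (fderiv ℝ F) (t, x) :=
    (hB.fderiv_right (m := ∞) (by exact_mod_cast le_top)).differentiableAt (by simp)
  have h4 : ∀ v w : ℝ × ℝ, fderiv ℝ (fun q => fderiv ℝ F q v) (t, x) w =
      fderiv ℝ (fderiv ℝ F) (t, x) w v := by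
    intro v w
    have h5 : HasFDerivAt (fun q => fderiv ℝ F q v)
        ((ContinuousLinearMap.apply ℝ ℝ v).comp (fderiv ℝ (fderiv ℝ F) (t, x))) (t, x) :=
      (ContinuousLinearMap.apply ℝ ℝ v).hasFDerivAt.comp (t, x) h3.hasFDerivAt
    rw [h5.fderiv]
    rfl
  rw [h4, h4]
  have h6 : IsSymmSndFDerivAt ℝ F (t, x) :=
    hB.isSymmSndFDerivAt (by
      rw [minSmoothness_of_isRCLikeNormedField]
      exact (WithTop.coe_le_coe.2 le_top : ((2 : ℕ∞) : WithTop ℕ∞) ≤ ((⊤ : ℕ∞) : WithTop ℕ∞)))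
  exact h6 _ _

theorem warpHP_sin (y : E4) : WarpHP (fun z : E4 => Real.sin (z 2)) y (Real.sin (y 2))
    ![0, 0, Real.cos (y 2), 0] := by
  have h0 : HasFDerivAt (fun z : E4 => z 2)
      (EuclideanSpace.proj (2 : Fin 4) : E4 →L[ℝ] ℝ) y :=
    (EuclideanSpace.proj (2 : Fin 4) : E4 →L[ℝ] ℝ).hasFDerivAt
  have h1 := h0.sin
  refine ⟨rfl, h1.differentiableAt, fun i => ?_⟩
  rw [pd, h1.fderiv]
  change Real.cos (y 2) * bv i 2 = _
  rw [warp_bv]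
  fin_cases i <;> simp

theorem warpHP_cos (y : E4) : WarpHP (fun z : E4 => Real.cos (z 2)) y (Real.cos (y 2))
    ![0, 0, -Real.sin (y 2), 0] := by
  have h0 : HasFDerivAt (fun z : E4 => z 2)
      (EuclideanSpace.proj (2 : Fin 4) : E4 →L[ℝ] ℝ) y :=
    (EuclideanSpace.proj (2 : Fin 4) : E4 →L[ℝ] ℝ).hasFDerivAt
  have h1 := h0.cos
  refine ⟨rfl, h1.differentiableAt, fun i => ?_⟩
  rw [pd, h1.fderiv]
  change (-Real.sin (y 2)) * bv i 2 = _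
  rw [warp_bv]
  fin_cases i <;> simp

end Pool.Agent.W_MP_654ec6
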